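import Mathlib
import Pool.Agent.Lib.P28cd.GDefs

/-!
# Iterated permutation product at constant depth: definitions

A configuration is a sequence of permutations `ω : ℕ → Perm X` of which only the layers `j < K` matter.
Blocks have `w + 1` layers: `w` fixed ones and then one alive layer, `al w i = i (w+1) + w` is the alive layer of
block `i`.
-/

set_option autoImplicit false

namespace P28ip

open Finset

section defs

variable {X : Type}

/-- an arc: layer, source, target -/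
abbrev Arc (X : Type) : Type := ℕ × X × X

/-- all arcs of `κ` are present in `P` -/
def Hold (κ : Finset (Arc X)) (P : ℕ → X → X) : Prop := ∀ e ∈ κ, P e.1 e.2.1 = e.2.2

/-- the maps of a sequence of permutations -/
def fn (ω : ℕ → Equiv.Perm X) : ℕ → X → X := fun j x => ω j x

/-- at every configuration the value of `f` is forced by at most `t` arcs in the first `K` layers -/
def CertP (K t : ℕ) (f : (ℕ → Equiv.Perm X) → Bool) : Prop :=
  ∀ ω, ∃ κ : Finset (Arc X), κ.card ≤ t ∧ (∀ e ∈ κ, e.1 < K) ∧ Hold κ (fn ω) ∧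
    ∀ ω', Hold κ (fn ω') → f ω' = f ω

/-- at every configuration with `f = false` this value is forced by at most `t` arcs in the first
`K` layers -/
def ZeroP (K t : ℕ) (f : (ℕ → Equiv.Perm X) → Bool) : Prop :=
  ∀ ω, f ω = false → ∃ κ : Finset (Arc X), κ.card ≤ t ∧ (∀ e ∈ κ, e.1 < K) ∧ Hold κ (fn ω) ∧
    ∀ ω', Hold κ (fn ω') → f ω' = false

/-- the same for the value `true` -/
def OneP (K t : ℕ) (f : (ℕ → Equiv.Perm X) → Bool) : Prop :=
  ∀ ω, f ω = true → ∃ κ : Finset (Arc X), κ.card ≤ t ∧ (∀ e ∈ κ, e.1 < K) ∧ Hold κ (fn ω) ∧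
    ∀ ω', Hold κ (fn ω') → f ω' = true

/-- product of the first `j` layers -/
def prd (ω : ℕ → Equiv.Perm X) : ℕ → Equiv.Perm X
  | 0 => 1
  | j + 1 => ω j * prd ω j

/-- the alive layer of block `i` -/
def al (w i : ℕ) : ℕ := i * (w + 1) + w

/-- `h i` in the alive layer of block `i`, the identity in the fixed layers -/
def lft (w : ℕ) (h : ℕ → Equiv.Perm X) : ℕ → Equiv.Perm X :=
  fun j => if j % (w + 1) = w then h (j / (w + 1)) else 1

/-- the configuration with gauge `γ` and names permuted by `h` in the alive layers -/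
def tht (w : ℕ) (γ h : ℕ → Equiv.Perm X) : ℕ → Equiv.Perm X :=
  fun j => γ (j + 1) * lft w h j * (γ j)⁻¹

/-- the gauge of `ω`, given `H` -/
def gam (w : ℕ) (ω H : ℕ → Equiv.Perm X) : ℕ → Equiv.Perm X
  | 0 => 1
  | j + 1 => ω j * gam w ω H j * (lft w H j)⁻¹

/-- `ω` with the names in the alive layers mapped by `R` first -/
def tha (w : ℕ) (γ ω : ℕ → Equiv.Perm X) (R : ℕ → X → X) : ℕ → X → X :=
  fun j x => if j % (w + 1) = w then ω j (γ j (R (j / (w + 1)) ((γ j).symm x))) else ω j x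

/-- the arc of the name `p` in the fixed layer `j` -/
def nar (γ : ℕ → Equiv.Perm X) (j : ℕ) (p : X) : Arc X := (j, γ j p, γ (j + 1) p)

/-- the sequence of permutations of a finite sequence -/
def ext (K : ℕ) (ω : Fin K → Equiv.Perm X) : ℕ → Equiv.Perm X :=
  fun j => if h : j < K then ω ⟨j, h⟩ else 1

/-- `κ` is the first certificate in `KK` that holds -/
def Fst (KK : Set (Finset (Arc X))) (rk : Finset (Arc X) → ℕ) (P : ℕ → X → X)
    (κ : Finset (Arc X)) : Prop :=
  κ ∈ KK ∧ Hold κ P ∧ ∀ κ' ∈ KK, rk κ' < rk κ → ¬ Hold κ' P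

/-- permutations moving only points of `Y` -/
def Sup (Y : Finset X) (h : ℕ → Equiv.Perm X) : Prop := ∀ i, ∀ z ∉ Y, h i z = z

/-- permutations of the subset `Y` as permutations of `X` -/
def lif [DecidableEq X] (Y : Finset X) (h : ℕ → Equiv.Perm {x // x ∈ Y}) : ℕ → Equiv.Perm X :=
  fun i => Equiv.Perm.ofSubtype (h i)

end defs

/-! ## Patterns -/

/-- a pattern: `H` names, `m` steps, `R a i` the map of the names of block `i` in step `a`, `V` the queried pairs
(block, name) with their times `tm`, `TT ⊆ V` those hit by an arc of a certificate, `idx` the number of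
this arc, `U ⊆ V` the uncovered pairs and `r` the last layer of the block whose arc is not covered -/
structure Pat (X : Type) where
  H : ℕ → Equiv.Perm X
  m : ℕ
  R : ℕ → ℕ → X → X
  V : Finset (ℕ × X)
  tm : ℕ × X → ℕ
  TT : Finset (ℕ × X)
  idx : ℕ × X → ℕ
  U : Finset (ℕ × X)
  r : ℕ × X → ℕ

/-- well-formed patterns -/
structure Pat.OK {X : Type} (P : Pat X) (K' w : ℕ) : Prop where
  blk : ∀ v ∈ P.V, v.1 < K'
  tsub : P.TT ⊆ P.V
  usub : P.U ⊆ P.V
  rlt : ∀ v ∈ P.U, P.r v < w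
  out : ∀ a i p, ¬ ((i, p) ∈ P.V ∧ P.tm (i, p) < a) → P.R a i p = p
  ins : ∀ a i p, (i, p) ∈ P.V → P.tm (i, p) < a →
    (i, P.R a i p) ∈ P.V ∧ P.tm (i, P.R a i p) < a

/-- the layer of the hidden arc before the pair `v` -/
def hid {X : Type} (w : ℕ) (P : Pat X) (v : ℕ × X) : ℕ := v.1 * (w + 1) + P.r v

/-- `ω` follows the pattern `P`, the positions of the pairs in `V \ TT` are given by `xA`, and `κ a` is the
certificate of step `a` -/
structure Ev {X : Type} (w : ℕ) (KK : Set (Finset (Arc X))) (rk : Finset (Arc X) → ℕ)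
    (enc : Finset (Arc X) → Arc X → ℕ) (P : Pat X) (xA : ℕ × X → X)
    (ω : ℕ → Equiv.Perm X) (κ : ℕ → Finset (Arc X)) : Prop where
  fst : ∀ a < P.m, Fst KK rk (tha w (gam w ω P.H) ω (P.R a)) (κ a)
  tt : ∀ v ∈ P.TT, P.tm v < P.m ∧ ∃ e ∈ κ (P.tm v), e.1 = al w v.1 ∧
    e.2.1 = gam w ω P.H (al w v.1) v.2 ∧ enc (κ (P.tm v)) e = P.idx v
  aa : ∀ v ∈ P.V, v ∉ P.TT → gam w ω P.H (al w v.1) v.2 = xA v
  lo : ∀ v ∈ P.U, ∀ a < P.m, nar (gam w ω P.H) (hid w P v) v.2 ∉ κ a
  hi : ∀ v ∈ P.U, ∀ j, hid w P v < j → j < al w v.1 →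
    ∃ a < P.m, nar (gam w ω P.H) j v.2 ∈ κ a

/-- the locations (layer, position) of the arcs of the certificates in fixed layers -/
def Loc {X : Type} (w m : ℕ) (κ : ℕ → Finset (Arc X)) : Set (ℕ × X) :=
  {l | l.1 % (w + 1) ≠ w ∧ ∃ a < m, ∃ e ∈ κ a, e.1 = l.1 ∧ e.2.1 = l.2}

end P28ip
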