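import Mathlib
import Pool.Agent.Lib.P28ip.Defs

/-!
# Module P28ip.Alg : gauges

PROOFS. `gam_tht`, `gam_congr`: induction on `j`. `prd_tht`: induction on `K'`; one block of `w + 1` layers: `prd (tht w γ h)` telescopes, the
`w` fixed layers contribute `γ (..) * (γ ..)⁻¹`, the alive one `γ (al + 1) * h i * (γ al)⁻¹` (first show for all `j`:
`prd (tht w γ h) j = γ j * prd (lft w h) j * (γ 0)⁻¹`, then `prd (lft w h) (K' (w+1)) = prd h K'`).
-/

set_option autoImplicit false

namespace P28ip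

variable {X : Type}

theorem al_mod (w i : ℕ) : al w i % (w + 1) = w := by
  unfold al
  rw [Nat.mul_add_mod']
  exact Nat.mod_eq_of_lt (Nat.lt_succ_self w)

theorem al_div (w i : ℕ) : al w i / (w + 1) = i := by
  unfold al
  rw [Nat.mul_comm, Nat.mul_add_div (Nat.succ_pos w), Nat.div_eq_of_lt (Nat.lt_succ_self w),
    Nat.add_zero]

theorem eq_al {w j : ℕ} (h : j % (w + 1) = w) : j = al w (j / (w + 1)) := by
  unfold al
  conv_lhs => rw [← Nat.div_add_mod' j (w + 1), h]

theorem al_lt_iff (w i K' : ℕ) : al w i < K' * (w + 1) ↔ i < K' := by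
  unfold al
  constructor
  · intro h
    by_contra hc
    have h1 : K' * (w + 1) ≤ i * (w + 1) := Nat.mul_le_mul_right _ (not_lt.mp hc)
    omega
  · intro h
    have h1 : (i + 1) * (w + 1) ≤ K' * (w + 1) := Nat.mul_le_mul_right _ h
    have h2 : (i + 1) * (w + 1) = i * (w + 1) + w + 1 := by ring
    omega

/-- layers inside a block are fixed -/
theorem fixed_of {w i r : ℕ} (hr : r < w) : (i * (w + 1) + r) % (w + 1) ≠ w := by
  rw [Nat.mul_add_mod', Nat.mod_eq_of_lt (by omega)]
  omega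

theorem lft_al (w : ℕ) (h : ℕ → Equiv.Perm X) (i : ℕ) : lft w h (al w i) = h i := by
  unfold lft
  rw [if_pos (al_mod w i), al_div]

theorem lft_fixed {w : ℕ} (h : ℕ → Equiv.Perm X) {j : ℕ} (hj : j % (w + 1) ≠ w) :
    lft w h j = 1 := by
  unfold lft
  rw [if_neg hj]

theorem gam_tht (w : ℕ) {γ : ℕ → Equiv.Perm X} (h0 : γ 0 = 1) (H : ℕ → Equiv.Perm X) (j : ℕ) :
    gam w (tht w γ H) H j = γ j := by
  induction j with
  | zero => exact h0.symm
  | succ j ih =>
    change tht w γ H j * gam w (tht w γ H) H j * (lft w H j)⁻¹ = γ (j + 1)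
    rw [ih]
    unfold tht
    group

theorem gam_congr (w : ℕ) {ω ω' : ℕ → Equiv.Perm X} (H : ℕ → Equiv.Perm X) {j : ℕ}
    (h : ∀ j' < j, ω j' = ω' j') : gam w ω H j = gam w ω' H j := by
  induction j with
  | zero => rfl
  | succ j ih =>
    change ω j * gam w ω H j * (lft w H j)⁻¹ = ω' j * gam w ω' H j * (lft w H j)⁻¹
    rw [h j (Nat.lt_succ_self j), ih fun j' hj' => h j' (Nat.lt_succ_of_lt hj')]

theorem gam_fixed {w : ℕ} (ω H : ℕ → Equiv.Perm X) {j : ℕ} (hj : j % (w + 1) ≠ w) :
    gam w ω H (j + 1) = ω j * gam w ω H j := by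
  change ω j * gam w ω H j * (lft w H j)⁻¹ = ω j * gam w ω H j
  rw [lft_fixed H hj, inv_one, mul_one]

/-- `ω` is the configuration of its gauge -/
theorem tht_gam (w : ℕ) (ω H : ℕ → Equiv.Perm X) (j : ℕ) : tht w (gam w ω H) H j = ω j := by
  change ω j * gam w ω H j * (lft w H j)⁻¹ * lft w H j * (gam w ω H j)⁻¹ = ω j
  group

theorem prd_congr {ω ω' : ℕ → Equiv.Perm X} {j : ℕ} (h : ∀ j' < j, ω j' = ω' j') :
    prd ω j = prd ω' j := by
  induction j with
  | zero => rfl
  | succ j ih =>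
    change ω j * prd ω j = ω' j * prd ω' j
    rw [h j (Nat.lt_succ_self j), ih fun j' hj' => h j' (Nat.lt_succ_of_lt hj')]

namespace AlgAux

theorem prd_tht_all (w : ℕ) (γ h : ℕ → Equiv.Perm X) (j : ℕ) :
    prd (tht w γ h) j = γ j * prd (lft w h) j * (γ 0)⁻¹ := by
  induction j with
  | zero =>
    change (1 : Equiv.Perm X) = γ 0 * 1 * (γ 0)⁻¹
    group
  | succ j ih =>
    change γ (j + 1) * lft w h j * (γ j)⁻¹ * prd (tht w γ h) j =
      γ (j + 1) * (lft w h j * prd (lft w h) j) * (γ 0)⁻¹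
    rw [ih]
    group

theorem prd_lft_block (w i : ℕ) (h : ℕ → Equiv.Perm X) (r : ℕ) (hr : r ≤ w) :
    prd (lft w h) (i * (w + 1) + r) = prd (lft w h) (i * (w + 1)) := by
  induction r with
  | zero => rfl
  | succ r ih =>
    change lft w h (i * (w + 1) + r) * prd (lft w h) (i * (w + 1) + r) = _
    rw [lft_fixed h (fixed_of (Nat.lt_of_succ_le hr)), one_mul, ih (Nat.le_of_succ_le hr)]

theorem prd_lft (w : ℕ) (h : ℕ → Equiv.Perm X) (K' : ℕ) :
    prd (lft w h) (K' * (w + 1)) = prd h K' := by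
  induction K' with
  | zero =>
    rw [Nat.zero_mul]
    rfl
  | succ i ih =>
    have e : (i + 1) * (w + 1) = al w i + 1 := by
      unfold al; ring
    rw [e]
    change lft w h (al w i) * prd (lft w h) (al w i) = h i * prd h i
    rw [lft_al]
    have e2 : prd (lft w h) (al w i) = prd (lft w h) (i * (w + 1)) := prd_lft_block w i h w le_rfl
    rw [e2, ih]

end AlgAux

theorem prd_tht (w K' : ℕ) (γ h : ℕ → Equiv.Perm X) :
    prd (tht w γ h) (K' * (w + 1)) = γ (K' * (w + 1)) * prd h K' * (γ 0)⁻¹ := by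
  rw [AlgAux.prd_tht_all, AlgAux.prd_lft]

/-- for fixed `H` the configuration determines the fixed layers and hence everything -/
theorem tht_inj {K : ℕ} (w : ℕ) (H : ℕ → Equiv.Perm X) {ω ω' : Fin K → Equiv.Perm X}
    (h : ∀ j < K, tht w (prd (ext K ω)) H j = tht w (prd (ext K ω')) H j) : ω = ω' := by
  have key : ∀ j, j ≤ K → prd (ext K ω) j = prd (ext K ω') j := by
    intro j
    induction j with
    | zero => intro _; rfl
    | succ j ih =>
      intro hj
      have e := ih (Nat.le_of_succ_le hj)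
      have h1 := h j (Nat.lt_of_succ_le hj)
      unfold tht at h1
      rw [e] at h1
      exact mul_right_cancel (mul_right_cancel h1)
  funext j
  have h1 : prd (ext K ω) (j + 1) = prd (ext K ω') (j + 1) := key (j + 1) j.isLt
  change ext K ω j * prd (ext K ω) j = ext K ω' j * prd (ext K ω') j at h1
  rw [key j j.isLt.le] at h1
  have h2 := mul_right_cancel h1
  unfold ext at h2
  rw [dif_pos j.isLt, dif_pos j.isLt] at h2
  exact h2

/-- the two descriptions of the configuration after the change of names -/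
theorem tha_eq (w : ℕ) {γ : ℕ → Equiv.Perm X} (H : ℕ → Equiv.Perm X) (R : ℕ → X → X)
    (h' : ℕ → Equiv.Perm X) (hR : ∀ i p, H i (R i p) = h' i p) (j : ℕ) (x : X) :
    tha w γ (tht w γ H) R j x = tht w γ h' j x := by
  unfold tha
  by_cases hj : j % (w + 1) = w
  · rw [if_pos hj]
    unfold tht lft
    simp only [if_pos hj, Equiv.Perm.mul_apply, Equiv.Perm.inv_def, Equiv.symm_apply_apply, hR]
  · rw [if_neg hj]
    unfold tht
    rw [lft_fixed H hj, lft_fixed h' hj]

end P28ip
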