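import Mathlib

/-!
# Module P28ip.Tau : a permutation with small support which agrees with `σ` on `A`

PROOF.  Let `B = A ∪ A.image σ`.  `σ` maps `A` injectively into `B`; extend this to a permutation of `B` (the complements of `A` and of `A.image σ` in
`B` have the same number of elements; e.g. `Equiv.extendSubtype`, or induction on `A` with `τ := τ * swap ..`) and by the identity outside `B`.
-/

set_option autoImplicit false

namespace P28ip

open Finset

theorem perm_extend {X : Type} [Fintype X] [DecidableEq X] (σ : Equiv.Perm X) (A : Finset X) :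
    ∃ τ : Equiv.Perm X, (∀ x ∈ A, τ x = σ x) ∧ (∀ x ∉ A ∪ A.image σ, τ x = x) ∧
      ∀ x ∈ A ∪ A.image σ, τ x ∈ A ∪ A.image σ := by
  classical
  let B : Finset X := A ∪ A.image σ
  let e : {x : {x // x ∈ B} // x.1 ∈ A} ≃ {x : {x // x ∈ B} // x.1 ∈ A.image σ} :=
    { toFun := fun x => ⟨⟨σ x.1.1, mem_union_right _ (mem_image_of_mem σ x.2)⟩,
        mem_image_of_mem σ x.2⟩
      invFun := fun y => ⟨⟨σ.symm y.1.1, mem_union_left _ (by
          obtain ⟨z, hz, hzy⟩ := mem_image.1 y.2
          rw [← hzy, Equiv.symm_apply_apply]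
          exact hz)⟩, by
          obtain ⟨z, hz, hzy⟩ := mem_image.1 y.2
          show σ.symm y.1.1 ∈ A
          rw [← hzy, Equiv.symm_apply_apply]
          exact hz⟩
      left_inv := fun x => by
        apply Subtype.ext
        apply Subtype.ext
        exact Equiv.symm_apply_apply σ x.1.1
      right_inv := fun y => by
        apply Subtype.ext
        apply Subtype.ext
        exact Equiv.apply_symm_apply σ y.1.1 }
  let g : Equiv.Perm {x // x ∈ B} := e.extendSubtype
  refine ⟨Equiv.Perm.ofSubtype g, fun x hx => ?_, fun x hx => ?_, fun x hx => ?_⟩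
  · have hB : x ∈ B := mem_union_left _ hx
    rw [Equiv.Perm.ofSubtype_apply_of_mem g hB]
    have h1 : g ⟨x, hB⟩ = e ⟨⟨x, hB⟩, hx⟩ :=
      Equiv.extendSubtype_apply_of_mem e ⟨x, hB⟩ hx
    rw [h1]
    rfl
  · exact Equiv.Perm.ofSubtype_apply_of_not_mem g hx
  · have hB : x ∈ B := hx
    rw [Equiv.Perm.ofSubtype_apply_of_mem g hB]
    exact (g ⟨x, hB⟩).2

end P28ip
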