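import Mathlib
import Pool.Agent.Lib.P28ip.Alg
import Pool.Agent.Lib.P28ip.Tau

/-!
# Module P28ip.Chain : the canonical procedure

`γ` and `h` are fixed, no certificate of `KK` holds in `tht w γ h`.  `D a` = the pairs (block, name) known before step `a`, `κ a` the first certificate
consistent with the values of `h` on `D a`.

PROOF of `sta_step`.  `D := D m`.  Some `κ ∈ KK` is consistent with `D`; take one, `κ`, of minimal rank (`WellFounded.min` / `Nat.find` on the ranks), with witness `h'`.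
`NA` = the pairs `(i, p) ∉ D m`, `p ∈ Y`, such that `κ` has an arc `e` with `e.1 = al w i`, `e.2.1 = γ (al w i) p`; `|NA| ≤ κ.card ≤ t₀`; `i < K'` by `hKK` and
`al_lt_iff`.  `NA` is nonempty: otherwise every arc of `κ` holds in `tht w γ h` (fixed layers: `h` does not matter; alive layer, source name `p`: if `p ∉ Y` then
`h' i p = p = h i p`, if `p ∈ Y` then `(i, p) ∈ D m`, `h' i p = h i p`), contradiction.  For every block `i` let
`σ i = (h i)⁻¹ * h' i`; it fixes the names `p` with `(i, p) ∈ D m`.  Let `τ i` be `perm_extend (σ i) (NA i)`, `NA i = {p | (i, p) ∈ NA}`.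
`D (m+1) := D m ∪ {(i, p) | p ∈ NA i ∪ (NA i).image (σ i)}`, `ρ' i = ρ i * τ i`.  `NA i ∪ σ (NA i)` is disjoint from `D m` (as `σ i` fixes the names of `D m` and is injective),
so `ρ' = ρ` on `D m` and `ρ' = τ` outside; both preserve their parts.  `σ i` maps `Y` to `Y` (`h`, `h'` do).  New arcs of `κ`: the target of the arc of `(i, p) ∈ NA`
is `γ (al+1) (h' i p)` and `h i (ρ' i p) = h i (σ i p) = h' i p`.  The old condition `new` for `a < m`: `(i, p) ∈ D (a+1) ⊆ D m`, where `ρ' = ρ`.  `TT' = TT ∪ NA`, `D' \ D` has at most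
`2 |NA|` elements, `NA` is disjoint from `TT ⊆ D m`.
PROOF of `chain_main`: iterate: if `TT.card < s` then `(D m).card ≤ 2 (s - 1)`, so by `hD` some certificate is consistent with `D m` and `sta_step` applies; the number
`TT.card` grows by at least one and at most `t₀` in every step; stop when it is `≥ s`.  (Induction on `s - TT.card` starting from the state with `m = 0`, `D = ∅`, `ρ = 1`.)
-/

set_option autoImplicit false

namespace P28ip

open Finset

variable {X : Type} [Fintype X] [DecidableEq X]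

/-- `κ` is consistent with the values of `h` on `D` -/
def Con (w : ℕ) (Y : Finset X) (γ h : ℕ → Equiv.Perm X) (D : Finset (ℕ × X))
    (κ : Finset (Arc X)) : Prop :=
  ∃ h' : ℕ → Equiv.Perm X, Sup Y h' ∧ (∀ v ∈ D, h' v.1 v.2 = h v.1 v.2) ∧
    Hold κ (fn (tht w γ h'))

/-- the state after `m` steps -/
structure Sta (w K' : ℕ) (Y : Finset X) (KK : Set (Finset (Arc X))) (rk : Finset (Arc X) → ℕ)
    (γ h : ℕ → Equiv.Perm X) (m : ℕ) (D : ℕ → Finset (ℕ × X)) (κ : ℕ → Finset (Arc X))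
    (ρ : ℕ → Equiv.Perm X) (TT : Finset (ℕ × X)) : Prop where
  zero : D 0 = ∅
  mono : ∀ a < m, D a ⊆ D (a + 1)
  dom : ∀ v ∈ D m, v.1 < K' ∧ v.2 ∈ Y
  kk : ∀ a < m, κ a ∈ KK
  con : ∀ a < m, Con w Y γ h (D a) (κ a)
  min : ∀ a < m, ∀ κ' ∈ KK, rk κ' < rk (κ a) → ¬ Con w Y γ h (D a) κ'
  pres : ∀ a ≤ m, ∀ i p, (i, p) ∈ D a → (i, ρ i p) ∈ D a
  off : ∀ i p, (i, p) ∉ D m → ρ i p = p
  new : ∀ a < m, ∀ e ∈ κ a, ∀ i p, e.1 = al w i → e.2.1 = γ (al w i) p → p ∈ Y →
    (i, p) ∉ D a → (i, p) ∈ D (a + 1) ∧ e.2.2 = γ (al w i + 1) (h i (ρ i p))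
  tt : ∀ v ∈ TT, ∃ a < m, v ∉ D a ∧ v ∈ D (a + 1) ∧ ∃ e ∈ κ a, e.1 = al w v.1 ∧
    e.2.1 = γ (al w v.1) v.2
  tsub : TT ⊆ D m
  big : m ≤ TT.card
  half : (D m).card ≤ 2 * TT.card

namespace ChainAux

omit [Fintype X] [DecidableEq X] in
theorem inv_app (e : Equiv.Perm X) (x : X) : e⁻¹ (e x) = x := e.symm_apply_apply x

omit [Fintype X] [DecidableEq X] in
theorem app_inv (e : Equiv.Perm X) (x : X) : e (e⁻¹ x) = x := e.apply_symm_apply x

theorem tht_apply (w : ℕ) (γ h : ℕ → Equiv.Perm X) (j : ℕ) (x : X) :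
    tht w γ h j x = γ (j + 1) (lft w h j ((γ j).symm x)) := rfl

theorem tht_al (w : ℕ) (γ h : ℕ → Equiv.Perm X) (i : ℕ) (p : X) :
    tht w γ h (al w i) (γ (al w i) p) = γ (al w i + 1) (h i p) := by
  rw [tht_apply, lft_al, Equiv.symm_apply_apply]

/-- where `h` and `h'` agree the configurations agree -/
theorem tht_agree (w : ℕ) (γ h h' : ℕ → Equiv.Perm X) (j : ℕ) (x : X)
    (ha : ∀ i p, j = al w i → x = γ (al w i) p → h i p = h' i p) :
    tht w γ h j x = tht w γ h' j x := by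
  by_cases hj : j % (w + 1) = w
  · have e := eq_al hj
    set i := j / (w + 1)
    obtain ⟨p, rfl⟩ : ∃ p, x = γ j p := ⟨(γ j).symm x, by simp⟩
    rw [e, tht_al, tht_al, ha i p e (by rw [← e])]
  · rw [tht_apply, tht_apply, lft_fixed h hj, lft_fixed h' hj]

theorem sup_mem {Y : Finset X} {h : ℕ → Equiv.Perm X} (hh : Sup Y h) {i : ℕ} {p : X}
    (hp : p ∈ Y) : h i p ∈ Y := by
  by_contra hcon
  have h1 := hh i _ hcon
  have h2 : h i p = p := (h i).injective h1
  rw [h2] at hcon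
  exact hcon hp

theorem sup_symm_mem {Y : Finset X} {h : ℕ → Equiv.Perm X} (hh : Sup Y h) {i : ℕ} {p : X}
    (hp : p ∈ Y) : (h i)⁻¹ p ∈ Y := by
  by_contra hcon
  have h1 := hh i _ hcon
  rw [app_inv] at h1
  rw [← h1] at hcon
  exact hcon hp

theorem D_mono {m : ℕ} {D : ℕ → Finset (ℕ × X)} (hD : ∀ a < m, D a ⊆ D (a + 1)) {a b : ℕ}
    (hab : a ≤ b) (hb : b ≤ m) : D a ⊆ D b := by
  induction b with
  | zero =>
    have : a = 0 := by omega
    rw [this]
  | succ b ih =>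
    rcases Nat.lt_or_ge a (b + 1) with h | h
    · exact (ih (by omega) (by omega)).trans (hD b (by omega))
    · have : a = b + 1 := by omega
      rw [this]

end ChainAux

open ChainAux

theorem sta_step {w K K' t₀ : ℕ} {Y : Finset X} {KK : Set (Finset (Arc X))}
    {rk : Finset (Arc X) → ℕ} {γ h : ℕ → Equiv.Perm X} (hK : K = K' * (w + 1))
    (hKK : ∀ κ ∈ KK, κ.card ≤ t₀ ∧ ∀ e ∈ κ, e.1 < K) (hh : Sup Y h)
    (hno : ∀ κ ∈ KK, ¬ Hold κ (fn (tht w γ h)))
    {m : ℕ} {D : ℕ → Finset (ℕ × X)} {κ : ℕ → Finset (Arc X)} {ρ : ℕ → Equiv.Perm X}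
    {TT : Finset (ℕ × X)} (hS : Sta w K' Y KK rk γ h m D κ ρ TT)
    (hcon : ∃ κ' ∈ KK, Con w Y γ h (D m) κ') :
    ∃ (D' : ℕ → Finset (ℕ × X)) (κ' : ℕ → Finset (Arc X)) (ρ' : ℕ → Equiv.Perm X)
      (TT' : Finset (ℕ × X)), Sta w K' Y KK rk γ h (m + 1) D' κ' ρ' TT' ∧
        TT.card + 1 ≤ TT'.card ∧ TT'.card ≤ TT.card + t₀ := by
  classical
  -- the first consistent certificate
  have hex : ∃ n, ∃ κ' ∈ KK, Con w Y γ h (D m) κ' ∧ rk κ' = n := by
    obtain ⟨κ', h1, h2⟩ := hcon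
    exact ⟨rk κ', κ', h1, h2, rfl⟩
  obtain ⟨κ0, hk0, hc0, hr0⟩ := Nat.find_spec hex
  have hmin0 : ∀ κ' ∈ KK, rk κ' < rk κ0 → ¬ Con w Y γ h (D m) κ' := by
    intro κ' hκ' hlt hc'
    rw [hr0] at hlt
    exact Nat.find_min hex hlt ⟨κ', hκ', hc', rfl⟩
  obtain ⟨h', hsup', hag, hhold⟩ := id hc0
  -- the new pairs
  obtain ⟨NA, hNA⟩ : ∃ NA : Finset (ℕ × X), NA = ((range K') ×ˢ Y).filter fun v =>
      v ∉ D m ∧ ∃ e ∈ κ0, e.1 = al w v.1 ∧ e.2.1 = γ (al w v.1) v.2 := ⟨_, rfl⟩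
  have memNA : ∀ v, v ∈ NA ↔ (v.1 < K' ∧ v.2 ∈ Y) ∧ v ∉ D m ∧
      ∃ e ∈ κ0, e.1 = al w v.1 ∧ e.2.1 = γ (al w v.1) v.2 := by
    intro v
    rw [hNA, mem_filter, mem_product, mem_range]
  have inNA : ∀ i p, p ∈ Y → (i, p) ∉ D m → ∀ e ∈ κ0, e.1 = al w i → e.2.1 = γ (al w i) p →
      (i, p) ∈ NA := by
    intro i p hp hD e he h1 h2
    rw [memNA]
    refine ⟨⟨?_, hp⟩, hD, e, he, h1, h2⟩
    have h3 := (hKK κ0 hk0).2 e he
    rw [h1, hK, al_lt_iff] at h3
    exact h3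
  have cardNA : NA.card ≤ t₀ := by
    have h1 : NA ⊆ κ0.image fun e => (e.1 / (w + 1), (γ e.1).symm e.2.1) := by
      intro v hv
      obtain ⟨-, -, e, he, h1, h2⟩ := (memNA v).1 hv
      rw [mem_image]
      refine ⟨e, he, ?_⟩
      rw [h1, h2, al_div, Equiv.symm_apply_apply]
    exact (card_le_card h1).trans (card_image_le.trans (hKK κ0 hk0).1)
  have neNA : 1 ≤ NA.card := by
    rw [Nat.one_le_iff_ne_zero, ne_eq, card_eq_zero]
    intro h0
    apply hno κ0 hk0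
    intro e he
    rw [← hhold e he]
    apply tht_agree
    intro i p h1 h2
    by_cases hp : p ∈ Y
    · by_cases hD : (i, p) ∈ D m
      · exact (hag _ hD).symm
      · have := inNA i p hp hD e he h1 h2
        rw [h0] at this
        exact absurd this (notMem_empty _)
    · rw [hh i p hp, hsup' i p hp]
  -- the permutations
  let σ : ℕ → Equiv.Perm X := fun i => (h i)⁻¹ * h' i
  have hσD : ∀ i p, (i, p) ∈ D m → σ i p = p := by
    intro i p hp
    show (h i)⁻¹ (h' i p) = p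
    rw [hag (i, p) hp, inv_app]
  have hσY : ∀ i p, p ∈ Y → σ i p ∈ Y := fun i p hp => sup_symm_mem hh (sup_mem hsup' hp)
  have hσh : ∀ i p, h i (σ i p) = h' i p := by
    intro i p
    show h i ((h i)⁻¹ (h' i p)) = h' i p
    rw [app_inv]
  let NAi : ℕ → Finset X := fun i => (NA.filter fun v => v.1 = i).image Prod.snd
  have memNAi : ∀ i p, p ∈ NAi i ↔ (i, p) ∈ NA := by
    intro i p
    show p ∈ (NA.filter fun v => v.1 = i).image Prod.snd ↔ _
    rw [mem_image]
    constructor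
    · rintro ⟨v, hv, rfl⟩
      rw [mem_filter] at hv
      rw [← hv.2]
      exact hv.1
    · intro hv
      exact ⟨(i, p), mem_filter.2 ⟨hv, rfl⟩, rfl⟩
  choose τ hτ1 hτ2 hτ3 using fun i => perm_extend (σ i) (NAi i)
  obtain ⟨Dn, hDn⟩ : ∃ Dn : Finset (ℕ × X), Dn = D m ∪ (NA ∪ NA.image fun v => (v.1, σ v.1 v.2)) :=
    ⟨_, rfl⟩
  have memDn : ∀ i p, (i, p) ∈ Dn ↔ (i, p) ∈ D m ∨ p ∈ NAi i ∪ (NAi i).image (σ i) := by
    intro i p
    rw [hDn, mem_union, mem_union, mem_union, memNAi, mem_image, mem_image]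
    constructor
    · rintro (h1 | h1 | ⟨v, hv, h1⟩)
      · exact Or.inl h1
      · exact Or.inr (Or.inl h1)
      · rw [Prod.ext_iff] at h1
        obtain ⟨h2, h3⟩ := h1
        simp only at h2 h3
        subst h2
        exact Or.inr (Or.inr ⟨v.2, (memNAi v.1 v.2).2 hv, h3⟩)
    · rintro (h1 | h1 | ⟨q, hq, h1⟩)
      · exact Or.inl h1
      · exact Or.inr (Or.inl h1)
      · refine Or.inr (Or.inr ⟨(i, q), (memNAi i q).1 hq, ?_⟩)
        rw [h1]
  -- the new pairs are not in `D m`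
  have disj : ∀ i p, p ∈ NAi i ∪ (NAi i).image (σ i) → (i, p) ∉ D m := by
    intro i p hp hD
    rcases mem_union.1 hp with h1 | h1
    · rw [memNAi] at h1
      exact ((memNA _).1 h1).2.1 hD
    · obtain ⟨q, hq, rfl⟩ := mem_image.1 h1
      have h2 : σ i (σ i q) = σ i q := hσD i _ hD
      have h3 : σ i q = q := (σ i).injective h2
      rw [h3] at hD
      rw [memNAi] at hq
      exact ((memNA _).1 hq).2.1 hD
  have hτD : ∀ i p, (i, p) ∈ D m → τ i p = p := fun i p hp =>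
    hτ2 i p fun h1 => disj i p h1 hp
  obtain ⟨D', hD'⟩ : ∃ D' : ℕ → Finset (ℕ × X), D' = fun a => if a ≤ m then D a else Dn :=
    ⟨_, rfl⟩
  have D'le : ∀ a ≤ m, D' a = D a := by
    intro a ha
    rw [hD']
    exact if_pos ha
  have D'm : D' (m + 1) = Dn := by
    rw [hD']
    exact if_neg (by omega)
  obtain ⟨κ', hκ'⟩ : ∃ κ' : ℕ → Finset (Arc X), κ' = fun a => if a < m then κ a else κ0 :=
    ⟨_, rfl⟩
  have κ'lt : ∀ a < m, κ' a = κ a := by
    intro a ha
    rw [hκ']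
    exact if_pos ha
  have κ'm : κ' m = κ0 := by
    rw [hκ']
    exact if_neg (lt_irrefl m)
  have hlast : ∀ a < m + 1, a < m ∨ a = m := fun a ha => by omega
  have hmono := hS.mono
  have hρD : ∀ i p, (i, p) ∈ D m → (ρ i * τ i) p = ρ i p := by
    intro i p hp
    rw [Equiv.Perm.mul_apply, hτD i p hp]
  have hρN : ∀ i p, p ∈ NAi i ∪ (NAi i).image (σ i) → (ρ i * τ i) p = τ i p := by
    intro i p hp
    rw [Equiv.Perm.mul_apply]
    exact hS.off i _ (disj i _ (hτ3 i p hp))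
  have hTN : Disjoint TT NA := by
    rw [disjoint_left]
    intro v hv hv'
    exact ((memNA v).1 hv').2.1 (hS.tsub hv)
  have cardT : (TT ∪ NA).card = TT.card + NA.card := card_union_of_disjoint hTN
  refine ⟨D', κ', fun i => ρ i * τ i, TT ∪ NA, ?_, by omega, by omega⟩
  constructor
  · rw [D'le 0 (Nat.zero_le m)]
    exact hS.zero
  · intro a ha
    rcases hlast a ha with h1 | rfl
    · rw [D'le a h1.le, D'le (a + 1) h1]
      exact hmono a h1
    · rw [D'le a le_rfl, D'm, hDn]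
      exact subset_union_left
  · rw [D'm]
    rintro ⟨i, p⟩ hv
    rcases (memDn i p).1 hv with h1 | h1
    · exact hS.dom _ h1
    · rcases mem_union.1 h1 with h2 | h2
      · rw [memNAi] at h2
        exact ((memNA _).1 h2).1
      · obtain ⟨q, hq, rfl⟩ := mem_image.1 h2
        rw [memNAi] at hq
        have h3 := ((memNA _).1 hq).1
        exact ⟨h3.1, hσY i q h3.2⟩
  · intro a ha
    rcases hlast a ha with h1 | rfl
    · rw [κ'lt a h1]
      exact hS.kk a h1
    · rw [κ'm]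
      exact hk0
  · intro a ha
    rcases hlast a ha with h1 | rfl
    · rw [κ'lt a h1, D'le a h1.le]
      exact hS.con a h1
    · rw [κ'm, D'le a le_rfl]
      exact hc0
  · intro a ha
    rcases hlast a ha with h1 | rfl
    · rw [κ'lt a h1, D'le a h1.le]
      exact hS.min a h1
    · rw [κ'm, D'le a le_rfl]
      exact hmin0
  · intro a ha i p hp
    rcases Nat.lt_or_ge m a with h1 | h1
    · have e : a = m + 1 := by omega
      subst e
      rw [D'm] at hp ⊢
      rcases (memDn i p).1 hp with h2 | h2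
      · rw [memDn, hρD i p h2]
        exact Or.inl (hS.pres m le_rfl i p h2)
      · rw [memDn, hρN i p h2]
        exact Or.inr (hτ3 i p h2)
    · rw [D'le a h1] at hp ⊢
      rw [hρD i p (D_mono hmono h1 le_rfl hp)]
      exact hS.pres a h1 i p hp
  · intro i p hp
    rw [D'm, memDn, not_or] at hp
    show (ρ i * τ i) p = p
    rw [Equiv.Perm.mul_apply, hτ2 i p hp.2]
    exact hS.off i p hp.1
  · intro a ha e he i p h1 h2 h3 h4
    rcases hlast a ha with h5 | rfl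
    · rw [κ'lt a h5] at he
      rw [D'le a h5.le] at h4
      rw [D'le (a + 1) h5]
      obtain ⟨h6, h7⟩ := hS.new a h5 e he i p h1 h2 h3 h4
      refine ⟨h6, ?_⟩
      rw [hρD i p (D_mono hmono (Nat.succ_le_of_lt h5) le_rfl h6)]
      exact h7
    · rw [κ'm] at he
      rw [D'le a le_rfl] at h4
      rw [D'm]
      have h5 := inNA i p h3 h4 e he h1 h2
      have h6 : p ∈ NAi i := (memNAi i p).2 h5
      refine ⟨(memDn i p).2 (Or.inr (mem_union_left _ h6)), ?_⟩
      rw [hρN i p (mem_union_left _ h6), hτ1 i p h6, hσh]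
      have h7 := hhold e he
      rw [h1, h2] at h7
      rw [← h7]
      exact tht_al w γ h' i p
  · intro v hv
    rcases mem_union.1 hv with h1 | h1
    · obtain ⟨a, ha, h2, h3, e, he, h4⟩ := hS.tt v h1
      refine ⟨a, by omega, ?_, ?_, e, ?_, h4⟩
      · rw [D'le a ha.le]; exact h2
      · rw [D'le (a + 1) ha]; exact h3
      · rw [κ'lt a ha]; exact he
    · obtain ⟨-, h2, e, he, h4⟩ := (memNA v).1 h1
      refine ⟨m, by omega, ?_, ?_, e, ?_, h4⟩
      · rw [D'le m le_rfl]; exact h2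
      · rw [D'm, hDn]
        exact mem_union_right _ (mem_union_left _ h1)
      · rw [κ'm]; exact he
  · rw [D'm, hDn]
    exact union_subset_union hS.tsub subset_union_left
  · have := hS.big
    omega
  · have h1 := hS.half
    have h2 : Dn.card ≤ (D m).card + (NA.card + NA.card) := by
      rw [hDn]
      refine (card_union_le _ _).trans (Nat.add_le_add_left ?_ _)
      exact (card_union_le _ _).trans (Nat.add_le_add_left card_image_le _)
    rw [D'm]
    omega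

theorem chain_main {w K K' t₀ s : ℕ} {Y : Finset X} {KK : Set (Finset (Arc X))}
    {rk : Finset (Arc X) → ℕ} {γ h : ℕ → Equiv.Perm X} (hK : K = K' * (w + 1))
    (hKK : ∀ κ ∈ KK, κ.card ≤ t₀ ∧ ∀ e ∈ κ, e.1 < K) (hh : Sup Y h)
    (hno : ∀ κ ∈ KK, ¬ Hold κ (fn (tht w γ h))) (hs : 1 ≤ s)
    (hD : ∀ D : Finset (ℕ × X), D.card ≤ 2 * (s - 1) → (∀ v ∈ D, v.1 < K' ∧ v.2 ∈ Y) →
      ∃ κ' ∈ KK, Con w Y γ h D κ') :
    ∃ (m : ℕ) (D : ℕ → Finset (ℕ × X)) (κ : ℕ → Finset (Arc X)) (ρ : ℕ → Equiv.Perm X)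
      (TT : Finset (ℕ × X)), Sta w K' Y KK rk γ h m D κ ρ TT ∧ s ≤ TT.card ∧
        TT.card ≤ s - 1 + t₀ := by
  have key : ∀ n : ℕ, ∀ (m : ℕ) (D : ℕ → Finset (ℕ × X)) (κ : ℕ → Finset (Arc X))
      (ρ : ℕ → Equiv.Perm X) (TT : Finset (ℕ × X)), Sta w K' Y KK rk γ h m D κ ρ TT →
      s ≤ TT.card + n → TT.card ≤ s - 1 + t₀ →
      ∃ (m : ℕ) (D : ℕ → Finset (ℕ × X)) (κ : ℕ → Finset (Arc X)) (ρ : ℕ → Equiv.Perm X)
        (TT : Finset (ℕ × X)), Sta w K' Y KK rk γ h m D κ ρ TT ∧ s ≤ TT.card ∧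
        TT.card ≤ s - 1 + t₀ := by
    intro n
    induction n with
    | zero =>
      intro m D κ ρ TT hS h1 h2
      exact ⟨m, D, κ, ρ, TT, hS, h1, h2⟩
    | succ n ih =>
      intro m D κ ρ TT hS h1 h2
      rcases Nat.lt_or_ge TT.card s with h3 | h3
      · have h4 := hS.half
        obtain ⟨D', κ', ρ', TT', hS', h5, h6⟩ := sta_step hK hKK hh hno hS
          (hD (D m) (by omega) hS.dom)
        exact ih (m + 1) D' κ' ρ' TT' hS' (by omega) (by omega)
      · exact ⟨m, D, κ, ρ, TT, hS, h3, h2⟩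
  refine key s 0 (fun _ => ∅) (fun _ => ∅) (fun _ => 1) ∅ ?_ (by simp) (by simp)
  constructor
  · rfl
  · intro a ha; exact absurd ha (Nat.not_lt_zero a)
  · intro v hv; exact absurd hv (notMem_empty v)
  · intro a ha; exact absurd ha (Nat.not_lt_zero a)
  · intro a ha; exact absurd ha (Nat.not_lt_zero a)
  · intro a ha; exact absurd ha (Nat.not_lt_zero a)
  · intro a _ i p hp; exact absurd hp (notMem_empty _)
  · intro i p _; rfl
  · intro a ha; exact absurd ha (Nat.not_lt_zero a)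
  · intro v hv; exact absurd hv (notMem_empty v)
  · exact Subset.refl _
  · simp
  · simp

end P28ip
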