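import Mathlib
import Pool.Agent.Lib.P28ip.Alg

/-!
# Module P28ip.Cov : covered pairs

PROOF.  Let `A` be the union of the `κ a`, `a < m`, `|A| ≤ t₀ m`.  A pair `v = (i, p)` is covered if `nar γ (i (w+1) + r) p ∈ A` for all `r < w`; `U` = the uncovered
pairs of `V`, `r v` = the largest `r < w` with `nar .. ∉ A` (`Nat.findGreatest` or a maximum).  For `hid < j < al w i` write
`j = i (w+1) + r'`, `r v < r' < w`.  Covered pairs: the map `(v, r) ↦ nar γ (v.1 (w+1) + r) v.2`, `v` covered, `r < w`, is injective into `A` (the layer `i (w+1) + r` determines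
`i` and `r`, and `γ j` is injective), so `|V \ U| w ≤ |A|`.
-/

set_option autoImplicit false

namespace P28ip

open Finset

theorem cover_count {X : Type} [DecidableEq X] (w t₀ m : ℕ) (γ : ℕ → Equiv.Perm X)
    (V : Finset (ℕ × X)) (κ : ℕ → Finset (Arc X)) (hκ : ∀ a < m, (κ a).card ≤ t₀) :
    ∃ (U : Finset (ℕ × X)) (r : ℕ × X → ℕ), U ⊆ V ∧
      (∀ v ∈ U, r v < w ∧ (∀ a < m, nar γ (v.1 * (w + 1) + r v) v.2 ∉ κ a) ∧
        ∀ j, v.1 * (w + 1) + r v < j → j < al w v.1 → ∃ a < m, nar γ j v.2 ∈ κ a) ∧
      (V \ U).card * w ≤ t₀ * m := by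
  classical
  set A : Finset (Arc X) := (Finset.range m).biUnion κ with hA
  have hAc : A.card ≤ t₀ * m := by
    calc A.card ≤ ∑ a ∈ Finset.range m, (κ a).card := Finset.card_biUnion_le
      _ ≤ ∑ _a ∈ Finset.range m, t₀ :=
          Finset.sum_le_sum fun a ha => hκ a (Finset.mem_range.1 ha)
      _ = t₀ * m := by simp [mul_comm]
  have hmem : ∀ e : Arc X, e ∈ A ↔ ∃ a < m, e ∈ κ a := by
    intro e
    simp [hA]
  -- the bad positions of a pair
  let S : ℕ × X → Finset ℕ := fun v =>
    (Finset.range w).filter fun r => nar γ (v.1 * (w + 1) + r) v.2 ∉ A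
  refine ⟨V.filter fun v => (S v).Nonempty, fun v => (S v).sup id, Finset.filter_subset _ _,
    ?_, ?_⟩
  · intro v hv
    have hne : (S v).Nonempty := (Finset.mem_filter.1 hv).2
    have hmx : (S v).sup id ∈ S v := by
      obtain ⟨r, hr, hr'⟩ := Finset.exists_mem_eq_sup (S v) hne id
      rw [hr']
      exact hr
    have h1 := Finset.mem_filter.1 hmx
    refine ⟨Finset.mem_range.1 h1.1, ?_, ?_⟩
    · intro a ha hm
      exact h1.2 ((hmem _).2 ⟨a, ha, hm⟩)
    · intro j hj hj2
      rw [← hmem]
      by_contra hn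
      obtain ⟨r', rfl⟩ : ∃ r', j = v.1 * (w + 1) + r' := ⟨j - v.1 * (w + 1), by omega⟩
      have hr1 : (S v).sup id < r' := by
        have hj' : v.1 * (w + 1) + (S v).sup id < v.1 * (w + 1) + r' := hj
        omega
      have hr2 : r' < w := by
        unfold al at hj2
        omega
      have hS : r' ∈ S v := Finset.mem_filter.2 ⟨Finset.mem_range.2 hr2, hn⟩
      have := Finset.le_sup (f := id) hS
      simp only [id] at this
      omega
  · refine le_trans ?_ hAc
    have hprod : (V \ V.filter fun v => (S v).Nonempty).card * w =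
        ((V \ V.filter fun v => (S v).Nonempty) ×ˢ Finset.range w).card := by
      rw [Finset.card_product, Finset.card_range]
    rw [hprod]
    refine Finset.card_le_card_of_injOn
      (fun x : (ℕ × X) × ℕ => nar γ (x.1.1 * (w + 1) + x.2) x.1.2) ?_ ?_
    · rintro ⟨v, r⟩ hx
      have hx' := Finset.mem_product.1 (Finset.mem_coe.1 hx)
      simp only [Finset.mem_sdiff, Finset.mem_filter, not_and, Finset.mem_range] at hx'
      have hne := hx'.1.2 hx'.1.1
      by_contra hn
      exact hne ⟨r, Finset.mem_filter.2 ⟨Finset.mem_range.2 hx'.2, fun h => hn (Finset.mem_coe.2 h)⟩⟩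
    · rintro ⟨⟨i, p⟩, r⟩ hx ⟨⟨i', p'⟩, r'⟩ hx' he
      have hr : r < w := Finset.mem_range.1 (Finset.mem_product.1 (Finset.mem_coe.1 hx)).2
      have hr' : r' < w := Finset.mem_range.1 (Finset.mem_product.1 (Finset.mem_coe.1 hx')).2
      simp only [nar, Prod.mk.injEq] at he
      obtain ⟨he1, he2, -⟩ := he
      have hi : i = i' := by
        have h1 : (i * (w + 1) + r) / (w + 1) = i := by
          rw [mul_comm, Nat.mul_add_div (Nat.succ_pos w), Nat.div_eq_of_lt (by omega), add_zero]
        have h2 : (i' * (w + 1) + r') / (w + 1) = i' := by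
          rw [mul_comm, Nat.mul_add_div (Nat.succ_pos w), Nat.div_eq_of_lt (by omega), add_zero]
        rw [← h1, ← h2, he1]
      subst hi
      have hrr : r = r' := by omega
      subst hrr
      have hp : p = p' := (γ _).injective he2
      subst hp
      rfl

end P28ip
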