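import Mathlib
import Pool.Agent.Lib.P28ip.Chain
import Pool.Agent.Lib.P28ip.Cov

/-!
# Module P28ip.Code : few labels describe the pattern of a state

A label of the pair `v = (i, p)`: the name `h i p`, the name `H i p`, the time, the number of the arc (pairs in `TT`), the last
uncovered layer (pairs in `U`).

PROOF of `code`.  `γ = prd (ext K ω0)`, `γ 0 = 1`.  Let `U, r` be given by `cover_count` for `V = D m`, the state's `κ` (`κ a ∈ KK`).  For `v ∈ D m` the time is the
`a < m` with `v ∉ D a`, `v ∈ D (a + 1)` (`mono`, `zero`); `v ∈ D a ↔ time v < a` for `a ≤ m`.  Labels: `(h i p, h i (ρ i p), time, idx, r)`, `idx = some (enc (κ a) e)` for the arc `e` of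
`Sta.tt` if `v ∈ TT`.  All `a v`, `v ∉ D m`, are `none`.  `|TT| ≤ s - 1 + t₀ =: M₁`, `m ≤ |TT|`, `|D m| ≤ 2 M₁`.  The permutations `h i * ρ i` move only points of `Y`
(`off`, `dom`, `hh`) and have the prescribed values, so `H = (patOf a m).H` is a choice with `Sup Y H`, `H i p = h i (ρ i p)` for `(i, p) ∈ D m`.
`V = D m`, `TT`, `U` of the pattern are those of the state.  `R a' i p = (H i)⁻¹ (h i p)` for `(i, p) ∈ D (min a' m)`: this is `(ρ i)⁻¹ p`, which is again in
`D (min a' m)` (`pres`, a permutation which maps a finite set into itself maps it onto itself), else `p`.  Hence `OK`; `2 |V \ U| ≤ |TT|` because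
`|V \ U| w ≤ t₀ m ≤ t₀ |TT|` and `2 t₀ ≤ w`, `0 < w` (if `t₀ = 0` then the left side is `0`).
`Ev.fst` for `a < m`: `R a i` is a permutation of `X` (injective); put `h'' i = H i * R a i`.  `Sup Y h''`, `h'' = h` on `D a`, `h'' i p = H i p` for `(i,p) ∉ D a`.  With
`ω = ext K (tht w γ H)` one has `gam w ω H j = γ j` for `j ≤ K` (`gam_congr`, `gam_tht`) and by `tha_eq` `tha w (gam w ω H) ω (R a) j x = tht w γ h'' j x` for `j < K`.
`κ a` holds: let `h'` be the witness of `Sta.con`; fixed layers: no `h`; alive layer `al w i`, source `γ (al w i) p`: `p ∉ Y`: both fix `p`; `(i, p) ∈ D a`: both are `h i p`;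
otherwise `Sta.new`: target `γ (al+1) (h i (ρ i p)) = γ (al+1) (H i p)`.  A `κ' ∈ KK` of smaller rank does not hold, because `h''` would be a witness of `Con`.
`tt, aa, lo, hi`: with `xA v = γ (al w v.1) v.2` and `gam w ω H = γ` up to `K` (`al_lt_iff`).
-/

set_option autoImplicit false

namespace P28ip

open Finset

variable {X : Type} [Fintype X] [DecidableEq X]

/-- labels -/
abbrev Att (Y : Finset X) (m₁ t₁ w₁ : ℕ) : Type :=
  {x // x ∈ Y} × {x // x ∈ Y} × Fin m₁ × Option (Fin t₁) × Option (Fin w₁)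

/-- the label of `v` -/
def lab {Y : Finset X} {K' m₁ t₁ w₁ : ℕ} (a : Fin K' × {x // x ∈ Y} → Option (Att Y m₁ t₁ w₁))
    (v : ℕ × X) : Option (Att Y m₁ t₁ w₁) :=
  if h : v.1 < K' ∧ v.2 ∈ Y then a (⟨v.1, h.1⟩, ⟨v.2, h.2⟩) else none

open scoped Classical in
/-- a permutation with the prescribed values, if there is one -/
noncomputable def labH {Y : Finset X} {K' m₁ t₁ w₁ : ℕ}
    (a : Fin K' × {x // x ∈ Y} → Option (Att Y m₁ t₁ w₁)) : ℕ → Equiv.Perm X :=
  if h : ∃ H : ℕ → Equiv.Perm X, Sup Y H ∧ ∀ v b, lab a v = some b → H v.1 v.2 = b.2.1 then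
    h.choose else fun _ => 1

/-- the pattern of a family of labels -/
noncomputable def patOf {Y : Finset X} {K' m₁ t₁ w₁ : ℕ}
    (a : Fin K' × {x // x ∈ Y} → Option (Att Y m₁ t₁ w₁)) (m : ℕ) : Pat X where
  H := labH a
  m := m
  R := fun a' i p =>
    match lab a (i, p) with
    | none => p
    | some b => if (b.2.2.1 : ℕ) < a' then (labH a i).symm b.1 else p
  V := (univ.filter fun j => a j ≠ none).image fun j => ((j.1 : ℕ), (j.2 : X))
  tm := fun v => match lab a v with
    | none => 0
    | some b => b.2.2.1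
  TT := ((univ.filter fun j => a j ≠ none).image fun j => ((j.1 : ℕ), (j.2 : X))).filter
    fun v => ((lab a v).bind fun b => b.2.2.2.1) ≠ none
  idx := fun v => match (lab a v).bind fun b => b.2.2.2.1 with
    | none => 0
    | some i => i
  U := ((univ.filter fun j => a j ≠ none).image fun j => ((j.1 : ℕ), (j.2 : X))).filter
    fun v => ((lab a v).bind fun b => b.2.2.2.2) ≠ none
  r := fun v => match (lab a v).bind fun b => b.2.2.2.2 with
    | none => 0
    | some i => i

namespace CodeAux

omit [Fintype X] [DecidableEq X] in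
theorem sup_mem {Y : Finset X} {h : ℕ → Equiv.Perm X} (hh : Sup Y h) (i : ℕ) {p : X}
    (hp : p ∈ Y) : h i p ∈ Y := by
  by_contra hn
  have h1 := hh i (h i p) hn
  have h2 := (h i).injective h1
  exact hn (by rw [h2]; exact hp)

/-- the time of a pair -/
noncomputable def tim (D : ℕ → Finset (ℕ × X)) (v : ℕ × X) : ℕ := by
  classical
  exact if h : ∃ a, v ∈ D (a + 1) then Nat.find h else 0

omit [Fintype X] [DecidableEq X] in
theorem mono_of {m : ℕ} {D : ℕ → Finset (ℕ × X)} (hmono : ∀ a < m, D a ⊆ D (a + 1)) {a b : ℕ}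
    (hab : a ≤ b) (hb : b ≤ m) : D a ⊆ D b := by
  induction b, hab using Nat.le_induction with
  | base => exact fun _ h => h
  | succ b _ ih => exact fun x hx => hmono b (by omega) (ih (by omega) hx)

omit [Fintype X] in
theorem tim_iff {m : ℕ} {D : ℕ → Finset (ℕ × X)} (h0 : D 0 = ∅)
    (hmono : ∀ a < m, D a ⊆ D (a + 1)) {a : ℕ} (ha : a ≤ m) {v : ℕ × X} (hv : v ∈ D m) :
    v ∈ D a ↔ tim D v < a := by
  classical
  have hm : m ≠ 0 := by
    rintro rfl
    rw [h0] at hv
    simp at hv
  have hex : ∃ a, v ∈ D (a + 1) := ⟨m - 1, by rwa [Nat.sub_add_cancel (by omega)]⟩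
  have ht : tim D v = Nat.find hex := by simp only [tim, dif_pos hex]
  rw [ht]
  constructor
  · intro h
    rcases a with _ | a
    · rw [h0] at h
      simp at h
    · exact Nat.lt_succ_of_le (Nat.find_min' hex h)
  · intro h
    exact mono_of hmono (show Nat.find hex + 1 ≤ a by omega) ha (Nat.find_spec hex)

end CodeAux

theorem code {w K K' t₀ s m : ℕ} {Y : Finset X} {KK : Set (Finset (Arc X))}
    {rk : Finset (Arc X) → ℕ} {enc : Finset (Arc X) → Arc X → ℕ} {ω0 : Fin K → Equiv.Perm X}
    {h : ℕ → Equiv.Perm X} {D : ℕ → Finset (ℕ × X)} {κ : ℕ → Finset (Arc X)}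
    {ρ : ℕ → Equiv.Perm X} {TT : Finset (ℕ × X)}
    (hK : K = K' * (w + 1)) (hw : 2 * t₀ ≤ w) (hw0 : 1 ≤ w)
    (hKK : ∀ κ ∈ KK, κ.card ≤ t₀ ∧ ∀ e ∈ κ, e.1 < K)
    (henc : ∀ κ ∈ KK, ∀ e ∈ κ, enc κ e < t₀) (hh : Sup Y h)
    (hS : Sta w K' Y KK rk (prd (ext K ω0)) h m D κ ρ TT) (hs1 : 1 ≤ s) (hs : s ≤ TT.card)
    (hs2 : TT.card ≤ s - 1 + t₀) :
    m ≤ s - 1 + t₀ ∧ ∃ a : Fin K' × {x // x ∈ Y} → Option (Att Y (s - 1 + t₀) t₀ w),
      (univ.filter fun j => a j ≠ none).card ≤ 2 * (s - 1 + t₀) ∧ (patOf a m).OK K' w ∧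
      s ≤ (patOf a m).TT.card ∧
      2 * ((patOf a m).V \ (patOf a m).U).card ≤ (patOf a m).TT.card ∧
      ∃ xA κ', Ev w KK rk enc (patOf a m) xA
        (ext K fun j => tht w (prd (ext K ω0)) (patOf a m).H j) κ' := by
  classical
  set γ := prd (ext K ω0) with hγ
  have hmT := hS.big
  have hm : m ≤ s - 1 + t₀ := le_trans hmT hs2
  refine ⟨hm, ?_⟩
  obtain ⟨U0, r0, hU0, hr0, hcov⟩ :=
    cover_count w t₀ m γ (D m) κ (fun a ha => (hKK _ (hS.kk a ha)).1)
  have hDa : ∀ a ≤ m, D a ⊆ D m := fun a ha => CodeAux.mono_of hS.mono ha le_rfl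
  have hT : ∀ a ≤ m, ∀ v ∈ D m, (v ∈ D a ↔ CodeAux.tim D v < a) :=
    fun a ha v hv => CodeAux.tim_iff hS.zero hS.mono ha hv
  have hTm : ∀ v ∈ D m, CodeAux.tim D v < m := fun v hv => (hT m le_rfl v hv).1 hv
  have htt : ∀ v ∈ TT, ∃ e ∈ κ (CodeAux.tim D v), e.1 = al w v.1 ∧ e.2.1 = γ (al w v.1) v.2 := by
    intro v hv
    obtain ⟨a, ha, h1, h2, h3⟩ := hS.tt v hv
    have hvm := hS.tsub hv
    have h4 : CodeAux.tim D v = a := by
      have h5 := (hT (a + 1) (by omega) v hvm).1 h2
      have h6 : ¬ CodeAux.tim D v < a := fun h => h1 ((hT a (by omega) v hvm).2 h)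
      omega
    rw [h4]
    exact h3
  have htt' : ∀ v, ∃ e : Arc X, v ∈ TT → e ∈ κ (CodeAux.tim D v) ∧ e.1 = al w v.1 ∧
      e.2.1 = γ (al w v.1) v.2 := by
    intro v
    by_cases hv : v ∈ TT
    · obtain ⟨e, h1, h2, h3⟩ := htt v hv
      exact ⟨e, fun _ => ⟨h1, h2, h3⟩⟩
    · exact ⟨(0, v.2, v.2), fun h => absurd h hv⟩
  choose ee hee using htt'
  have hhY : ∀ v ∈ D m, h v.1 v.2 ∈ Y := fun v hv => CodeAux.sup_mem hh _ (hS.dom v hv).2
  have hHY : ∀ v ∈ D m, h v.1 (ρ v.1 v.2) ∈ Y := by
    intro v hv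
    exact CodeAux.sup_mem hh _ (hS.dom _ (hS.pres m le_rfl v.1 v.2 hv)).2
  have hTM : ∀ v ∈ D m, CodeAux.tim D v < s - 1 + t₀ := fun v hv => lt_of_lt_of_le (hTm v hv) hm
  have hidx : ∀ v ∈ TT, enc (κ (CodeAux.tim D v)) (ee v) < t₀ := by
    intro v hv
    exact henc _ (hS.kk _ (hTm v (hS.tsub hv))) _ (hee v hv).1
  have hr0' : ∀ v ∈ U0, r0 v < w := fun v hv => (hr0 v hv).1
  -- the labels
  let A : ∀ v : ℕ × X, v ∈ D m → Att Y (s - 1 + t₀) t₀ w := fun v hv =>
    (⟨h v.1 v.2, hhY v hv⟩, ⟨h v.1 (ρ v.1 v.2), hHY v hv⟩, ⟨CodeAux.tim D v, hTM v hv⟩,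
      if h1 : v ∈ TT then some ⟨enc (κ (CodeAux.tim D v)) (ee v), hidx v h1⟩ else none,
      if h1 : v ∈ U0 then some ⟨r0 v, hr0' v h1⟩ else none)
  let a : Fin K' × {x // x ∈ Y} → Option (Att Y (s - 1 + t₀) t₀ w) := fun j =>
    if hj : ((j.1 : ℕ), (j.2 : X)) ∈ D m then some (A _ hj) else none
  have hlab1 : ∀ v, ∀ hv : v ∈ D m, lab a v = some (A v hv) := by
    intro v hv
    have h1 := hS.dom v hv
    simp only [lab, dif_pos h1, a]
    rw [dif_pos (show ((v.1 : ℕ), (v.2 : X)) ∈ D m from hv)]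
  have hlab0 : ∀ v, v ∉ D m → lab a v = none := by
    intro v hv
    simp only [lab, a]
    by_cases h1 : v.1 < K' ∧ v.2 ∈ Y
    · rw [dif_pos h1]
      rw [dif_neg (show ¬ ((v.1 : ℕ), (v.2 : X)) ∈ D m from hv)]
    · rw [dif_neg h1]
  have hV : (patOf a m).V = D m := by
    ext v
    simp only [patOf, mem_image, mem_filter, mem_univ, true_and, a]
    constructor
    · rintro ⟨j, hj, rfl⟩
      by_contra hn
      exact hj (dif_neg hn)
    · intro hv
      refine ⟨(⟨v.1, (hS.dom v hv).1⟩, ⟨v.2, (hS.dom v hv).2⟩), ?_, rfl⟩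
      rw [dif_pos (show ((v.1 : ℕ), (v.2 : X)) ∈ D m from hv)]
      simp
  have hTTe : (patOf a m).TT = TT := by
    have h1 : (patOf a m).TT = (patOf a m).V.filter
        fun v => ((lab a v).bind fun b => b.2.2.2.1) ≠ none := rfl
    rw [h1, hV]
    ext v
    simp only [mem_filter]
    constructor
    · rintro ⟨hv, h2⟩
      rw [hlab1 v hv] at h2
      by_contra hn
      apply h2
      simp only [Option.bind_some, A]
      rw [dif_neg hn]
    · intro hv
      refine ⟨hS.tsub hv, ?_⟩
      rw [hlab1 v (hS.tsub hv)]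
      simp only [Option.bind_some, A]
      rw [dif_pos hv]
      simp
  have hUe : (patOf a m).U = U0 := by
    have h1 : (patOf a m).U = (patOf a m).V.filter
        fun v => ((lab a v).bind fun b => b.2.2.2.2) ≠ none := rfl
    rw [h1, hV]
    ext v
    simp only [mem_filter]
    constructor
    · rintro ⟨hv, h2⟩
      rw [hlab1 v hv] at h2
      by_contra hn
      apply h2
      simp only [Option.bind_some, A]
      rw [dif_neg hn]
    · intro hv
      refine ⟨hU0 hv, ?_⟩
      rw [hlab1 v (hU0 hv)]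
      simp only [Option.bind_some, A]
      rw [dif_pos hv]
      simp
  have htm : ∀ v ∈ D m, (patOf a m).tm v = CodeAux.tim D v := by
    intro v hv
    simp only [patOf]
    rw [hlab1 v hv]
  have hix : ∀ v ∈ TT, (patOf a m).idx v = enc (κ (CodeAux.tim D v)) (ee v) := by
    intro v hv
    simp only [patOf]
    rw [hlab1 v (hS.tsub hv)]
    simp only [Option.bind_some, A]
    rw [dif_pos hv]
  have hrr : ∀ v ∈ U0, (patOf a m).r v = r0 v := by
    intro v hv
    simp only [patOf]
    rw [hlab1 v (hU0 hv)]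
    simp only [Option.bind_some, A]
    rw [dif_pos hv]
  -- the permutations `H`
  have hex : ∃ H : ℕ → Equiv.Perm X, Sup Y H ∧ ∀ v b, lab a v = some b → H v.1 v.2 = b.2.1 := by
    refine ⟨fun i => h i * ρ i, ?_, ?_⟩
    · intro i z hz
      have h1 : ρ i z = z := hS.off i z (fun hc => hz (hS.dom _ hc).2)
      simp only [Equiv.Perm.mul_apply, h1]
      exact hh i z hz
    · intro v b hb
      by_cases hv : v ∈ D m
      · rw [hlab1 v hv] at hb
        rw [← Option.some.inj hb]
        simp only [Equiv.Perm.mul_apply, A]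
      · rw [hlab0 v hv] at hb
        simp at hb
  have hHdef : labH a = hex.choose := by
    simp only [labH]
    rw [dif_pos hex]
  have hHsup : Sup Y (labH a) := by
    rw [hHdef]
    exact hex.choose_spec.1
  have hHval : ∀ i p, (i, p) ∈ D m → labH a i p = h i (ρ i p) := by
    intro i p hv
    have := hex.choose_spec.2 (i, p) _ (hlab1 (i, p) hv)
    rw [hHdef]
    exact this
  set H := labH a with hHset
  have hPH : (patOf a m).H = H := rfl
  have hPm : (patOf a m).m = m := rfl
  have hRin : ∀ a' i p, (i, p) ∈ D m → CodeAux.tim D (i, p) < a' →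
      (patOf a m).R a' i p = (H i).symm (h i p) := by
    intro a' i p hv ht
    simp only [patOf]
    rw [hlab1 (i, p) hv]
    simp only [A]
    rw [if_pos ht]
  have hRout : ∀ a' i p, ¬ ((i, p) ∈ D m ∧ CodeAux.tim D (i, p) < a') →
      (patOf a m).R a' i p = p := by
    intro a' i p hn
    simp only [patOf]
    by_cases hv : (i, p) ∈ D m
    · rw [hlab1 (i, p) hv]
      simp only [A]
      rw [if_neg (fun h => hn ⟨hv, h⟩)]
    · rw [hlab0 (i, p) hv]
  -- `H⁻¹ h` preserves the slices
  have hslice : ∀ a' i p, (i, p) ∈ D m → CodeAux.tim D (i, p) < a' →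
      (i, (H i).symm (h i p)) ∈ D m ∧ CodeAux.tim D (i, (H i).symm (h i p)) < a' := by
    intro a' i p hv ht
    have hlem : ∀ b ≤ m, (i, p) ∈ D b → (i, (H i).symm (h i p)) ∈ D b := by
      intro b hb hvb
      let S : Finset X := (univ : Finset X).filter fun q => (i, q) ∈ D b
      have hSmem : ∀ q, q ∈ S ↔ (i, q) ∈ D b := by intro q; simp [S]
      have hsub : S.image (ρ i) ⊆ S := by
        intro q hq
        obtain ⟨q', hq', rfl⟩ := mem_image.1 hq
        exact (hSmem _).2 (hS.pres b hb i q' ((hSmem _).1 hq'))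
      have heq : S.image (ρ i) = S :=
        eq_of_subset_of_card_le hsub (by rw [card_image_of_injective _ (ρ i).injective])
      have hp : p ∈ S.image (ρ i) := by
        rw [heq]
        exact (hSmem _).2 hvb
      obtain ⟨p', hp', hpp⟩ := mem_image.1 hp
      have hp'D : (i, p') ∈ D b := (hSmem _).1 hp'
      have h1 : H i p' = h i p := by
        rw [hHval i p' (hDa b hb hp'D), hpp]
      rw [← h1]
      simpa using hp'D
    have h1 := hlem m le_rfl hv
    refine ⟨h1, ?_⟩
    have ht' := hTm (i, p) hv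
    have hb : min a' m ≤ m := min_le_right _ _
    have h2 : (i, p) ∈ D (min a' m) := (hT _ hb _ hv).2 (by omega)
    have h3 := (hT _ hb _ h1).1 (hlem _ hb h2)
    omega
  refine ⟨a, ?_, ?_, ?_, ?_, ?_⟩
  · -- number of labels
    have h1 : (univ.filter fun j => a j ≠ none).card = (D m).card := by
      have h2 : (patOf a m).V = (univ.filter fun j => a j ≠ none).image
          fun j => ((j.1 : ℕ), (j.2 : X)) := rfl
      rw [← hV, h2, card_image_of_injective]
      intro j j' hjj
      simp only [Prod.mk.injEq] at hjj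
      exact Prod.ext (Fin.ext hjj.1) (Subtype.ext hjj.2)
    rw [h1]
    have := hS.half
    omega
  · -- well formed
    refine ⟨?_, ?_, ?_, ?_, ?_, ?_⟩
    · intro v hv
      rw [hV] at hv
      exact (hS.dom v hv).1
    · rw [hTTe, hV]
      exact hS.tsub
    · rw [hUe, hV]
      exact hU0
    · intro v hv
      rw [hUe] at hv
      rw [hrr v hv]
      exact hr0' v hv
    · intro a' i p hn
      apply hRout
      rintro ⟨h1, h2⟩
      exact hn ⟨hV ▸ h1, by rw [htm _ h1]; exact h2⟩
    · intro a' i p hv ht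
      rw [hV] at hv
      rw [htm _ hv] at ht
      rw [hRin a' i p hv ht]
      obtain ⟨h1, h2⟩ := hslice a' i p hv ht
      rw [hV, htm _ h1]
      exact ⟨h1, h2⟩
  · rw [hTTe]
    exact hs
  · rw [hTTe, hV, hUe]
    rcases Nat.eq_zero_or_pos t₀ with h0 | h0
    · rw [h0, zero_mul] at hcov
      have h1 : (D m \ U0).card * w = 0 := Nat.le_zero.1 hcov
      rcases Nat.mul_eq_zero.1 h1 with h2 | h2
      · omega
      · omega
    · have h1 : (D m \ U0).card * (2 * t₀) ≤ t₀ * TT.card :=
        le_trans (Nat.mul_le_mul_left _ hw) (le_trans hcov (Nat.mul_le_mul_left _ hmT))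
      have h2 : t₀ * (2 * (D m \ U0).card) ≤ t₀ * TT.card := by
        calc t₀ * (2 * (D m \ U0).card) = (D m \ U0).card * (2 * t₀) := by ring
          _ ≤ _ := h1
      exact Nat.le_of_mul_le_mul_left h2 h0
  · -- the event
    set ω := ext K fun j : Fin K => tht w γ H j with hω
    have hωj : ∀ j < K, ω j = tht w γ H j := by
      intro j hj
      simp only [hω, ext, dif_pos hj]
    have hγ0 : γ 0 = 1 := rfl
    have hgam : ∀ j ≤ K, gam w ω H j = γ j := by
      intro j hj
      rw [gam_congr w H (fun j' hj' => hωj j' (by omega)), gam_tht w hγ0 H j]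
    have hal : ∀ v ∈ D m, al w v.1 < K := by
      intro v hv
      rw [hK]
      exact (al_lt_iff w v.1 K').2 (hS.dom v hv).1
    have hhid : ∀ v ∈ U0, hid w (patOf a m) v < al w v.1 := by
      intro v hv
      simp only [hid, al]
      rw [hrr v hv]
      have := hr0' v hv
      omega
    -- the configuration of step `b`
    have hstep : ∀ b < m, ∃ h'' : ℕ → Equiv.Perm X, Sup Y h'' ∧
        (∀ i p, (i, p) ∈ D b → h'' i p = h i p) ∧ (∀ i p, (i, p) ∉ D b → h'' i p = H i p) ∧
        ∀ j < K, ∀ x, tha w (gam w ω H) ω ((patOf a m).R b) j x = tht w γ h'' j x := by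
      intro b hb
      have hin : ∀ i p, (i, p) ∈ D b → (patOf a m).R b i p = (H i).symm (h i p) := by
        intro i p hp
        have h1 := hDa b hb.le hp
        exact hRin b i p h1 ((hT b hb.le _ h1).1 hp)
      have hout : ∀ i p, (i, p) ∉ D b → (patOf a m).R b i p = p := by
        intro i p hp
        apply hRout
        rintro ⟨h1, h2⟩
        exact hp ((hT b hb.le _ h1).2 h2)
      have hinD : ∀ i p, (i, p) ∈ D b → (i, (patOf a m).R b i p) ∈ D b := by
        intro i p hp
        have h1 := hDa b hb.le hp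
        obtain ⟨h2, h3⟩ := hslice b i p h1 ((hT b hb.le _ h1).1 hp)
        rw [hin i p hp]
        exact (hT b hb.le _ h2).2 h3
      have hinj : ∀ i, Function.Injective ((patOf a m).R b i) := by
        intro i p q hpq
        by_cases hp : (i, p) ∈ D b
        · by_cases hq : (i, q) ∈ D b
          · rw [hin i p hp, hin i q hq] at hpq
            exact (h i).injective ((H i).symm.injective hpq)
          · exfalso
            have h1 := hinD i p hp
            rw [hpq, hout i q hq] at h1
            exact hq h1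
        · by_cases hq : (i, q) ∈ D b
          · exfalso
            have h1 := hinD i q hq
            rw [← hpq, hout i p hp] at h1
            exact hp h1
          · rw [hout i p hp, hout i q hq] at hpq
            exact hpq
      let Rp : ℕ → Equiv.Perm X := fun i =>
        Equiv.ofBijective _ (Finite.injective_iff_bijective.1 (hinj i))
      have hRp : ∀ i p, Rp i p = (patOf a m).R b i p := fun i p => rfl
      refine ⟨fun i => H i * Rp i, ?_, ?_, ?_, ?_⟩
      · intro i z hz
        have h1 : (i, z) ∉ D b := fun hc => hz (hS.dom _ (hDa b hb.le hc)).2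
        simp only [Equiv.Perm.mul_apply, hRp]
        rw [hout i z h1]
        exact hHsup i z hz
      · intro i p hp
        simp only [Equiv.Perm.mul_apply, hRp]
        rw [hin i p hp]
        simp
      · intro i p hp
        simp only [Equiv.Perm.mul_apply, hRp]
        rw [hout i p hp]
      · intro j hj x
        have h1 : tha w (gam w ω H) ω ((patOf a m).R b) j x =
            tha w γ (tht w γ H) ((patOf a m).R b) j x := by
          simp only [tha]
          rw [hgam j hj.le, hωj j hj]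
        rw [h1]
        exact tha_eq w H _ _ (fun i p => by simp only [Equiv.Perm.mul_apply, hRp]) j x
    have hfixed : ∀ (h1 h2 : ℕ → Equiv.Perm X) (j : ℕ) (x : X), j % (w + 1) ≠ w →
        tht w γ h1 j x = tht w γ h2 j x := by
      intro h1 h2 j x hj
      simp only [tht]
      rw [lft_fixed h1 hj, lft_fixed h2 hj]
    have halive : ∀ (h1 : ℕ → Equiv.Perm X) (i : ℕ) (x : X),
        tht w γ h1 (al w i) x = γ (al w i + 1) (h1 i ((γ (al w i)).symm x)) := by
      intro h1 i x
      simp only [tht, lft_al, Equiv.Perm.mul_apply]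
      rfl
    refine ⟨fun v => γ (al w v.1) v.2, κ, ?_, ?_, ?_, ?_, ?_⟩
    · intro b hb
      obtain ⟨h'', hsup, hD1, hD2, htha⟩ := hstep b hb
      refine ⟨hS.kk b hb, ?_, ?_⟩
      · intro e he
        have heK := (hKK _ (hS.kk b hb)).2 e he
        rw [hPH, htha e.1 heK]
        obtain ⟨h', hs', hd', hh'⟩ := hS.con b hb
        have h1 : tht w γ h' e.1 e.2.1 = e.2.2 := hh' e he
        by_cases hal' : e.1 % (w + 1) = w
        · have h2 := eq_al hal'
          set i := e.1 / (w + 1) with hi
          set p := (γ (al w i)).symm e.2.1 with hp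
          have hpe : e.2.1 = γ (al w i) p := by rw [hp]; simp
          rw [h2, halive] at h1 ⊢
          rw [← hp] at h1 ⊢
          by_cases hpY : p ∈ Y
          · by_cases hpD : (i, p) ∈ D b
            · rw [hD1 i p hpD, ← hd' (i, p) hpD]
              exact h1
            · obtain ⟨h3, h4⟩ := hS.new b hb e he i p h2 hpe hpY hpD
              rw [hD2 i p hpD, h4, hHval i p (hDa (b + 1) (by omega) h3)]
          · rw [hsup i p hpY]
            rw [hs' i p hpY] at h1
            exact h1
        · rw [hfixed h'' h' _ _ hal']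
          exact h1
      · intro κ' hκ' hrk hhold
        refine hS.min b hb κ' hκ' hrk ⟨h'', hsup, fun v hv => hD1 v.1 v.2 hv, ?_⟩
        intro e he
        have heK := (hKK _ hκ').2 e he
        have h1 := hhold e he
        rw [hPH, htha e.1 heK] at h1
        exact h1
    · intro v hv
      rw [hTTe] at hv
      have hvD := hS.tsub hv
      rw [htm v hvD, hix v hv, hPH, hPm, hgam _ (hal v hvD).le]
      exact ⟨hTm v hvD, ee v, (hee v hv).1, (hee v hv).2.1, (hee v hv).2.2, rfl⟩
    · intro v hv _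
      rw [hV] at hv
      rw [hPH, hgam _ (hal v hv).le]
    · intro v hv b hb
      rw [hUe] at hv
      have hlt := hhid v hv
      have hK1 := hal v (hU0 hv)
      have h1 := (hr0 v hv).2.1 b hb
      have h2 : hid w (patOf a m) v = v.1 * (w + 1) + r0 v := by
        simp only [hid]
        rw [hrr v hv]
      simp only [nar] at h1 ⊢
      rw [hPH, hgam _ (by omega), hgam _ (by omega), h2]
      exact h1
    · intro v hv j hj1 hj2
      rw [hUe] at hv
      have hK1 := hal v (hU0 hv)
      have h2 : hid w (patOf a m) v = v.1 * (w + 1) + r0 v := by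
        simp only [hid]
        rw [hrr v hv]
      rw [h2] at hj1
      obtain ⟨b, hb, h3⟩ := (hr0 v hv).2.2 j hj1 hj2
      refine ⟨b, hb, ?_⟩
      simp only [nar] at h3 ⊢
      rw [hPH, hgam _ (by omega), hgam _ (by omega)]
      exact h3

end P28ip
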