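import Mathlib

/-!
# Module P28ip.Frz : counting the freezings

PROOF.  The functions `F` with `F ≠ 0` on `A` and `F = 0` on `B` form a `Fintype.piFinset`, their number is
`(T-1)^|A| * 1^|B| * T^(|L| - |A| - |B|)`, i.e. `#F * T^|A| * T^|B| = (T-1)^|A| * T^|L|`.  `T^|B| ≤ T^b` and
`T^|A| ≤ 2 (T-1)^|A|` because `(1 - 1/T)^|A| ≥ 1 - |A|/T ≥ 1/2` (Bernoulli, `one_add_mul_le_pow`).
-/

set_option autoImplicit false

namespace P28ip

open Finset

namespace FrzAux

lemma bern (T a : ℕ) (hT : 2 * a ≤ T) (hT1 : 1 ≤ T) : T ^ a ≤ 2 * (T - 1) ^ a := by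
  have hTr : (1 : ℝ) ≤ T := by exact_mod_cast hT1
  have hT0 : (0 : ℝ) < T := by linarith
  have h1 : -2 ≤ (-(1 / (T : ℝ))) := by
    have : 1 / (T : ℝ) ≤ 1 := by
      rw [div_le_one hT0]; exact hTr
    linarith
  have h2 := one_add_mul_le_pow h1 a
  have h3 : (1 : ℝ) / 2 ≤ 1 + a * (-(1 / (T : ℝ))) := by
    have h4 : (a : ℝ) * (1 / T) ≤ 1 / 2 := by
      rw [mul_one_div, div_le_div_iff₀ hT0 (by norm_num)]
      have : (2 * a : ℝ) ≤ T := by exact_mod_cast hT
      linarith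
    linarith
  have h5 : (1 : ℝ) / 2 ≤ (1 + -(1 / (T : ℝ))) ^ a := h3.trans h2
  have h6 : (1 + -(1 / (T : ℝ))) * T = ((T - 1 : ℕ) : ℝ) := by
    rw [Nat.cast_sub hT1]
    field_simp
    push_cast
    ring
  have h7 : (T : ℝ) ^ a ≤ 2 * ((T - 1 : ℕ) : ℝ) ^ a := by
    rw [← h6, mul_pow]
    have h8 : (0 : ℝ) < (T : ℝ) ^ a := by positivity
    nlinarith
  exact_mod_cast h7

lemma card_ne (T : ℕ) (hT1 : 1 ≤ T) : (univ.filter fun x : Fin T => (x : ℕ) ≠ 0).card = T - 1 := by
  obtain ⟨S, rfl⟩ : ∃ S, T = S + 1 := ⟨T - 1, by omega⟩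
  have h : (univ.filter fun x : Fin (S + 1) => (x : ℕ) ≠ 0) = univ.erase 0 := by
    ext x
    simp only [mem_filter, mem_univ, true_and, mem_erase, and_true]
    rw [not_iff_not]
    exact Fin.val_eq_zero_iff
  rw [h, card_erase_of_mem (mem_univ _), card_univ, Fintype.card_fin]

lemma card_eq (T : ℕ) (hT1 : 1 ≤ T) : (univ.filter fun x : Fin T => (x : ℕ) = 0).card = 1 := by
  obtain ⟨S, rfl⟩ : ∃ S, T = S + 1 := ⟨T - 1, by omega⟩
  have h : (univ.filter fun x : Fin (S + 1) => (x : ℕ) = 0) = {0} := by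
    ext x
    simp only [mem_filter, mem_univ, true_and, mem_singleton]
    exact Fin.val_eq_zero_iff
  rw [h, card_singleton]

end FrzAux

open FrzAux in
theorem freeze_card {L : Type} [Fintype L] [DecidableEq L] (T a b : ℕ) (A B : Finset L)
    (hAB : Disjoint A B) (hA : A.card ≤ a) (hB : B.card ≤ b) (hT : 2 * a ≤ T) (hT1 : 1 ≤ T) :
    T ^ Fintype.card L ≤ 2 * T ^ b *
      (univ.filter fun F : L → Fin T =>
        (∀ l ∈ A, (F l : ℕ) ≠ 0) ∧ ∀ l ∈ B, (F l : ℕ) = 0).card := by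
  classical
  set S : L → Finset (Fin T) := fun l => if l ∈ A then (univ.filter fun x : Fin T => (x : ℕ) ≠ 0)
    else if l ∈ B then (univ.filter fun x : Fin T => (x : ℕ) = 0) else univ with hS
  have h1 : (univ.filter fun F : L → Fin T =>
        (∀ l ∈ A, (F l : ℕ) ≠ 0) ∧ ∀ l ∈ B, (F l : ℕ) = 0) = Fintype.piFinset S := by
    ext F
    simp only [mem_filter, mem_univ, true_and, Fintype.mem_piFinset]
    constructor
    · rintro ⟨h1, h2⟩ l
      rw [hS]
      dsimp only
      split_ifs with h3 h4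
      · simp [h1 l h3]
      · simp [h2 l h4]
      · exact mem_univ _
    · intro h
      refine ⟨fun l hl => ?_, fun l hl => ?_⟩
      · have h2 := h l
        rw [hS] at h2
        dsimp only at h2
        rw [if_pos hl] at h2
        exact (mem_filter.1 h2).2
      · have h2 := h l
        rw [hS] at h2
        dsimp only at h2
        rw [if_neg (fun h' => disjoint_left.1 hAB h' hl), if_pos hl] at h2
        exact (mem_filter.1 h2).2
  have h2 : ∀ l, (S l).card = if l ∈ A then T - 1 else if l ∈ B then 1 else T := by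
    intro l
    rw [hS]
    dsimp only
    split_ifs
    · exact card_ne T hT1
    · exact card_eq T hT1
    · rw [card_univ, Fintype.card_fin]
  rw [h1, Fintype.card_piFinset, prod_congr rfl fun l _ => h2 l]
  have h3 : ∏ l : L, (if l ∈ A then T - 1 else if l ∈ B then 1 else T) =
      (T - 1) ^ A.card * ∏ l ∈ Aᶜ, (if l ∈ B then 1 else T) := by
    rw [← prod_mul_prod_compl A, ← prod_const]
    congr 1
    · exact prod_congr rfl fun l hl => if_pos hl
    · exact prod_congr rfl fun l hl => if_neg (mem_compl.1 hl)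
  have h4 : T ^ Aᶜ.card ≤ T ^ b * ∏ l ∈ Aᶜ, (if l ∈ B then 1 else T) := by
    have h5 : T ^ Aᶜ.card = (∏ l ∈ Aᶜ, (if l ∈ B then T else 1)) * ∏ l ∈ Aᶜ, (if l ∈ B then 1 else T) := by
      rw [← prod_const, ← prod_mul_distrib]
      refine prod_congr rfl fun l _ => ?_
      split_ifs <;> simp
    rw [h5]
    refine Nat.mul_le_mul_right _ ?_
    rw [prod_ite, prod_const_one, mul_one, prod_const]
    refine Nat.pow_le_pow_right hT1 ((card_le_card ?_).trans hB)
    intro l hl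
    exact (mem_filter.1 hl).2
  have h6 := bern T A.card (by omega) hT1
  have h7 : T ^ Fintype.card L = T ^ A.card * T ^ Aᶜ.card := by
    rw [← pow_add, card_add_card_compl]
  rw [h3, h7]
  calc T ^ A.card * T ^ Aᶜ.card ≤ (2 * (T - 1) ^ A.card) *
        (T ^ b * ∏ l ∈ Aᶜ, (if l ∈ B then 1 else T)) := Nat.mul_le_mul h6 h4
    _ = 2 * T ^ b * ((T - 1) ^ A.card * ∏ l ∈ Aᶜ, (if l ∈ B then 1 else T)) := by ring

end P28ip
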