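import Mathlib

/-!
# Module P28ip.Swp : undoing transpositions

PROOF of `sw_inj`.  Induction on `l`, for all `ρ, ρ'`.  `i :: l`: put `ρ₁ = ρ * swap (a i) (c i)`, `ρ₁' = ρ' * swap (a i) (c' i)`.
For `k ∈ l`: `a k ≠ a i` (nodup) and `a k ≠ c i, c' i`, so `ρ₁ (a k) = ρ (a k) = ρ' (a k) = ρ₁' (a k)`; the induction hypothesis gives `ρ₁ = ρ₁'` and
`c = c'` on `l`.  Then `ρ₁ (c i) = ρ (a i) = ρ' (a i) = ρ₁' (c' i) = ρ₁ (c' i)`, so `c i = c' i` and `ρ = ρ'`.
-/

set_option autoImplicit false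

namespace P28ip

/-- product of transpositions -/
def sw {ι X : Type} [DecidableEq X] (a c : ι → X) : List ι → Equiv.Perm X
  | [] => 1
  | i :: l => Equiv.swap (a i) (c i) * sw a c l

theorem sw_fix {ι X : Type} [DecidableEq X] (a c : ι → X) (l : List ι) (x : X)
    (h : ∀ i ∈ l, x ≠ a i ∧ x ≠ c i) : sw a c l x = x := by
  induction l with
  | nil => rfl
  | cons i l ih =>
    have h1 := ih (fun k hk => h k (List.mem_cons_of_mem _ hk))
    obtain ⟨h2, h3⟩ := h i List.mem_cons_self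
    show Equiv.swap (a i) (c i) (sw a c l x) = x
    rw [h1]
    exact Equiv.swap_apply_of_ne_of_ne h2 h3

theorem sw_inj {ι X : Type} [DecidableEq X] (a c c' : ι → X) (l : List ι)
    (hl : (l.map a).Nodup) (hc : ∀ i ∈ l, ∀ k ∈ l, c i ≠ a k) (hc' : ∀ i ∈ l, ∀ k ∈ l, c' i ≠ a k)
    (ρ ρ' : Equiv.Perm X) (hρ : ∀ i ∈ l, ρ (a i) = ρ' (a i))
    (h : ρ * sw a c l = ρ' * sw a c' l) : ρ = ρ' ∧ ∀ i ∈ l, c i = c' i := by
  induction l generalizing ρ ρ' with
  | nil =>
    refine ⟨?_, fun i hi => absurd hi (List.not_mem_nil)⟩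
    have e : ρ * 1 = ρ' * 1 := h
    rwa [mul_one, mul_one] at e
  | cons i l ih =>
    rw [List.map_cons, List.nodup_cons] at hl
    have hm : ∀ k ∈ l, k ∈ i :: l := fun k hk => List.mem_cons_of_mem _ hk
    have hi : i ∈ i :: l := List.mem_cons_self
    have hne : ∀ k ∈ l, a k ≠ a i := by
      intro k hk he
      exact hl.1 (List.mem_map.2 ⟨k, hk, he⟩)
    have e : (ρ * Equiv.swap (a i) (c i)) * sw a c l = (ρ' * Equiv.swap (a i) (c' i)) *
        sw a c' l := by
      rw [mul_assoc, mul_assoc]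
      exact h
    obtain ⟨h1, h2⟩ := ih hl.2 (fun j hj k hk => hc j (hm j hj) k (hm k hk))
      (fun j hj k hk => hc' j (hm j hj) k (hm k hk)) (ρ * Equiv.swap (a i) (c i))
      (ρ' * Equiv.swap (a i) (c' i)) (by
        intro k hk
        rw [Equiv.Perm.mul_apply, Equiv.Perm.mul_apply,
          Equiv.swap_apply_of_ne_of_ne (hne k hk) (hc i hi k (hm k hk)).symm,
          Equiv.swap_apply_of_ne_of_ne (hne k hk) (hc' i hi k (hm k hk)).symm]
        exact hρ k (hm k hk)) e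
    have h3 : (ρ * Equiv.swap (a i) (c i)) (c i) = (ρ * Equiv.swap (a i) (c i)) (c' i) := by
      conv_rhs => rw [h1]
      rw [Equiv.Perm.mul_apply, Equiv.Perm.mul_apply, Equiv.swap_apply_right,
        Equiv.swap_apply_right]
      exact hρ i hi
    have h4 : c i = c' i := (ρ * Equiv.swap (a i) (c i)).injective h3
    rw [← h4] at h1
    refine ⟨mul_right_cancel h1, ?_⟩
    intro k hk
    rcases List.mem_cons.1 hk with rfl | hk'
    · exact h4
    · exact h2 k hk'

end P28ip
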