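import Mathlib
import Pool.Agent.Lib.P28ip.Alg

/-!
# Module P28ip.Uniq : the certificates and positions are determined by little information

PROOF of `uniq`.  For the pairs `v ∈ V \ TT` the positions agree by `Ev.aa`.  Strong induction on `a ≤ P.m`: for all `a' < a`, `κ₁ a' = κ₂ a'`,
and the positions `gam .. (al w v.1) v.2` agree for all `v ∈ V` with `v ∉ TT` or `tm v < a`.  Step: let `a < m`.  For an alive layer `j < K`,
`i = j / (w+1)`, the functions `tha .. (P.R a) j` of `ω₁` and `ω₂` agree: let `x` be a position, `z₁`, `z₂` its names.  If `(i, z₁) ∈ V` with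
`tm < a` then `γ₂ z₁ = γ₁ z₁ = x`, so `z₂ = z₁`, and `R a i z₁` is again a pair with `tm < a` (`OK.ins`), so it has the same position
in both; if not (and then also not for `z₂`) then `R` fixes the name (`OK.out`) and both sides are `ω j x`.  (`j = al w i`, see `eq_al`.)  In fixed layers
the functions agree on the sources of the arcs of `κ₁ a` and `κ₂ a` (`hfx1`, `hfx2`).  Hence `κ₁ a` holds for `ω₂` and `κ₂ a` for `ω₁`; by minimality
of the ranks and injectivity of `rk` they are equal.  For `v ∈ TT` with `tm v = a` the arcs of `Ev.tt` have the same number `idx v` in the same certificate, so they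
are equal (`henc`) and so are the positions.
PROOF of `back`.  Descending induction from `al w v.1` to `hid w P v + 1` (the layers in between are fixed, `fixed_of`): let the positions at `j + 1` agree,
`hid < j < al`.  By `Ev.hi` `nar γ₁ j v.2 ∈ κ₁ a = κ₂ a` for some `a < m`; it holds for `tha .. ω₂`, which is `ω₂` in the layer `j`:
`ω₂ j (γ₁ j v.2) = γ₁ (j+1) v.2 = γ₂ (j+1) v.2 = ω₂ j (γ₂ j v.2)` (`gam_fixed`), so `γ₁ j v.2 = γ₂ j v.2`.
-/

set_option autoImplicit false

namespace P28ip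

variable {X : Type}

namespace UniqAux

/-- in the alive layers the two procedures agree once the positions of the queried pairs agree -/
theorem tha_alive {w K' : ℕ} {P : Pat X} {ω₁ ω₂ : ℕ → Equiv.Perm X} (hP : P.OK K' w) {a j : ℕ}
    (hj : j % (w + 1) = w) (hω : ω₁ j = ω₂ j)
    (hpos : ∀ v ∈ P.V, P.tm v < a →
      gam w ω₁ P.H (al w v.1) v.2 = gam w ω₂ P.H (al w v.1) v.2) (x : X) :
    tha w (gam w ω₁ P.H) ω₁ (P.R a) j x = tha w (gam w ω₂ P.H) ω₂ (P.R a) j x := by
  have hal : j = al w (j / (w + 1)) := eq_al hj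
  have hpos' : ∀ p : X, (j / (w + 1), p) ∈ P.V → P.tm (j / (w + 1), p) < a →
      gam w ω₁ P.H j p = gam w ω₂ P.H j p := by
    intro p hp ht
    have h := hpos _ hp ht
    simp only [← hal] at h
    exact h
  unfold tha
  rw [if_pos hj, if_pos hj]
  by_cases hc : (j / (w + 1), (gam w ω₁ P.H j).symm x) ∈ P.V ∧
      P.tm (j / (w + 1), (gam w ω₁ P.H j).symm x) < a
  · have e1 := hpos' _ hc.1 hc.2
    rw [Equiv.apply_symm_apply] at e1
    have e2 : (gam w ω₂ P.H j).symm x = (gam w ω₁ P.H j).symm x := by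
      conv_lhs => rw [e1]
      rw [Equiv.symm_apply_apply]
    have h3 := hP.ins a _ _ hc.1 hc.2
    rw [e2, hpos' _ h3.1 h3.2, hω]
  · have hc2 : ¬ ((j / (w + 1), (gam w ω₂ P.H j).symm x) ∈ P.V ∧
        P.tm (j / (w + 1), (gam w ω₂ P.H j).symm x) < a) := by
      intro hc2
      apply hc
      have e1 := hpos' _ hc2.1 hc2.2
      rw [Equiv.apply_symm_apply] at e1
      have e2 : (gam w ω₁ P.H j).symm x = (gam w ω₂ P.H j).symm x := by
        conv_lhs => rw [← e1]
        rw [Equiv.symm_apply_apply]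
      rw [e2]
      exact hc2
    rw [hP.out a _ _ hc, hP.out a _ _ hc2, Equiv.apply_symm_apply, Equiv.apply_symm_apply, hω]

/-- a certificate of the first configuration holds in the second one -/
theorem hold_tr {w K K' : ℕ} {P : Pat X} {ω₁ ω₂ : ℕ → Equiv.Perm X} (hP : P.OK K' w) {a : ℕ}
    {κ : Finset (Arc X)} (hK : ∀ e ∈ κ, e.1 < K)
    (hal : ∀ j < K, j % (w + 1) = w → ω₁ j = ω₂ j)
    (hfx : ∀ e ∈ κ, e.1 % (w + 1) ≠ w → ω₁ e.1 e.2.1 = ω₂ e.1 e.2.1)
    (hpos : ∀ v ∈ P.V, P.tm v < a →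
      gam w ω₁ P.H (al w v.1) v.2 = gam w ω₂ P.H (al w v.1) v.2)
    (h : Hold κ (tha w (gam w ω₁ P.H) ω₁ (P.R a))) :
    Hold κ (tha w (gam w ω₂ P.H) ω₂ (P.R a)) := by
  intro e he
  by_cases hj : e.1 % (w + 1) = w
  · rw [← tha_alive hP hj (hal _ (hK e he) hj) hpos]
    exact h e he
  · have h1 := h e he
    unfold tha at h1 ⊢
    rw [if_neg hj] at h1 ⊢
    rw [← hfx e he hj]
    exact h1

end UniqAux

theorem uniq {w K K' : ℕ} {KK : Set (Finset (Arc X))} {rk : Finset (Arc X) → ℕ}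
    {enc : Finset (Arc X) → Arc X → ℕ} {P : Pat X} {xA : ℕ × X → X}
    {ω₁ ω₂ : ℕ → Equiv.Perm X} {κ₁ κ₂ : ℕ → Finset (Arc X)}
    (hP : P.OK K' w) (hrk : Function.Injective rk)
    (henc : ∀ κ ∈ KK, ∀ e ∈ κ, ∀ e' ∈ κ, enc κ e = enc κ e' → e = e')
    (hKK : ∀ κ ∈ KK, ∀ e ∈ κ, e.1 < K)
    (h1 : Ev w KK rk enc P xA ω₁ κ₁) (h2 : Ev w KK rk enc P xA ω₂ κ₂)
    (hal : ∀ j < K, j % (w + 1) = w → ω₁ j = ω₂ j)
    (hfx1 : ∀ j < K, ∀ x, (j, x) ∈ Loc w P.m κ₁ → ω₁ j x = ω₂ j x)
    (hfx2 : ∀ j < K, ∀ x, (j, x) ∈ Loc w P.m κ₂ → ω₁ j x = ω₂ j x) :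
    (∀ a < P.m, κ₁ a = κ₂ a) ∧
      ∀ v ∈ P.V, gam w ω₁ P.H (al w v.1) v.2 = gam w ω₂ P.H (al w v.1) v.2 := by
  have key : ∀ a, a ≤ P.m → (∀ a' < a, κ₁ a' = κ₂ a') ∧ ∀ v ∈ P.V, (v ∉ P.TT ∨ P.tm v < a) →
      gam w ω₁ P.H (al w v.1) v.2 = gam w ω₂ P.H (al w v.1) v.2 := by
    intro a
    induction a with
    | zero =>
      intro _
      refine ⟨fun a' h => absurd h (Nat.not_lt_zero _), ?_⟩
      intro v hv hc
      rcases hc with hc | hc
      · rw [h1.aa v hv hc, h2.aa v hv hc]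
      · exact absurd hc (Nat.not_lt_zero _)
    | succ a ih =>
      intro ha
      have ham : a < P.m := Nat.lt_of_succ_le ha
      obtain ⟨ihκ, ihv⟩ := ih ham.le
      have hpos : ∀ v ∈ P.V, P.tm v < a →
          gam w ω₁ P.H (al w v.1) v.2 = gam w ω₂ P.H (al w v.1) v.2 :=
        fun v hv ht => ihv v hv (Or.inr ht)
      obtain ⟨hm1, hh1, hmin1⟩ := h1.fst a ham
      obtain ⟨hm2, hh2, hmin2⟩ := h2.fst a ham
      have t12 : Hold (κ₁ a) (tha w (gam w ω₂ P.H) ω₂ (P.R a)) :=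
        UniqAux.hold_tr hP (hKK _ hm1) hal
          (fun e he hj => hfx1 e.1 (hKK _ hm1 e he) e.2.1 ⟨hj, a, ham, e, he, rfl, rfl⟩) hpos hh1
      have t21 : Hold (κ₂ a) (tha w (gam w ω₁ P.H) ω₁ (P.R a)) :=
        UniqAux.hold_tr hP (hKK _ hm2) (fun j hj hw => (hal j hj hw).symm)
          (fun e he hj => (hfx2 e.1 (hKK _ hm2 e he) e.2.1 ⟨hj, a, ham, e, he, rfl, rfl⟩).symm)
          (fun v hv ht => (hpos v hv ht).symm) hh2
      have heq : κ₁ a = κ₂ a := by
        apply hrk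
        apply le_antisymm
        · exact not_lt.mp fun hlt => hmin1 _ hm2 hlt t21
        · exact not_lt.mp fun hlt => hmin2 _ hm1 hlt t12
      refine ⟨?_, ?_⟩
      · intro a' ha'
        rcases Nat.lt_succ_iff_lt_or_eq.mp ha' with h | h
        · exact ihκ a' h
        · rw [h]; exact heq
      · intro v hv hc
        by_cases hT : v ∈ P.TT
        · rcases hc with hc | hc
          · exact absurd hT hc
          · rcases Nat.lt_succ_iff_lt_or_eq.mp hc with h | h
            · exact hpos v hv h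
            · obtain ⟨_, e1, he1, hl1, hp1, hx1⟩ := h1.tt v hT
              obtain ⟨_, e2, he2, hl2, hp2, hx2⟩ := h2.tt v hT
              rw [h] at he1 he2 hx1 hx2
              rw [← heq] at he2 hx2
              have hee : e1 = e2 := henc _ hm1 e1 he1 e2 he2 (by rw [hx1, hx2])
              rw [← hp1, ← hp2, hee]
        · exact ihv v hv (Or.inl hT)
  obtain ⟨k1, k2⟩ := key P.m le_rfl
  refine ⟨k1, fun v hv => k2 v hv ?_⟩
  by_cases hT : v ∈ P.TT
  · exact Or.inr (h1.tt v hT).1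
  · exact Or.inl hT

theorem back {w K' : ℕ} {KK : Set (Finset (Arc X))} {rk : Finset (Arc X) → ℕ}
    {enc : Finset (Arc X) → Arc X → ℕ} {P : Pat X} {xA : ℕ × X → X}
    {ω₁ ω₂ : ℕ → Equiv.Perm X} {κ₁ κ₂ : ℕ → Finset (Arc X)}
    (hP : P.OK K' w)
    (h1 : Ev w KK rk enc P xA ω₁ κ₁) (h2 : Ev w KK rk enc P xA ω₂ κ₂)
    (hκ : ∀ a < P.m, κ₁ a = κ₂ a)
    (hx : ∀ v ∈ P.V, gam w ω₁ P.H (al w v.1) v.2 = gam w ω₂ P.H (al w v.1) v.2)
    (v : ℕ × X) (hv : v ∈ P.U) :
    gam w ω₁ P.H (hid w P v + 1) v.2 = gam w ω₂ P.H (hid w P v + 1) v.2 := by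
  have hV : v ∈ P.V := hP.usub hv
  have hr : P.r v < w := hP.rlt v hv
  have hle : hid w P v + 1 ≤ al w v.1 := by
    unfold hid al
    omega
  have key : ∀ d j, j + d = al w v.1 → hid w P v < j →
      gam w ω₁ P.H j v.2 = gam w ω₂ P.H j v.2 := by
    intro d
    induction d with
    | zero =>
      intro j hj _
      rw [Nat.add_zero] at hj
      rw [hj]
      exact hx v hV
    | succ d ih =>
      intro j hj hlt
      have hn := ih (j + 1) (by omega) (by omega)
      have hjal : j < al w v.1 := by omega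
      have hfix : j % (w + 1) ≠ w := by
        have e : j = v.1 * (w + 1) + (j - v.1 * (w + 1)) := by
          unfold hid at hlt
          omega
        rw [e]
        apply fixed_of
        unfold al at hjal
        unfold hid at hlt
        omega
      obtain ⟨a, ha, hmem⟩ := h1.hi v hv j hlt hjal
      rw [hκ a ha] at hmem
      have hh := (h2.fst a ha).2.1 _ hmem
      unfold tha nar at hh
      simp only [if_neg hfix] at hh
      rw [hn, gam_fixed ω₂ P.H hfix, Equiv.Perm.mul_apply] at hh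
      exact (ω₂ j).injective hh
  exact key (al w v.1 - (hid w P v + 1)) (hid w P v + 1) (by omega) (Nat.lt_succ_self _)

end P28ip
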