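import Mathlib
import Pool.Agent.Lib.P28ip.Uniq
import Pool.Agent.Lib.P28ip.Swp

/-!
# Module P28ip.Inj : the modified configuration determines the configuration

PROOF.  `γ = gam w (ext K ω) P.H`.  A layer `hid w P v`, `v ∈ U`, is fixed (`OK.rlt`, `fixed_of`), so `mdf` does not change alive layers; in a fixed
layer it does not change the values at frozen positions `x` (`F (j, x) ≠ 0`): all `γ j v.2` and `c v` with `hid v = j` are unfrozen
(`sw_fix`).  So `uniq` applies to `ω₁, ω₂` (`K = K' (w+1)`; `Loc` of `κ` is frozen) and then `back`.  Strong induction on `j < K`: `ω₁ j = ω₂ j` and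
`c₁ v = c₂ v` for `hid v = j`.  If `ω₁ = ω₂` below `j` then `γ₁ j = γ₂ j` (`gam_congr`).  If `j` is alive, nothing is changed.  If `j` is fixed use `sw_inj`
for the list of all `v ∈ U` with `hid v = j`: all of them have the block `v.1 = j / (w+1)`, so the `γ j v.2` are distinct, and
`ω₁ j (γ j v.2) = γ₁ (j+1) v.2 = γ₂ (j+1) v.2 = ω₂ j (γ j v.2)` by `gam_fixed` and `back`.
-/

set_option autoImplicit false

namespace P28ip

variable {X : Type} [DecidableEq X]

/-- in the layer `hid v` of every uncovered pair `v` the arc of `v` is swapped with the arc of the position `c v` -/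
noncomputable def mdf (w : ℕ) (P : Pat X) {K : ℕ} (ω : Fin K → Equiv.Perm X) (c : ℕ × X → X) :
    Fin K → Equiv.Perm X :=
  fun j => ω j * sw (fun v : ℕ × X => gam w (ext K ω) P.H j v.2) c
    ((P.U.filter fun v => hid w P v = j).toList)

/-- the conditions on the freezing `F` and the partners `c` -/
structure Fre {T K : ℕ} (w : ℕ) (P : Pat X) (ω : Fin K → Equiv.Perm X)
    (κ : ℕ → Finset (Arc X)) (c : ℕ × X → X) (F : Fin K × X → Fin T) : Prop where
  fro : ∀ (j : Fin K) (x : X), ((j : ℕ), x) ∈ Loc w P.m κ → (F (j, x) : ℕ) ≠ 0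
  una : ∀ v ∈ P.U, ∀ j : Fin K, (j : ℕ) = hid w P v →
    (F (j, gam w (ext K ω) P.H j v.2) : ℕ) = 0
  unc : ∀ v ∈ P.U, ∀ j : Fin K, (j : ℕ) = hid w P v → (F (j, c v) : ℕ) = 0
  ne : ∀ v ∈ P.U, ∀ u ∈ P.U, hid w P u = hid w P v →
    c v ≠ gam w (ext K ω) P.H (hid w P v) u.2

namespace InjAux

theorem ext_lt {K : ℕ} (ω : Fin K → Equiv.Perm X) {j : ℕ} (hj : j < K) :
    ext K ω j = ω ⟨j, hj⟩ := by
  unfold ext
  rw [dif_pos hj]

theorem hid_mod {K' w : ℕ} {P : Pat X} (hP : P.OK K' w) {v : ℕ × X} (hv : v ∈ P.U) :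
    hid w P v % (w + 1) ≠ w := by
  unfold hid
  exact fixed_of (hP.rlt v hv)

theorem hid_div {K' w : ℕ} {P : Pat X} (hP : P.OK K' w) {v : ℕ × X} (hv : v ∈ P.U) :
    hid w P v / (w + 1) = v.1 := by
  unfold hid
  have h := hP.rlt v hv
  rw [mul_comm, Nat.mul_add_div (by omega), Nat.div_eq_of_lt (by omega), add_zero]

theorem hid_lt {K K' w : ℕ} {P : Pat X} (hP : P.OK K' w) (hK : K = K' * (w + 1)) {v : ℕ × X}
    (hv : v ∈ P.U) : hid w P v < K := by
  have h1 := hP.rlt v hv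
  have h2 := hP.blk v (hP.usub hv)
  unfold hid
  rw [hK]
  calc v.1 * (w + 1) + P.r v < v.1 * (w + 1) + (w + 1) := by omega
    _ = (v.1 + 1) * (w + 1) := by ring
    _ ≤ K' * (w + 1) := Nat.mul_le_mul_right _ h2

/-- nothing is changed at frozen positions -/
theorem mdf_frozen {w K T : ℕ} {P : Pat X} {ω : Fin K → Equiv.Perm X}
    {κ : ℕ → Finset (Arc X)} {c : ℕ × X → X} {F : Fin K × X → Fin T} (hF : Fre w P ω κ c F)
    (j : Fin K) (x : X) (hx : (F (j, x) : ℕ) ≠ 0) : mdf w P ω c j x = ω j x := by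
  unfold mdf
  rw [Equiv.Perm.mul_apply, sw_fix]
  intro v hv
  rw [Finset.mem_toList, Finset.mem_filter] at hv
  constructor
  · rintro rfl
    exact hx (hF.una v hv.1 j hv.2.symm)
  · rintro rfl
    exact hx (hF.unc v hv.1 j hv.2.symm)

/-- nothing is changed in alive layers -/
theorem mdf_alive {w K K' : ℕ} {P : Pat X} (hP : P.OK K' w) (ω : Fin K → Equiv.Perm X)
    (c : ℕ × X → X) (j : Fin K) (hj : (j : ℕ) % (w + 1) = w) : mdf w P ω c j = ω j := by
  unfold mdf
  have : (P.U.filter fun v => hid w P v = j) = ∅ := by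
    rw [Finset.filter_eq_empty_iff]
    intro v hv h
    apply hid_mod hP hv
    rw [h]
    exact hj
  rw [this, Finset.toList_empty]
  show ω j * 1 = ω j
  rw [mul_one]

end InjAux

open InjAux

theorem mdf_inj {w K K' T : ℕ} {KK : Set (Finset (Arc X))} {rk : Finset (Arc X) → ℕ}
    {enc : Finset (Arc X) → Arc X → ℕ} {P : Pat X} {xA : ℕ × X → X}
    {ω₁ ω₂ : Fin K → Equiv.Perm X} {κ₁ κ₂ : ℕ → Finset (Arc X)}
    (hP : P.OK K' w) (hK : K = K' * (w + 1)) (hrk : Function.Injective rk)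
    (henc : ∀ κ ∈ KK, ∀ e ∈ κ, ∀ e' ∈ κ, enc κ e = enc κ e' → e = e')
    (hKK : ∀ κ ∈ KK, ∀ e ∈ κ, e.1 < K)
    (h1 : Ev w KK rk enc P xA (ext K ω₁) κ₁) (h2 : Ev w KK rk enc P xA (ext K ω₂) κ₂)
    {c₁ c₂ : ℕ × X → X} {F : Fin K × X → Fin T}
    (hF1 : Fre w P ω₁ κ₁ c₁ F) (hF2 : Fre w P ω₂ κ₂ c₂ F)
    (hm : mdf w P ω₁ c₁ = mdf w P ω₂ c₂) :
    ω₁ = ω₂ ∧ ∀ v ∈ P.U, c₁ v = c₂ v := by
  have hfr : ∀ (j : Fin K) (x : X), (F (j, x) : ℕ) ≠ 0 → ω₁ j x = ω₂ j x := by
    intro j x hx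
    rw [← mdf_frozen hF1 j x hx, ← mdf_frozen hF2 j x hx, hm]
  have hal : ∀ j < K, j % (w + 1) = w → ext K ω₁ j = ext K ω₂ j := by
    intro j hj hj'
    rw [ext_lt ω₁ hj, ext_lt ω₂ hj, ← mdf_alive hP ω₁ c₁ ⟨j, hj⟩ hj',
      ← mdf_alive hP ω₂ c₂ ⟨j, hj⟩ hj', hm]
  obtain ⟨hκ, hx⟩ := uniq hP hrk henc hKK h1 h2 hal
    (by
      intro j hj x hl
      rw [ext_lt ω₁ hj, ext_lt ω₂ hj]
      exact hfr ⟨j, hj⟩ x (hF1.fro ⟨j, hj⟩ x hl))
    (by
      intro j hj x hl
      rw [ext_lt ω₁ hj, ext_lt ω₂ hj]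
      exact hfr ⟨j, hj⟩ x (hF2.fro ⟨j, hj⟩ x hl))
  have hbk := back hP h1 h2 hκ hx
  have key : ∀ j, ∀ hj : j < K, ω₁ ⟨j, hj⟩ = ω₂ ⟨j, hj⟩ ∧
      ∀ v ∈ P.U, hid w P v = j → c₁ v = c₂ v := by
    intro j
    induction j using Nat.strong_induction_on with
    | _ j ih =>
      intro hj
      have hγ : gam w (ext K ω₁) P.H j = gam w (ext K ω₂) P.H j := by
        apply gam_congr
        intro j' hj'
        rw [ext_lt ω₁ (hj'.trans hj), ext_lt ω₂ (hj'.trans hj)]
        exact (ih j' hj' (hj'.trans hj)).1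
      by_cases hfix : j % (w + 1) = w
      · refine ⟨?_, ?_⟩
        · have := hal j hj hfix
          rw [ext_lt ω₁ hj, ext_lt ω₂ hj] at this
          exact this
        · intro v hv h
          exact absurd (h ▸ hfix) (hid_mod hP hv)
      · have hmj := congrFun hm ⟨j, hj⟩
        unfold mdf at hmj
        have hmem : ∀ v, v ∈ (P.U.filter fun v => hid w P v = j).toList ↔
            v ∈ P.U ∧ hid w P v = j := by
          intro v
          rw [Finset.mem_toList, Finset.mem_filter]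
        have hs := sw_inj (fun v : ℕ × X => gam w (ext K ω₁) P.H j v.2) c₁ c₂
          ((P.U.filter fun v => hid w P v = j).toList) ?_ ?_ ?_ (ω₁ ⟨j, hj⟩) (ω₂ ⟨j, hj⟩) ?_ ?_
        · refine ⟨hs.1, fun v hv h => hs.2 v ((hmem v).2 ⟨hv, h⟩)⟩
        · refine (Finset.nodup_toList _).map_on ?_
          intro v hv u hu h
          rw [hmem] at hv hu
          have e2 : v.2 = u.2 := (gam w (ext K ω₁) P.H j).injective h
          have e1 : v.1 = u.1 := by
            rw [← hid_div hP hv.1, ← hid_div hP hu.1, hv.2, hu.2]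
          exact Prod.ext e1 e2
        · intro v hv u hu
          rw [hmem] at hv hu
          have := hF1.ne v hv.1 u hu.1 (hu.2.trans hv.2.symm)
          rw [hv.2] at this
          exact this
        · intro v hv u hu
          rw [hmem] at hv hu
          have := hF2.ne v hv.1 u hu.1 (hu.2.trans hv.2.symm)
          rw [hv.2, ← hγ] at this
          exact this
        · intro v hv
          rw [hmem] at hv
          have e1 := gam_fixed (ext K ω₁) P.H hfix
          have e2 := gam_fixed (ext K ω₂) P.H hfix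
          have e3 := hbk v hv.1
          rw [hv.2, e1, e2, Equiv.Perm.mul_apply, Equiv.Perm.mul_apply, ext_lt ω₁ hj,
            ext_lt ω₂ hj, ← hγ] at e3
          exact e3
        · have e : (fun v : ℕ × X => gam w (ext K ω₂) P.H j v.2) =
              fun v : ℕ × X => gam w (ext K ω₁) P.H j v.2 := by
            rw [hγ]
          have e' : (fun v : ℕ × X => gam w (ext K ω₂) P.H (((⟨j, hj⟩ : Fin K) : ℕ)) v.2) =
              fun v : ℕ × X => gam w (ext K ω₁) P.H j v.2 := e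
          rw [e'] at hmj
          exact hmj
  refine ⟨?_, ?_⟩
  · funext j
    exact (key j j.2).1
  · intro v hv
    exact (key _ (hid_lt hP hK hv)).2 v hv rfl

end P28ip
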