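import Mathlib
import Pool.Agent.Lib.P28ip.Inj
import Pool.Agent.Lib.P28ip.Frz

/-!
# Module P28ip.Luck : few configurations follow a pattern

PROOF.  Choose for every `ω` with the property a `κ = κ ω`.  For such an `ω` let `A ⊆ Fin K × X` be the set of the `(j, x)` with `((j:ℕ), x) ∈ Loc w P.m κ`:
`|A| ≤ t₀ m`.  For `v ∈ U` the allowed partners are the `x` with `(hid v, x) ∉ Loc` and `x ≠ gam .. (hid v) u.2` for all `u ∈ U`; at least
`|X| - t₀ m - |U| ≥ |X| - c` of them.  So there are at least `(|X| - c)^|U|` functions `c : U → X` (`Fintype.card_piFinset`, the product over `v ∈ U`).  For each of them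
put `B = {(hid v, gam .. (hid v) v.2)} ∪ {(hid v, c v)}`, `|B| ≤ 2 |U|`, disjoint from `A`: if `(hid v, γ v.2) ∈ Loc` then some arc `e ∈ κ a` has this source, it
holds in `ext K ω` (fixed layer, `Ev.fst`, `fixed_of`), so its target is `γ (hid v + 1) v.2` (`gam_fixed`) and `e = nar ..`, contradicting `Ev.lo`.
`freeze_card` gives `T^(K |X|) ≤ 2 T^(2|U|) #F`.  The set `S` of all triples `(ω, c, F)` satisfies
`|E| (|X|-c)^|U| T^(K|X|) ≤ 2 T^(2|U|) |S|` and `(ω, c, F) ↦ (mdf w P ω c, F)` is injective on `S` by `mdf_inj` (`c` on `U` only),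
so `|S| ≤ (card Perm)^K T^(K|X|)`; cancel `T^(K|X|)`.  (`hid v < K`: `v.1 < K'`, `r v < w`.)
-/

set_option autoImplicit false

namespace P28ip

open Finset

namespace LuckAux

open InjAux

variable {X : Type} [Fintype X] [DecidableEq X]

/-- few locations -/
theorem loc_card {w m t₀ : ℕ} {κ : ℕ → Finset (Arc X)} (hκ : ∀ a < m, (κ a).card ≤ t₀)
    (A : Finset (ℕ × X)) (hA : ∀ l ∈ A, l ∈ Loc w m κ) : A.card ≤ t₀ * m := by
  have h1 : A ⊆ ((range m).biUnion κ).image (fun e => (e.1, e.2.1)) := by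
    intro l hl
    obtain ⟨-, a, ha, e, he, h1, h2⟩ := hA l hl
    rw [mem_image]
    exact ⟨e, mem_biUnion.2 ⟨a, mem_range.2 ha, he⟩, Prod.ext h1 h2⟩
  calc A.card ≤ _ := card_le_card h1
    _ ≤ ((range m).biUnion κ).card := card_image_le
    _ ≤ ∑ a ∈ range m, (κ a).card := card_biUnion_le
    _ ≤ ∑ _a ∈ range m, t₀ := sum_le_sum fun a ha => hκ a (mem_range.1 ha)
    _ = t₀ * m := by rw [sum_const, card_range, smul_eq_mul, mul_comm]

/-- the hidden arc does not start at a location -/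
theorem hid_not_loc {w K' : ℕ} {KK : Set (Finset (Arc X))}
    {rk : Finset (Arc X) → ℕ} {enc : Finset (Arc X) → Arc X → ℕ} {P : Pat X} {xA : ℕ × X → X}
    (hP : P.OK K' w) {ω : ℕ → Equiv.Perm X} {κ : ℕ → Finset (Arc X)}
    (h : Ev w KK rk enc P xA ω κ) {v : ℕ × X} (hv : v ∈ P.U) :
    (hid w P v, gam w ω P.H (hid w P v) v.2) ∉ Loc w P.m κ := by
  rintro ⟨-, a, ha, e, he, h1, h2⟩
  refine h.lo v hv a ha ?_
  have h3 := (h.fst a ha).2.1 e he
  have hf := hid_mod hP hv
  rw [h1, h2] at h3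
  unfold tha at h3
  rw [if_neg hf] at h3
  have h4 : nar (gam w ω P.H) (hid w P v) v.2 = e := by
    unfold nar
    rw [gam_fixed ω P.H hf]
    refine Prod.ext h1.symm (Prod.ext h2.symm ?_)
    rw [← h3]
    rfl
  rw [h4]
  exact he

/-- extension of the partners to all pairs -/
def cx {U : Finset (ℕ × X)} (c : U → X) : ℕ × X → X :=
  fun v => if h : v ∈ U then c ⟨v, h⟩ else v.2

theorem cx_eq {U : Finset (ℕ × X)} (c : U → X) {v : ℕ × X} (h : v ∈ U) : cx c v = c ⟨v, h⟩ := by
  unfold cx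
  rw [dif_pos h]

end LuckAux

open InjAux LuckAux

open scoped Classical in
theorem luck {X : Type} [Fintype X] [DecidableEq X] {w K K' t₀ T c : ℕ} {KK : Set (Finset (Arc X))}
    {rk : Finset (Arc X) → ℕ} {enc : Finset (Arc X) → Arc X → ℕ} {P : Pat X} {xA : ℕ × X → X}
    (hP : P.OK K' w) (hK : K = K' * (w + 1)) (hrk : Function.Injective rk)
    (henc : ∀ κ ∈ KK, ∀ e ∈ κ, ∀ e' ∈ κ, enc κ e = enc κ e' → e = e')
    (hKK : ∀ κ ∈ KK, κ.card ≤ t₀ ∧ ∀ e ∈ κ, e.1 < K)
    (hT : 2 * (t₀ * P.m) ≤ T) (hT1 : 1 ≤ T) (hc : t₀ * P.m + P.U.card ≤ c) :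
    (univ.filter fun ω : Fin K → Equiv.Perm X =>
        ∃ κ, Ev w KK rk enc P xA (ext K ω) κ).card * (Fintype.card X - c) ^ P.U.card ≤
      2 * T ^ (2 * P.U.card) * Fintype.card (Equiv.Perm X) ^ K := by
  set E : Finset (Fin K → Equiv.Perm X) := univ.filter fun ω : Fin K → Equiv.Perm X =>
        ∃ κ, Ev w KK rk enc P xA (ext K ω) κ with hE
  have hex : ∀ ω : Fin K → Equiv.Perm X, ∃ κ, ω ∈ E → Ev w KK rk enc P xA (ext K ω) κ := by
    intro ω
    by_cases h : ω ∈ E
    · obtain ⟨κ, hκ⟩ := (mem_filter.1 h).2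
      exact ⟨κ, fun _ => hκ⟩
    · exact ⟨fun _ => ∅, fun h' => absurd h' h⟩
  choose κ hκ using hex
  -- the allowed partners
  let Cv : (Fin K → Equiv.Perm X) → P.U → Finset X := fun ω v =>
    univ.filter fun x => (hid w P v.1, x) ∉ Loc w P.m (κ ω) ∧
      ∀ u ∈ P.U, x ≠ gam w (ext K ω) P.H (hid w P v.1) u.2
  let Fs : (Fin K → Equiv.Perm X) → (P.U → X) → Finset (Fin K × X → Fin T) := fun ω c' =>
    univ.filter fun F => Fre w P ω (κ ω) (cx c') F
  have hcard : ∀ ω ∈ E, ∀ a < P.m, (κ ω a).card ≤ t₀ := fun ω hω a ha =>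
    (hKK _ ((hκ ω hω).fst a ha).1).1
  have hCv : ∀ ω ∈ E, ∀ v, Fintype.card X - c ≤ (Cv ω v).card := by
    intro ω hω v
    have h1 : (univ : Finset X) ⊆ Cv ω v ∪
        ((univ.filter fun x => (hid w P v.1, x) ∈ Loc w P.m (κ ω)) ∪
          P.U.image fun u => gam w (ext K ω) P.H (hid w P v.1) u.2) := by
      intro x _
      by_cases h1 : (hid w P v.1, x) ∈ Loc w P.m (κ ω)
      · exact mem_union_right _ (mem_union_left _ (mem_filter.2 ⟨mem_univ _, h1⟩))
      by_cases h2 : ∀ u ∈ P.U, x ≠ gam w (ext K ω) P.H (hid w P v.1) u.2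
      · exact mem_union_left _ (mem_filter.2 ⟨mem_univ _, h1, h2⟩)
      · push Not at h2
        obtain ⟨u, hu, hux⟩ := h2
        exact mem_union_right _ (mem_union_right _ (mem_image.2 ⟨u, hu, hux.symm⟩))
    have h2 : (univ.filter fun x => (hid w P v.1, x) ∈ Loc w P.m (κ ω)).card ≤ t₀ * P.m := by
      have h3 := loc_card (hcard ω hω)
        ((univ.filter fun x => (hid w P v.1, x) ∈ Loc w P.m (κ ω)).image
          fun x => (hid w P v.1, x)) (by
          intro l hl
          obtain ⟨x, hx, rfl⟩ := mem_image.1 hl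
          exact (mem_filter.1 hx).2)
      rw [card_image_of_injective _ (fun x y hxy => (Prod.ext_iff.1 hxy).2)] at h3
      exact h3
    have h3 : (P.U.image fun u => gam w (ext K ω) P.H (hid w P v.1) u.2).card ≤ P.U.card :=
      card_image_le
    have h4 := card_le_card h1
    rw [card_univ] at h4
    have h5 := card_union_le (Cv ω v)
      ((univ.filter fun x => (hid w P v.1, x) ∈ Loc w P.m (κ ω)) ∪
          P.U.image fun u => gam w (ext K ω) P.H (hid w P v.1) u.2)
    have h6 := card_union_le (univ.filter fun x => (hid w P v.1, x) ∈ Loc w P.m (κ ω))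
      (P.U.image fun u => gam w (ext K ω) P.H (hid w P v.1) u.2)
    omega
  have hpi : ∀ ω ∈ E, (Fintype.card X - c) ^ P.U.card ≤
      (Fintype.piFinset (Cv ω)).card := by
    intro ω hω
    rw [Fintype.card_piFinset]
    calc (Fintype.card X - c) ^ P.U.card = ∏ _v : P.U, (Fintype.card X - c) := by
          rw [prod_const, card_univ, Fintype.card_coe]
      _ ≤ ∏ v : P.U, (Cv ω v).card := prod_le_prod' fun v _ => hCv ω hω v
  -- many freezings
  have hFs : ∀ ω ∈ E, ∀ c' ∈ Fintype.piFinset (Cv ω),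
      T ^ Fintype.card (Fin K × X) ≤ 2 * T ^ (2 * P.U.card) * (Fs ω c').card := by
    intro ω hω c' hc'
    rw [Fintype.mem_piFinset] at hc'
    let A : Finset (Fin K × X) := univ.filter fun l => ((l.1 : ℕ), l.2) ∈ Loc w P.m (κ ω)
    let B : Finset (Fin K × X) :=
      (univ.image fun v : P.U => ((⟨hid w P v.1, hid_lt hP hK v.2⟩ : Fin K),
        gam w (ext K ω) P.H (hid w P v.1) v.1.2)) ∪
      (univ.image fun v : P.U => ((⟨hid w P v.1, hid_lt hP hK v.2⟩ : Fin K), c' v))
    have hA : A.card ≤ t₀ * P.m := by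
      have h3 := loc_card (hcard ω hω) (A.image fun l => ((l.1 : ℕ), l.2)) (by
          intro l hl
          obtain ⟨x, hx, rfl⟩ := mem_image.1 hl
          exact (mem_filter.1 hx).2)
      rw [card_image_of_injective _ (fun x y hxy => by
        rw [Prod.ext_iff] at hxy
        exact Prod.ext (Fin.ext hxy.1) hxy.2)] at h3
      exact h3
    have hB : B.card ≤ 2 * P.U.card := by
      have h1 : (univ.image fun v : P.U => ((⟨hid w P v.1, hid_lt hP hK v.2⟩ : Fin K),
        gam w (ext K ω) P.H (hid w P v.1) v.1.2)).card ≤ P.U.card := by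
        refine card_image_le.trans ?_
        rw [card_univ, Fintype.card_coe]
      have h2 : (univ.image fun v : P.U =>
          ((⟨hid w P v.1, hid_lt hP hK v.2⟩ : Fin K), c' v)).card ≤ P.U.card := by
        refine card_image_le.trans ?_
        rw [card_univ, Fintype.card_coe]
      have h3 := card_union_le (univ.image fun v : P.U =>
        ((⟨hid w P v.1, hid_lt hP hK v.2⟩ : Fin K), gam w (ext K ω) P.H (hid w P v.1) v.1.2))
        (univ.image fun v : P.U => ((⟨hid w P v.1, hid_lt hP hK v.2⟩ : Fin K), c' v))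
      show (_ ∪ _ : Finset (Fin K × X)).card ≤ _
      omega
    have hAB : Disjoint A B := by
      rw [disjoint_left]
      intro l hl hlB
      have hl' := (mem_filter.1 hl).2
      rcases mem_union.1 hlB with h | h
      · obtain ⟨v, -, rfl⟩ := mem_image.1 h
        exact hid_not_loc hP (hκ ω hω) v.2 hl'
      · obtain ⟨v, -, rfl⟩ := mem_image.1 h
        exact ((mem_filter.1 (hc' v)).2).1 hl'
    have h := freeze_card T (t₀ * P.m) (2 * P.U.card) A B hAB hA hB hT hT1
    refine h.trans (Nat.mul_le_mul_left _ (card_le_card ?_))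
    intro F hF
    obtain ⟨-, hFA, hFB⟩ := mem_filter.1 hF
    refine mem_filter.2 ⟨mem_univ _, ⟨?_, ?_, ?_, ?_⟩⟩
    · intro j x hjx
      exact hFA _ (mem_filter.2 ⟨mem_univ _, hjx⟩)
    · intro v hv j hj
      have e : j = ⟨hid w P v, hid_lt hP hK hv⟩ := Fin.ext hj
      subst e
      exact hFB _ (mem_union_left _ (mem_image.2 ⟨⟨v, hv⟩, mem_univ _, rfl⟩))
    · intro v hv j hj
      have e : j = ⟨hid w P v, hid_lt hP hK hv⟩ := Fin.ext hj
      subst e
      rw [cx_eq c' hv]
      exact hFB _ (mem_union_right _ (mem_image.2 ⟨⟨v, hv⟩, mem_univ _, rfl⟩))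
    · intro v hv u hu _
      rw [cx_eq c' hv]
      exact ((mem_filter.1 (hc' ⟨v, hv⟩)).2).2 u hu
  -- the triples
  let S := E.sigma fun ω => (Fintype.piFinset (Cv ω)).sigma fun c' => Fs ω c'
  have hS1 : E.card * (Fintype.card X - c) ^ P.U.card * T ^ Fintype.card (Fin K × X) ≤
      2 * T ^ (2 * P.U.card) * S.card := by
    have e1 : S.card = ∑ ω ∈ E, ∑ c' ∈ Fintype.piFinset (Cv ω), (Fs ω c').card := by
      show (E.sigma _).card = _
      rw [card_sigma]
      exact sum_congr rfl fun ω _ => card_sigma _ _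
    rw [e1, mul_sum]
    calc E.card * (Fintype.card X - c) ^ P.U.card * T ^ Fintype.card (Fin K × X)
        = ∑ _ω ∈ E, (Fintype.card X - c) ^ P.U.card * T ^ Fintype.card (Fin K × X) := by
          rw [sum_const, smul_eq_mul, mul_assoc]
      _ ≤ ∑ ω ∈ E, 2 * T ^ (2 * P.U.card) *
            ∑ c' ∈ Fintype.piFinset (Cv ω), (Fs ω c').card := by
          refine sum_le_sum fun ω hω => ?_
          rw [mul_sum]
          calc (Fintype.card X - c) ^ P.U.card * T ^ Fintype.card (Fin K × X)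
              ≤ (Fintype.piFinset (Cv ω)).card * T ^ Fintype.card (Fin K × X) :=
                Nat.mul_le_mul_right _ (hpi ω hω)
            _ = ∑ _c' ∈ Fintype.piFinset (Cv ω), T ^ Fintype.card (Fin K × X) := by
                rw [sum_const, smul_eq_mul]
            _ ≤ _ := sum_le_sum fun c' hc' => hFs ω hω c' hc'
  have hS2 : S.card ≤ Fintype.card (Equiv.Perm X) ^ K * T ^ Fintype.card (Fin K × X) := by
    have h1 : S.card ≤ (univ : Finset ((Fin K → Equiv.Perm X) × (Fin K × X → Fin T))).card := by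
      apply card_le_card_of_injOn (fun z => (mdf w P z.1 (cx z.2.1), z.2.2))
        (fun z _ => mem_coe.2 (mem_univ _))
      rintro ⟨ω₁, c₁, F₁⟩ hz₁ ⟨ω₂, c₂, F₂⟩ hz₂ h
      rw [mem_coe, mem_sigma, mem_sigma] at hz₁ hz₂
      obtain ⟨hω₁, hc₁, hF₁⟩ := hz₁
      obtain ⟨hω₂, hc₂, hF₂⟩ := hz₂
      rw [Prod.ext_iff] at h
      obtain ⟨hm, hF⟩ := h
      have hF' : F₁ = F₂ := hF
      subst hF'
      obtain ⟨e1, e2⟩ := mdf_inj hP hK hrk henc (fun κ' hκ' => (hKK κ' hκ').2) (hκ ω₁ hω₁)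
        (hκ ω₂ hω₂) (mem_filter.1 hF₁).2 (mem_filter.1 hF₂).2 hm
      have e1' : ω₁ = ω₂ := e1
      subst e1'
      have e2' : c₁ = c₂ := by
        funext v
        have := e2 v.1 v.2
        rw [cx_eq c₁ v.2, cx_eq c₂ v.2] at this
        exact this
      subst e2'
      rfl
    refine h1.trans (le_of_eq ?_)
    rw [card_univ, Fintype.card_prod, Fintype.card_fun, Fintype.card_fun, Fintype.card_fin,
      Fintype.card_fin]
  have hpos : 0 < T ^ Fintype.card (Fin K × X) := Nat.pow_pos hT1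
  refine Nat.le_of_mul_le_mul_right ?_ hpos
  calc E.card * (Fintype.card X - c) ^ P.U.card * T ^ Fintype.card (Fin K × X)
      ≤ 2 * T ^ (2 * P.U.card) * S.card := hS1
    _ ≤ 2 * T ^ (2 * P.U.card) *
        (Fintype.card (Equiv.Perm X) ^ K * T ^ Fintype.card (Fin K × X)) :=
        Nat.mul_le_mul_left _ hS2
    _ = 2 * T ^ (2 * P.U.card) * Fintype.card (Equiv.Perm X) ^ K *
        T ^ Fintype.card (Fin K × X) := by ring

end P28ip
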