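import Mathlib

/-!
# Module P28ip.Supp : functions with small support

PROOF.  Every `a : J → Option A` with at most `M` points of support comes from a list of `M` elements of `Option (J × A)`: the map
`Φ : (Fin M → Option (J × A)) → (J → Option A)`, `Φ l j = some b` if `l i = some (j, b)` for some `i` (choose one), else `none`, hits all of them
(enumerate the support).  So their number is at most the number of all `l`, `(|J| |A| + 1)^M`.
-/

set_option autoImplicit false

namespace P28ip

open Finset

namespace SuppAux

/-- the function with the values listed in `l` -/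
noncomputable def Phi {J A : Type} {M : ℕ} (l : Fin M → Option (J × A)) : J → Option A :=
  fun j => by
    classical
    exact if h : ∃ b : A, ∃ i : Fin M, l i = some (j, b) then some h.choose else none

theorem Phi_eq {J A : Type} {M : ℕ} (l : Fin M → Option (J × A)) (a : J → Option A)
    (h1 : ∀ i j b, l i = some (j, b) → a j = some b)
    (h2 : ∀ j b, a j = some b → ∃ i, l i = some (j, b)) : Phi l = a := by
  classical
  funext j
  unfold Phi
  split_ifs with h
  · obtain ⟨i, hi⟩ := h.choose_spec
    exact (h1 i j _ hi).symm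
  · cases ha : a j with
    | none => rfl
    | some b =>
      obtain ⟨i, hi⟩ := h2 j b ha
      exact absurd ⟨b, i, hi⟩ h

theorem ex {J A : Type} [Fintype J] [DecidableEq J] [DecidableEq A] (M : ℕ) (a : J → Option A)
    (h : (univ.filter fun j => a j ≠ none).card ≤ M) :
    ∃ l : Fin M → Option (J × A), Phi l = a := by
  classical
  obtain ⟨S, hS⟩ : ∃ S, S = univ.filter fun j => a j ≠ none := ⟨_, rfl⟩
  rw [← hS] at h
  refine ⟨fun i => if hi : i.1 < S.card then
    (a (S.equivFin.symm ⟨i.1, hi⟩).1).map (fun b => ((S.equivFin.symm ⟨i.1, hi⟩).1, b)) else none,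
    Phi_eq _ _ ?_ ?_⟩
  · intro i j b hij
    split_ifs at hij with hi
    rw [Option.map_eq_some_iff] at hij
    obtain ⟨b', hb', hp⟩ := hij
    rw [Prod.mk.injEq] at hp
    rw [← hp.1, ← hp.2]
    exact hb'
  · intro j b hj
    have hjS : j ∈ S := by
      rw [hS, mem_filter]
      exact ⟨mem_univ _, by rw [hj]; simp⟩
    have hlt : (S.equivFin ⟨j, hjS⟩).1 < M := lt_of_lt_of_le (S.equivFin ⟨j, hjS⟩).2 h
    refine ⟨⟨(S.equivFin ⟨j, hjS⟩).1, hlt⟩, ?_⟩
    rw [dif_pos (S.equivFin ⟨j, hjS⟩).2]
    have e : S.equivFin.symm ⟨(S.equivFin ⟨j, hjS⟩).1, (S.equivFin ⟨j, hjS⟩).2⟩ = ⟨j, hjS⟩ := by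
      rw [Fin.eta, Equiv.symm_apply_apply]
    rw [e]
    simp [hj]

end SuppAux

open SuppAux in
theorem supp_card {J A : Type} [Fintype J] [DecidableEq J] [Fintype A] [DecidableEq A] (M : ℕ) :
    (univ.filter fun a : J → Option A => (univ.filter fun j => a j ≠ none).card ≤ M).card ≤
      (Fintype.card J * Fintype.card A + 1) ^ M := by
  classical
  have hsub : (univ.filter fun a : J → Option A => (univ.filter fun j => a j ≠ none).card ≤ M) ⊆
      univ.image (Phi : (Fin M → Option (J × A)) → J → Option A) := by
    intro a ha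
    rw [mem_filter] at ha
    obtain ⟨l, hl⟩ := ex M a ha.2
    exact mem_image.2 ⟨l, mem_univ _, hl⟩
  refine (card_le_card hsub).trans (card_image_le.trans (le_of_eq ?_))
  rw [card_univ, Fintype.card_fun, Fintype.card_option, Fintype.card_prod, Fintype.card_fin]

end P28ip
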