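import Mathlib
import Pool.Agent.Lib.P28ip.Code
import Pool.Agent.Lib.P28ip.Luck
import Pool.Agent.Lib.P28ip.Supp

/-!
# Module P28ip.Union : the union bound

`Bad ω0`: for some `h` (moving only points of `Y`) no certificate of `KK` holds in the configuration with gauge
`prd (ext K ω0)`, but this is not certified by at most `2 (s - 1)` values of `h`.

PROOF.  `M₁ = s - 1 + t₀`, `N = card X`, `q = N - c`, `Q = card (Perm X)`.  Let `ω0` be bad.  `chain_main` (with `γ = prd (ext K ω0)`) gives a state, `code` gives `m ≤ M₁`, labels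
`a` with support `≤ 2 M₁`, and `xA`, `κ'` such that the configuration `Φ ω0 = fun j => tht w (prd (ext K ω0)) H j` satisfies `Ev w KK rk enc (patOf a m) xA`; only the values of
`xA` on `V \ TT` matter, so `xA` may be replaced by a function that is a fixed value (say `γ`-free default: `xA' v = if v ∈ V \ TT then xA v else v.2`) outside `V \ TT`.  For fixed `m, a` the
map `Φ` is injective (`tht_inj`), so by `luck` (with `P.m = m ≤ M₁`, `|U| ≤ |V| ≤ 2 M₁`)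
`#{ω0 : Ev ..} * q^|U| ≤ 2 T^(2|U|) Q^K`.  `|U| = |V| - |V \ U| ≥ |V \ TT| + |TT| - |TT|/2 ≥ |V \ TT| + (s+1)/2`, `N ≤ 2 q`, `1 ≤ q`; the number of `xA` is `N^|V \ TT|`.  So for fixed
`m, a`: `#{ω0 : ∃ xA, Ev ..} * q^((s+1)/2) ≤ 2^(2M₁) q^|V \ TT| q^((s+1)/2) #.. ≤ 2^(2 M₁+1) T^(4 M₁) Q^K`.  Sum over `m ≤ M₁` and `a` (`supp_card`; the index type has
`K' * Y.card` elements).
-/

set_option autoImplicit false

namespace P28ip

open Finset

/-- the bad event -/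
def Bad {X : Type} [Fintype X] [DecidableEq X] (w K' s : ℕ) (Y : Finset X)
    (KK : Set (Finset (Arc X))) (γ : ℕ → Equiv.Perm X) : Prop :=
  ∃ h : ℕ → Equiv.Perm X, Sup Y h ∧ (∀ κ ∈ KK, ¬ Hold κ (fn (tht w γ h))) ∧
    ∀ D : Finset (ℕ × X), D.card ≤ 2 * (s - 1) → (∀ v ∈ D, v.1 < K' ∧ v.2 ∈ Y) →
      ∃ κ' ∈ KK, Con w Y γ h D κ'

namespace UnionAux

variable {X : Type} [Fintype X] [DecidableEq X]

/-- extension of the positions of the pairs in `S` -/
def xe {S : Finset (ℕ × X)} (f : S → X) : ℕ × X → X :=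
  fun v => if h : v ∈ S then f ⟨v, h⟩ else v.2

omit [Fintype X] in
theorem ev_xe {w : ℕ} {KK : Set (Finset (Arc X))} {rk : Finset (Arc X) → ℕ}
    {enc : Finset (Arc X) → Arc X → ℕ} {P : Pat X} {xA : ℕ × X → X} {ω : ℕ → Equiv.Perm X}
    {κ : ℕ → Finset (Arc X)} (h : Ev w KK rk enc P xA ω κ) :
    ∃ f : {v // v ∈ P.V \ P.TT} → X, Ev w KK rk enc P (xe f) ω κ := by
  refine ⟨fun v => xA v.1, ⟨h.fst, h.tt, ?_, h.lo, h.hi⟩⟩
  intro v hv hv'
  rw [h.aa v hv hv']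
  unfold xe
  rw [dif_pos (mem_sdiff.2 ⟨hv, hv'⟩)]

open scoped Classical in
theorem pat_count {w K K' t₀ s T c M : ℕ} {KK : Set (Finset (Arc X))}
    {rk : Finset (Arc X) → ℕ} {enc : Finset (Arc X) → Arc X → ℕ} {P : Pat X}
    (hK : K = K' * (w + 1)) (hKK : ∀ κ ∈ KK, κ.card ≤ t₀ ∧ ∀ e ∈ κ, e.1 < K)
    (hrk : Function.Injective rk)
    (henc' : ∀ κ ∈ KK, ∀ e ∈ κ, ∀ e' ∈ κ, enc κ e = enc κ e' → e = e')
    (hT1 : 1 ≤ T) (hT : 2 * (t₀ * M) ≤ T) (hc : t₀ * M + 2 * M ≤ c)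
    (hN : 2 * c ≤ Fintype.card X) (hN1 : 1 ≤ Fintype.card X)
    (hP : P.OK K' w) (hV : P.V.card ≤ 2 * M) (hm : P.m ≤ M) (hTT : s ≤ P.TT.card)
    (hU : 2 * (P.V \ P.U).card ≤ P.TT.card) :
    (univ.filter fun ω0 : Fin K → Equiv.Perm X =>
        ∃ xA κ, Ev w KK rk enc P xA
          (ext K fun j => tht w (prd (ext K ω0)) P.H j) κ).card *
        (Fintype.card X - c) ^ ((s + 1) / 2) ≤
      2 ^ (2 * M + 1) * T ^ (4 * M) * Fintype.card (Equiv.Perm X) ^ K := by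
  set E : Finset (Fin K → Equiv.Perm X) := univ.filter fun ω0 : Fin K → Equiv.Perm X =>
        ∃ xA κ, Ev w KK rk enc P xA
          (ext K fun j => tht w (prd (ext K ω0)) P.H j) κ with hE
  let Ef : ({v // v ∈ P.V \ P.TT} → X) → Finset (Fin K → Equiv.Perm X) := fun f =>
    univ.filter fun ω : Fin K → Equiv.Perm X => ∃ κ, Ev w KK rk enc P (xe f) (ext K ω) κ
  let Φ : (Fin K → Equiv.Perm X) → (Fin K → Equiv.Perm X) := fun ω0 j =>
    tht w (prd (ext K ω0)) P.H j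
  have hΦ : Function.Injective Φ := by
    intro ω ω' h
    refine tht_inj w P.H (fun j hj => ?_)
    exact congrFun h ⟨j, hj⟩
  have h1 : E.card ≤ ∑ f, (Ef f).card := by
    rw [← card_image_of_injective E hΦ]
    refine (card_le_card ?_).trans card_biUnion_le
    intro ω hω
    obtain ⟨ω0, h0, rfl⟩ := mem_image.1 hω
    obtain ⟨xA, κ, h2⟩ := (mem_filter.1 h0).2
    obtain ⟨f, h3⟩ := ev_xe h2
    exact mem_biUnion.2 ⟨f, mem_univ _, mem_filter.2 ⟨mem_univ _, κ, h3⟩⟩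
  have hUV : P.U.card ≤ P.V.card := card_le_card hP.usub
  have hTm : t₀ * P.m ≤ t₀ * M := Nat.mul_le_mul_left _ hm
  have h2 : ∀ f, (Ef f).card * (Fintype.card X - c) ^ P.U.card ≤
      2 * T ^ (2 * P.U.card) * Fintype.card (Equiv.Perm X) ^ K := fun f =>
    luck hP hK hrk henc' hKK (by omega) hT1 (by omega)
  have hcf : Fintype.card ({v // v ∈ P.V \ P.TT} → X) = Fintype.card X ^ (P.V \ P.TT).card := by
    rw [Fintype.card_fun, Fintype.card_coe]
  have h3 : E.card * (Fintype.card X - c) ^ P.U.card ≤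
      Fintype.card X ^ (P.V \ P.TT).card *
        (2 * T ^ (2 * P.U.card) * Fintype.card (Equiv.Perm X) ^ K) := by
    calc E.card * (Fintype.card X - c) ^ P.U.card
        ≤ (∑ f, (Ef f).card) * (Fintype.card X - c) ^ P.U.card := Nat.mul_le_mul_right _ h1
      _ = ∑ f, (Ef f).card * (Fintype.card X - c) ^ P.U.card := sum_mul _ _ _
      _ ≤ ∑ _f : {v // v ∈ P.V \ P.TT} → X,
            2 * T ^ (2 * P.U.card) * Fintype.card (Equiv.Perm X) ^ K :=
          sum_le_sum fun f _ => h2 f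
      _ = _ := by rw [sum_const, card_univ, hcf, smul_eq_mul]
  -- arithmetic
  obtain ⟨q, hq⟩ : ∃ q, q = Fintype.card X - c := ⟨_, rfl⟩
  obtain ⟨N, hNd⟩ : ∃ N, N = Fintype.card X := ⟨_, rfl⟩
  obtain ⟨Q, hQ⟩ : ∃ Q, Q = Fintype.card (Equiv.Perm X) ^ K := ⟨_, rfl⟩
  rw [← hq, ← hNd, ← hQ] at h3
  rw [← hq, ← hQ]
  have hNq : N ≤ 2 * q := by omega
  have hq1 : 1 ≤ q := by omega
  have c1 : (P.V \ P.U).card + P.U.card = P.V.card := card_sdiff_add_card_eq_card hP.usub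
  have c2 : (P.V \ P.TT).card + P.TT.card = P.V.card := card_sdiff_add_card_eq_card hP.tsub
  have hUb : (s + 1) / 2 + (P.V \ P.TT).card ≤ P.U.card := by omega
  have hd : (P.V \ P.TT).card ≤ 2 * M := by omega
  obtain ⟨d, hdd⟩ : ∃ d, d = (P.V \ P.TT).card := ⟨_, rfl⟩
  rw [← hdd] at hUb hd h3
  have h4 : N ^ d ≤ 2 ^ (2 * M) * q ^ d := by
    calc N ^ d ≤ (2 * q) ^ d := Nat.pow_le_pow_left hNq d
      _ = 2 ^ d * q ^ d := mul_pow _ _ _
      _ ≤ 2 ^ (2 * M) * q ^ d := Nat.mul_le_mul_right _ (Nat.pow_le_pow_right (by norm_num) hd)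
  have h5 : T ^ (2 * P.U.card) ≤ T ^ (4 * M) := Nat.pow_le_pow_right hT1 (by omega)
  have h6 : (E.card * q ^ ((s + 1) / 2)) * q ^ d ≤
      (2 ^ (2 * M + 1) * T ^ (4 * M) * Q) * q ^ d := by
    calc (E.card * q ^ ((s + 1) / 2)) * q ^ d = E.card * q ^ ((s + 1) / 2 + d) := by
          rw [pow_add, mul_assoc]
      _ ≤ E.card * q ^ P.U.card :=
          Nat.mul_le_mul_left _ (Nat.pow_le_pow_right hq1 hUb)
      _ ≤ N ^ d * (2 * T ^ (2 * P.U.card) * Q) := h3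
      _ ≤ (2 ^ (2 * M) * q ^ d) * (2 * T ^ (4 * M) * Q) :=
          Nat.mul_le_mul h4 (Nat.mul_le_mul_right _ (Nat.mul_le_mul_left _ h5))
      _ = (2 ^ (2 * M + 1) * T ^ (4 * M) * Q) * q ^ d := by ring
  exact Nat.le_of_mul_le_mul_right h6 (Nat.pow_pos hq1)

end UnionAux

open UnionAux

open scoped Classical in
theorem bad_count {X : Type} [Fintype X] [DecidableEq X] {w K K' t₀ s T c : ℕ} {Y : Finset X}
    {KK : Set (Finset (Arc X))} {rk : Finset (Arc X) → ℕ} {enc : Finset (Arc X) → Arc X → ℕ}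
    (hK : K = K' * (w + 1)) (hw : 2 * t₀ ≤ w) (hw0 : 1 ≤ w) (hs1 : 1 ≤ s)
    (hKK : ∀ κ ∈ KK, κ.card ≤ t₀ ∧ ∀ e ∈ κ, e.1 < K) (hrk : Function.Injective rk)
    (henc : ∀ κ ∈ KK, ∀ e ∈ κ, enc κ e < t₀)
    (henc' : ∀ κ ∈ KK, ∀ e ∈ κ, ∀ e' ∈ κ, enc κ e = enc κ e' → e = e')
    (hT1 : 1 ≤ T) (hT : 2 * (t₀ * (s - 1 + t₀)) ≤ T)
    (hc : t₀ * (s - 1 + t₀) + 2 * (s - 1 + t₀) ≤ c) (hN : 2 * c ≤ Fintype.card X)
    (hN1 : 1 ≤ Fintype.card X) :
    (univ.filter fun ω0 : Fin K → Equiv.Perm X =>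
        Bad w K' s Y KK (prd (ext K ω0))).card * (Fintype.card X - c) ^ ((s + 1) / 2) ≤
      (s + t₀) * (K' * Y.card *
          (Y.card * (Y.card * ((s - 1 + t₀) * ((t₀ + 1) * (w + 1))))) + 1) ^ (2 * (s - 1 + t₀)) *
        (2 ^ (2 * (s - 1 + t₀) + 1) * T ^ (4 * (s - 1 + t₀))) *
        Fintype.card (Equiv.Perm X) ^ K := by
  classical
  obtain ⟨M, hM⟩ : ∃ M, M = s - 1 + t₀ := ⟨_, rfl⟩
  have hst : s + t₀ = M + 1 := by omega
  rw [← hM] at hT hc ⊢
  rw [hst]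
  obtain ⟨C, hC⟩ : ∃ C, C = 2 ^ (2 * M + 1) * T ^ (4 * M) * Fintype.card (Equiv.Perm X) ^ K :=
    ⟨_, rfl⟩
  set B : Finset (Fin K → Equiv.Perm X) := univ.filter fun ω0 : Fin K → Equiv.Perm X =>
        Bad w K' s Y KK (prd (ext K ω0)) with hB
  let S : Finset (Fin K' × {x // x ∈ Y} → Option (Att Y M t₀ w)) :=
    univ.filter fun a => (univ.filter fun j => a j ≠ none).card ≤ 2 * M
  let good : ℕ → (Fin K' × {x // x ∈ Y} → Option (Att Y M t₀ w)) → Prop := fun m a =>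
    (patOf a m).OK K' w ∧ s ≤ (patOf a m).TT.card ∧
      2 * ((patOf a m).V \ (patOf a m).U).card ≤ (patOf a m).TT.card
  let E : ℕ × (Fin K' × {x // x ∈ Y} → Option (Att Y M t₀ w)) → Finset (Fin K → Equiv.Perm X) :=
    fun z => univ.filter fun ω0 => good z.1 z.2 ∧ ∃ xA κ, Ev w KK rk enc (patOf z.2 z.1) xA
          (ext K fun j => tht w (prd (ext K ω0)) (patOf z.2 z.1).H j) κ
  have hsub : B ⊆ (range (M + 1) ×ˢ S).biUnion E := by
    intro ω0 hω
    obtain ⟨h, hh, hno, hD⟩ := (mem_filter.1 hω).2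
    obtain ⟨m, D, κ, ρ, TT, hS, hs, hs2⟩ := chain_main hK hKK hh hno hs1 hD
    have hcode := code hK hw hw0 hKK henc hh hS hs1 hs hs2
    rw [← hM] at hcode
    obtain ⟨hm, a, ha, hok, hTT, hU, xA, κ', hEv⟩ := hcode
    refine mem_biUnion.2 ⟨(m, a), mem_product.2 ⟨mem_range.2 (by omega), mem_filter.2
      ⟨mem_univ _, ?_⟩⟩, mem_filter.2 ⟨mem_univ _, ⟨hok, hTT, hU⟩, xA, κ', hEv⟩⟩
    convert ha
  have hE : ∀ z ∈ range (M + 1) ×ˢ S, (E z).card * (Fintype.card X - c) ^ ((s + 1) / 2) ≤ C := by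
    rintro ⟨m, a⟩ hz
    obtain ⟨hm, ha⟩ := mem_product.1 hz
    have hm' : m ≤ M := Nat.lt_succ_iff.1 (mem_range.1 hm)
    by_cases hg : good m a
    · obtain ⟨hok, hTT, hU⟩ := hg
      have hV : (patOf a m).V.card ≤ 2 * M := by
        refine card_image_le.trans ?_
        have h1 := (mem_filter.1 ha).2
        convert h1
      have h2 := pat_count hK hKK hrk henc' hT1 hT hc hN hN1 hok hV (show (patOf a m).m ≤ M from hm')
        hTT hU
      rw [← hC] at h2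
      refine le_trans (Nat.mul_le_mul_right _ (card_le_card ?_)) h2
      intro ω0 hω0
      exact mem_filter.2 ⟨mem_univ _, (mem_filter.1 hω0).2.2⟩
    · have h0 : E (m, a) = ∅ := by
        refine filter_eq_empty_iff.2 ?_
        intro ω0 _ h
        exact hg h.1
      rw [h0, card_empty, zero_mul]
      exact Nat.zero_le _
  have hScard : S.card ≤ (K' * Y.card *
          (Y.card * (Y.card * (M * ((t₀ + 1) * (w + 1))))) + 1) ^ (2 * M) := by
    have h1 := supp_card (J := Fin K' × {x // x ∈ Y}) (A := Att Y M t₀ w) (2 * M)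
    have h2 : Fintype.card (Fin K' × {x // x ∈ Y}) = K' * Y.card := by
      rw [Fintype.card_prod, Fintype.card_fin, Fintype.card_coe]
    have h3 : Fintype.card (Att Y M t₀ w) =
        Y.card * (Y.card * (M * ((t₀ + 1) * (w + 1)))) := by
      simp only [Att, Fintype.card_prod, Fintype.card_fin, Fintype.card_coe, Fintype.card_option]
    rw [h2, h3] at h1
    refine le_trans (le_of_eq ?_) h1
    congr 1
  calc B.card * (Fintype.card X - c) ^ ((s + 1) / 2)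
      ≤ (∑ z ∈ range (M + 1) ×ˢ S, (E z).card) * (Fintype.card X - c) ^ ((s + 1) / 2) :=
        Nat.mul_le_mul_right _ ((card_le_card hsub).trans card_biUnion_le)
    _ = ∑ z ∈ range (M + 1) ×ˢ S, (E z).card * (Fintype.card X - c) ^ ((s + 1) / 2) :=
        sum_mul _ _ _
    _ ≤ ∑ _z ∈ range (M + 1) ×ˢ S, C := sum_le_sum hE
    _ = (M + 1) * S.card * C := by
        rw [sum_const, card_product, card_range, smul_eq_mul]
    _ ≤ (M + 1) * (K' * Y.card *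
          (Y.card * (Y.card * (M * ((t₀ + 1) * (w + 1))))) + 1) ^ (2 * M) * C :=
        Nat.mul_le_mul_right _ (Nat.mul_le_mul_left _ hScard)
    _ = _ := by rw [hC]; ring

end P28ip
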