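import Mathlib
import Pool.Agent.Lib.P28ip.Union

/-!
# Module P28ip.Cert : certificates and changes of gauge

PROOFS.  `cert_comp` (also the first case of `cert_of_not_bad`): let `κ` be the certificate at `tht w γ (lif Y h)`.  The certificate at `h` consists of the
`(i, p, h i p)` for which `κ` has an arc with layer `al w i` and source `γ (al w i) p`, `p ∈ Y` (an image of a subset of `κ`, so at most `|κ|` arcs; `i < K'`).  If `h'` satisfies it then
`κ` holds in `tht w γ (lif Y h')`: fixed layers do not depend on `h`; in alive layers the name of the source is not in `Y` (fixed by both) or covered.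
`cert_of_not_bad`: `f (tht w γ (lif Y h)) = true`: `OneP` gives `κ`, continue as before.  `= false`: no `κ ∈ KKof` holds there.  `¬ Bad` for `lif Y h` (`Sup`) gives `D` with
`|D| ≤ 2 (s-1)` such that no `κ' ∈ KKof` is consistent with it; the certificate is `{(i, p, h i p) : (i, p) ∈ D}`: if `h'` satisfies it and `f (tht w γ (lif Y h')) = true` then by `OneP`
some `κ' ∈ KKof` holds there and `lif Y h'` is a witness for `Con`, contradiction.
-/

set_option autoImplicit false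

namespace P28ip

open Finset

variable {X : Type} [Fintype X] [DecidableEq X]

/-- the certificates for `f = true` -/
def KKof (K t₀ : ℕ) (f : (ℕ → Equiv.Perm X) → Bool) : Set (Finset (Arc X)) :=
  {κ | κ.card ≤ t₀ ∧ (∀ e ∈ κ, e.1 < K) ∧ ∀ ω, Hold κ (fn ω) → f ω = true}

theorem lif_sup (Y : Finset X) (h : ℕ → Equiv.Perm {x // x ∈ Y}) : Sup Y (lif Y h) := by
  intro i z hz
  exact Equiv.Perm.ofSubtype_apply_of_not_mem (h i) hz

namespace CertAux

theorem lif_mem {Y : Finset X} (h : ℕ → Equiv.Perm {x // x ∈ Y}) (i : ℕ) {z : X} (hz : z ∈ Y) :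
    lif Y h i z = (h i ⟨z, hz⟩ : X) :=
  Equiv.Perm.ofSubtype_apply_of_mem (h i) hz

/-- the value of the configuration in a fixed layer -/
theorem tht_fixed {w : ℕ} (γ h : ℕ → Equiv.Perm X) {j : ℕ} (hj : j % (w + 1) ≠ w) (x : X) :
    tht w γ h j x = γ (j + 1) ((γ j)⁻¹ x) := by
  simp only [tht, lft, if_neg hj, mul_one, Equiv.Perm.mul_apply]

/-- the value of the configuration in an alive layer -/
theorem tht_alive {w : ℕ} (γ h : ℕ → Equiv.Perm X) {j : ℕ} (hj : j % (w + 1) = w) (x : X) :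
    tht w γ h j x = γ (j + 1) (h (j / (w + 1)) ((γ j)⁻¹ x)) := by
  simp only [tht, lft, if_pos hj, Equiv.Perm.mul_apply]

/-- the arcs of `κ` in alive layers whose source has a name in `Y` -/
def act (w : ℕ) (Y : Finset X) (γ : ℕ → Equiv.Perm X) (κ : Finset (Arc X)) :
    Finset (Arc X) :=
  κ.filter fun e => (γ e.1)⁻¹ e.2.1 ∈ Y

theorem act_mem {w : ℕ} {Y : Finset X} {γ : ℕ → Equiv.Perm X} {κ : Finset (Arc X)}
    {e : Arc X} (he : e ∈ act w Y γ κ) : (γ e.1)⁻¹ e.2.1 ∈ Y :=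
  (mem_filter.1 he).2

/-- the certificate at `h` made from `κ` -/
def pull (w : ℕ) (Y : Finset X) (γ : ℕ → Equiv.Perm X) (κ : Finset (Arc X))
    (h : ℕ → Equiv.Perm {x // x ∈ Y}) : Finset (Arc {x // x ∈ Y}) :=
  (act w Y γ κ).attach.image fun e =>
    (e.1.1 / (w + 1), ⟨(γ e.1.1)⁻¹ e.1.2.1, act_mem e.2⟩,
      h (e.1.1 / (w + 1)) ⟨(γ e.1.1)⁻¹ e.1.2.1, act_mem e.2⟩)

theorem pull_card (w : ℕ) (Y : Finset X) (γ : ℕ → Equiv.Perm X) (κ : Finset (Arc X))
    (h : ℕ → Equiv.Perm {x // x ∈ Y}) : (pull w Y γ κ h).card ≤ κ.card := by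
  refine card_image_le.trans ?_
  rw [card_attach]
  exact card_filter_le _ _

theorem pull_lt {w K K' : ℕ} (hK : K = K' * (w + 1)) (Y : Finset X) (γ : ℕ → Equiv.Perm X)
    {κ : Finset (Arc X)} (hκ : ∀ e ∈ κ, e.1 < K) (h : ℕ → Equiv.Perm {x // x ∈ Y}) :
    ∀ e ∈ pull w Y γ κ h, e.1 < K' := by
  intro e he
  obtain ⟨e', -, rfl⟩ := mem_image.1 he
  have h1 : e'.1.1 < K := hκ _ (mem_filter.1 e'.2).1
  rw [hK, mul_comm] at h1
  exact Nat.div_lt_of_lt_mul h1

theorem pull_hold (w : ℕ) (Y : Finset X) (γ : ℕ → Equiv.Perm X) (κ : Finset (Arc X))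
    (h : ℕ → Equiv.Perm {x // x ∈ Y}) : Hold (pull w Y γ κ h) (fn h) := by
  intro e he
  obtain ⟨e', -, rfl⟩ := mem_image.1 he
  rfl

theorem pull_spec {w : ℕ} {Y : Finset X} {γ : ℕ → Equiv.Perm X} {κ : Finset (Arc X)}
    {h h' : ℕ → Equiv.Perm {x // x ∈ Y}} (hκ : Hold κ (fn (tht w γ (lif Y h))))
    (hp : Hold (pull w Y γ κ h) (fn h')) : Hold κ (fn (tht w γ (lif Y h'))) := by
  intro e he
  have h1 := hκ e he
  rw [← h1]
  simp only [fn]
  by_cases hj : e.1 % (w + 1) = w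
  · rw [tht_alive γ _ hj, tht_alive γ _ hj]
    by_cases hY : (γ e.1)⁻¹ e.2.1 ∈ Y
    · have he' : e ∈ act w Y γ κ := mem_filter.2 ⟨he, hY⟩
      have h2 := hp _ (mem_image.2 ⟨⟨e, he'⟩, mem_attach _ _, rfl⟩)
      simp only [fn] at h2
      rw [lif_mem _ _ hY, lif_mem _ _ hY, h2]
    · rw [lif_sup Y h _ _ hY, lif_sup Y h' _ _ hY]
  · rw [tht_fixed γ _ hj, tht_fixed γ _ hj]

/-- the values of `h` on `D` as a certificate -/
def vals (Y : Finset X) (D : Finset (ℕ × X)) (hD : ∀ v ∈ D, v.2 ∈ Y)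
    (h : ℕ → Equiv.Perm {x // x ∈ Y}) : Finset (Arc {x // x ∈ Y}) :=
  D.attach.image fun v => (v.1.1, ⟨v.1.2, hD _ v.2⟩, h v.1.1 ⟨v.1.2, hD _ v.2⟩)

end CertAux

open CertAux

theorem cert_comp {w K K' t₀ t : ℕ} {Y : Finset X} (hK : K = K' * (w + 1)) (ht : t₀ ≤ t)
    {f : (ℕ → Equiv.Perm X) → Bool} (hf : CertP K t₀ f) (γ : ℕ → Equiv.Perm X) :
    CertP K' t (fun h : ℕ → Equiv.Perm {x // x ∈ Y} => f (tht w γ (lif Y h))) := by
  intro h
  obtain ⟨κ, hc, hlt, hh, hf'⟩ := hf (tht w γ (lif Y h))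
  refine ⟨pull w Y γ κ h, (pull_card _ _ _ _ _).trans (hc.trans ht), pull_lt hK Y γ hlt h,
    pull_hold _ _ _ _ _, fun h' hh' => ?_⟩
  exact hf' _ (pull_spec hh hh')

theorem cert_of_not_bad {w K K' t₀ s t : ℕ} {Y : Finset X} (hK : K = K' * (w + 1))
    (ht : t₀ ≤ t) (hs : 2 * (s - 1) ≤ t) {f : (ℕ → Equiv.Perm X) → Bool} (hf : OneP K t₀ f)
    {γ : ℕ → Equiv.Perm X} (hγ : ¬ Bad w K' s Y (KKof K t₀ f) γ) :
    CertP K' t (fun h : ℕ → Equiv.Perm {x // x ∈ Y} => f (tht w γ (lif Y h))) := by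
  intro h
  cases hfh : f (tht w γ (lif Y h)) with
  | true =>
    obtain ⟨κ, hc, hlt, hh, hf'⟩ := hf _ hfh
    refine ⟨pull w Y γ κ h, (pull_card _ _ _ _ _).trans (hc.trans ht), pull_lt hK Y γ hlt h,
      pull_hold _ _ _ _ _, fun h' hh' => ?_⟩
    simp only [hfh]
    exact hf' _ (pull_spec hh hh')
  | false =>
    have hno : ∀ κ ∈ KKof K t₀ f, ¬ Hold κ (fn (tht w γ (lif Y h))) := by
      intro κ hκ hh
      have h1 := hκ.2.2 _ hh
      rw [hfh] at h1
      exact Bool.false_ne_true h1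
    have hex : ∃ D : Finset (ℕ × X), D.card ≤ 2 * (s - 1) ∧ (∀ v ∈ D, v.1 < K' ∧ v.2 ∈ Y) ∧
        ∀ κ' ∈ KKof K t₀ f, ¬ Con w Y γ (lif Y h) D κ' := by
      by_contra hcon
      push Not at hcon
      exact hγ ⟨lif Y h, lif_sup Y h, hno, fun D h1 h2 => hcon D h1 h2⟩
    obtain ⟨D, hD1, hD2, hD3⟩ := hex
    have hDY : ∀ v ∈ D, v.2 ∈ Y := fun v hv => (hD2 v hv).2
    refine ⟨vals Y D hDY h, ?_, ?_, ?_, ?_⟩
    · refine card_image_le.trans ?_
      rw [card_attach]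
      exact hD1.trans hs
    · intro e he
      obtain ⟨v, -, rfl⟩ := mem_image.1 he
      exact (hD2 _ v.2).1
    · intro e he
      obtain ⟨v, -, rfl⟩ := mem_image.1 he
      rfl
    · intro h' hh'
      simp only [hfh]
      by_contra hne
      have htrue : f (tht w γ (lif Y h')) = true := by
        cases hv : f (tht w γ (lif Y h')) with
        | true => rfl
        | false => exact absurd hv hne
      obtain ⟨κ, hc, hlt, hh, hf'⟩ := hf _ htrue
      refine hD3 κ ⟨hc, hlt, hf'⟩ ⟨lif Y h', lif_sup Y h', fun v hv => ?_, hh⟩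
      have h2 := hh' _ (mem_image.2 ⟨⟨v, hv⟩, mem_attach _ _, rfl⟩)
      simp only [fn] at h2
      rw [lif_mem _ _ (hDY v hv), lif_mem _ _ (hDY v hv), h2]

end P28ip
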