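import Mathlib
import Pool.Agent.Lib.P28ip.Alg

/-!
# Module P28ip.Endp : the end point

The number of sequences of permutations whose product fixes `t`.
-/

set_option autoImplicit false

namespace P28ip

open Finset

namespace EndpAux

theorem prdC {X : Type} {ω ω' : ℕ → Equiv.Perm X} :
    ∀ j : ℕ, (∀ i, i < j → ω i = ω' i) → prd ω j = prd ω' j
  | 0, _ => rfl
  | j + 1, h => by
    have h1 := prdC j (fun i hi => h i (Nat.lt_succ_of_lt hi))
    change ω j * prd ω j = ω' j * prd ω' j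
    rw [h1, h j (Nat.lt_succ_self j)]

theorem extL {X : Type} {K : ℕ} (ω : Fin K → Equiv.Perm X) {j : ℕ} (h : j < K) :
    ext K ω j = ω ⟨j, h⟩ := dif_pos h

end EndpAux

open EndpAux

theorem end_count {X : Type} [Fintype X] [DecidableEq X] {K : ℕ} (hK : 1 ≤ K) (t : X) :
    Fintype.card (Equiv.Perm X) ^ K ≤ Fintype.card X *
      (univ.filter fun ω : Fin K → Equiv.Perm X => prd (ext K ω) K t = t).card := by
  obtain ⟨K0, rfl⟩ : ∃ K0, K = K0 + 1 := ⟨K - 1, by omega⟩
  obtain ⟨l, hl⟩ : ∃ l : Fin (K0 + 1), l = ⟨K0, Nat.lt_succ_self K0⟩ := ⟨_, rfl⟩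
  obtain ⟨Y, hY⟩ : ∃ Y : (Fin (K0 + 1) → Equiv.Perm X) → X,
      ∀ ω, Y ω = prd (ext (K0 + 1) ω) (K0 + 1) t := ⟨_, fun _ => rfl⟩
  obtain ⟨W, hW⟩ : ∃ W : (Fin (K0 + 1) → Equiv.Perm X) → (Fin (K0 + 1) → Equiv.Perm X),
      ∀ ω, W ω = Function.update ω l (Equiv.swap t (Y ω) * ω l) := ⟨_, fun _ => rfl⟩
  have key : ∀ ω, prd (ext (K0 + 1) (W ω)) (K0 + 1) t = t := by
    intro ω
    have h1 : prd (ext (K0 + 1) (W ω)) K0 = prd (ext (K0 + 1) ω) K0 := by
      apply prdC
      intro i hi
      have hi' : i < K0 + 1 := Nat.lt_succ_of_lt hi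
      rw [extL _ hi', extL _ hi', hW]
      apply Function.update_of_ne
      rw [hl]
      intro h
      have := congrArg Fin.val h
      simp only at this
      omega
    have h2 : prd (ext (K0 + 1) (W ω)) (K0 + 1) =
        ext (K0 + 1) (W ω) K0 * prd (ext (K0 + 1) (W ω)) K0 := rfl
    have h3 : prd (ext (K0 + 1) ω) (K0 + 1) =
        ext (K0 + 1) ω K0 * prd (ext (K0 + 1) ω) K0 := rfl
    have h4 : ext (K0 + 1) (W ω) K0 = Equiv.swap t (Y ω) * ext (K0 + 1) ω K0 := by
      rw [extL _ (Nat.lt_succ_self K0), extL _ (Nat.lt_succ_self K0), ← hl, hW,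
        Function.update_self]
    rw [h2, h1, h4, mul_assoc, ← h3, Equiv.Perm.mul_apply, ← hY, Equiv.swap_apply_right]
  have hcard : Fintype.card (Equiv.Perm X) ^ (K0 + 1) =
      (univ : Finset (Fin (K0 + 1) → Equiv.Perm X)).card := by
    rw [Finset.card_univ, Fintype.card_fun, Fintype.card_fin]
  have hcard2 : Fintype.card X *
      (univ.filter fun ω : Fin (K0 + 1) → Equiv.Perm X =>
        prd (ext (K0 + 1) ω) (K0 + 1) t = t).card =
      ((univ : Finset X) ×ˢ (univ.filter fun ω : Fin (K0 + 1) → Equiv.Perm X =>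
        prd (ext (K0 + 1) ω) (K0 + 1) t = t)).card := by
    rw [Finset.card_product, Finset.card_univ]
  rw [hcard, hcard2]
  refine Finset.card_le_card_of_injOn (fun ω => (Y ω, W ω)) ?_ ?_
  · intro ω _
    simp only [coe_product, coe_univ, coe_filter, mem_univ, true_and, Set.mem_prod, Set.mem_univ,
      Set.mem_ofPred_eq]
    exact key ω
  · intro ω _ ω' _ h
    have hy : Y ω = Y ω' := congrArg Prod.fst h
    have hw : W ω = W ω' := congrArg Prod.snd h
    funext j
    by_cases hj : j = l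
    · rw [hj]
      have h5 : W ω l = W ω' l := congrFun hw l
      rw [hW, hW, Function.update_self, Function.update_self, hy] at h5
      exact mul_left_cancel h5
    · have h5 : W ω j = W ω' j := congrFun hw j
      rw [hW, hW, Function.update_of_ne hj, Function.update_of_ne hj] at h5
      exact h5

end P28ip
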