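import Mathlib
import Pool.Agent.Lib.P28ip.Cert
import Pool.Agent.Lib.P28cd.Comp
import Pool.Agent.Lib.P28ip.Alg

/-!
# Module P28ip.Fam : families of gates

PROOFS as in P28cd.Comp (`fam_shift`, `fam_parts`).  `fam_step`: a gate of level `≤ 1` has a certificate by hypothesis; for `level g ≥ 2` the gate is a gate over
`{f ∘ θ | f ∈ T}`, `θ h = tht w γ (lif Y h)`; `f` with `CertP K t₀` stays with `CertP K' t` (`cert_comp`), gates of smaller level remain of smaller level
(`level g' < level g`, `level g ≥ 2`, so `level g' - 1 < level g - 1`).  `one_part`: `level g = 0`: `F g = val g`; `level g = 1`: all available functions have `CertP K t₀`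
(or are gates of level `0`, or negations); if `val g` is the OR then `val g` has `OneP`, if it is the AND then its negation is an OR of the negations.
`no_one_level`: `prd ω K s = t` for a suitable `ω` resp. `≠ t`.  (1) `level out = 0`: `CertP K t'`: at `ω = ` anything a certificate with at most `t' < K` arcs misses a layer `j < K`; change `ω j`
(multiply by a transposition) so that the value of `decide (prd ω K s = t)` changes (`|X| ≥ 2`); contradiction.  (2) `level out = 1`: the OR: take `ω` with value `true`; some function of `T`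
is true there and has a certificate, missing a layer; AND: take `ω` with value `false`.
-/

set_option autoImplicit false

namespace P28ip

open Finset

variable {X : Type} [Fintype X] [DecidableEq X]

/-- a family of gates; those of level `0` have certificates of size `t` -/
def FamP {S : ℕ} (K t : ℕ) (level : Fin S → ℕ) (val : Fin S → (ℕ → Equiv.Perm X) → Bool) :
    Prop :=
  (∀ g, level g = 0 → CertP K t (val g)) ∧
  (∀ g, level g ≠ 0 → ∃ T ⊆ P28cd.Avail {f | CertP K t f} level val (level g),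
    P28cd.IsGate T (val g))

namespace FamAux

theorem certP_oneP {K t : ℕ} {f : (ℕ → Equiv.Perm X) → Bool} (hf : CertP K t f) :
    OneP K t f := by
  intro ω hω
  obtain ⟨κ, h1, h2, h3, h4⟩ := hf ω
  exact ⟨κ, h1, h2, h3, fun ω' hω' => by rw [h4 ω' hω', hω]⟩

theorem oneP_or {K t : ℕ} {T : Set ((ℕ → Equiv.Perm X) → Bool)} (hT : ∀ f ∈ T, OneP K t f)
    {f : (ℕ → Equiv.Perm X) → Bool} (hf : ∀ ω, f ω = true ↔ ∃ h ∈ T, h ω = true) :
    OneP K t f := by
  intro ω hω
  obtain ⟨h, hh, hhω⟩ := (hf ω).1 hω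
  obtain ⟨κ, h1, h2, h3, h4⟩ := hT h hh ω hhω
  exact ⟨κ, h1, h2, h3, fun ω' hω' => (hf ω').2 ⟨h, hh, h4 ω' hω'⟩⟩

theorem prd_update (ω : ℕ → Equiv.Perm X) (j : ℕ) (K : ℕ) (hj : j < K) (τ : Equiv.Perm X) :
    ∃ π, prd (Function.update ω j π) K = τ * prd ω K := by
  induction K generalizing τ with
  | zero => exact absurd hj (Nat.not_lt_zero j)
  | succ K ih =>
    by_cases hjK : j = K
    · subst hjK
      refine ⟨τ * ω j, ?_⟩
      change Function.update ω j (τ * ω j) j * prd (Function.update ω j (τ * ω j)) j =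
        τ * (ω j * prd ω j)
      rw [Function.update_self, mul_assoc]
      congr 2
      exact prd_congr fun j' hj' => Function.update_of_ne (ne_of_lt hj') _ _
    · obtain ⟨π, hπ⟩ := ih (by omega) ((ω K)⁻¹ * τ * ω K)
      refine ⟨π, ?_⟩
      change Function.update ω j π K * prd (Function.update ω j π) K = τ * (ω K * prd ω K)
      rw [hπ, Function.update_of_ne (Ne.symm hjK)]
      group

/-- a short certificate does not fix whether `s` is connected to `t` -/
theorem flip {K t' : ℕ} (hX : 2 ≤ Fintype.card X) (hK : t' < K) (s t : X)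
    (ω : ℕ → Equiv.Perm X) (κ : Finset (Arc X)) (hc : κ.card ≤ t') (hh : Hold κ (fn ω)) :
    ∃ ω', Hold κ (fn ω') ∧ (prd ω' K s = t ↔ ¬ prd ω K s = t) := by
  obtain ⟨j, hj, hjκ⟩ : ∃ j ∈ range K, j ∉ κ.image Prod.fst := by
    by_contra hcon
    push Not at hcon
    have h1 : (range K).card ≤ (κ.image Prod.fst).card := card_le_card hcon
    rw [card_range] at h1
    have h2 : (κ.image Prod.fst).card ≤ κ.card := card_image_le
    omega
  have hupd : ∀ π, Hold κ (fn (Function.update ω j π)) := by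
    intro π e he
    have hne : e.1 ≠ j := fun h => hjκ (mem_image.2 ⟨e, he, h⟩)
    have h1 := hh e he
    simp only [fn] at h1 ⊢
    rw [Function.update_of_ne hne]
    exact h1
  have hne : ∃ y : X, (y = t ↔ ¬ prd ω K s = t) := by
    by_cases h : prd ω K s = t
    · have : Nontrivial X := Fintype.one_lt_card_iff_nontrivial.1 (by omega)
      obtain ⟨y, hy⟩ := exists_ne t
      exact ⟨y, by simp [h, hy]⟩
    · exact ⟨t, by simp [h]⟩
  obtain ⟨y, hy⟩ := hne
  obtain ⟨π, hπ⟩ := prd_update ω j K (mem_range.1 hj) (Equiv.swap (prd ω K s) y)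
  refine ⟨_, hupd π, ?_⟩
  rw [hπ, Equiv.Perm.mul_apply, Equiv.swap_apply_left]
  exact hy

theorem prd_lif (Y : Finset X) (h : ℕ → Equiv.Perm {x // x ∈ Y}) (j : ℕ) :
    prd (lif Y h) j = Equiv.Perm.ofSubtype (prd h j) := by
  induction j with
  | zero => exact (map_one _).symm
  | succ j ih =>
    change lif Y h j * prd (lif Y h) j = Equiv.Perm.ofSubtype (h j * prd h j)
    rw [map_mul, ih]
    rfl

end FamAux

open FamAux

theorem fam_step {S w K K' t₀ t : ℕ} {Y : Finset X} (hK : K = K' * (w + 1)) (ht : t₀ ≤ t)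
    {level : Fin S → ℕ} {val : Fin S → (ℕ → Equiv.Perm X) → Bool} (hF : FamP K t₀ level val)
    (γ : ℕ → Equiv.Perm X)
    (h1 : ∀ g, level g ≤ 1 →
      CertP K' t (fun h : ℕ → Equiv.Perm {x // x ∈ Y} => val g (tht w γ (lif Y h)))) :
    FamP K' t (fun g => level g - 1)
      (fun g (h : ℕ → Equiv.Perm {x // x ∈ Y}) => val g (tht w γ (lif Y h))) := by
  refine ⟨fun g hg => h1 g (by simp only at hg; omega), fun g hg => ?_⟩
  simp only at hg
  obtain ⟨T, hT, hgate⟩ := hF.2 g (by omega)
  refine ⟨_, ?_, P28cd.isGate_comp hgate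
    (fun h : ℕ → Equiv.Perm {x // x ∈ Y} => tht w γ (lif Y h))⟩
  rintro _ ⟨f, hf, rfl⟩
  rcases hT hf with hf | ⟨g', hg', rfl | rfl⟩
  · exact Or.inl (cert_comp hK ht hf γ)
  · exact Or.inr ⟨g', by simp only; omega, Or.inl rfl⟩
  · exact Or.inr ⟨g', by simp only; omega, Or.inr rfl⟩

theorem certP_not {K t : ℕ} {f : (ℕ → Equiv.Perm X) → Bool} (hf : CertP K t f) :
    CertP K t (fun ω => !f ω) := by
  intro ω
  obtain ⟨κ, h1, h2, h3, h4⟩ := hf ω
  exact ⟨κ, h1, h2, h3, fun ω' hω' => by simp only [h4 ω' hω']⟩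

theorem one_part {S K t₀ : ℕ} {level : Fin S → ℕ} {val : Fin S → (ℕ → Equiv.Perm X) → Bool}
    (hF : FamP K t₀ level val) :
    ∃ F : Fin S → (ℕ → Equiv.Perm X) → Bool, (∀ g, OneP K t₀ (F g)) ∧
      ∀ g, level g ≤ 1 → (F g = val g ∨ F g = fun ω => !val g ω) := by
  have h1 : ∀ g, ∃ F : (ℕ → Equiv.Perm X) → Bool, OneP K t₀ F ∧
      (level g ≤ 1 → (F = val g ∨ F = fun ω => !val g ω)) := by
    intro g
    by_cases hg0 : level g = 0
    · exact ⟨val g, certP_oneP (hF.1 g hg0), fun _ => Or.inl rfl⟩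
    by_cases hg : level g ≤ 1
    · obtain ⟨T, hT, hgate⟩ := hF.2 g hg0
      have hcert : ∀ h ∈ T, CertP K t₀ h := by
        intro h hh
        rcases hT hh with h2 | ⟨g', hg', rfl | rfl⟩
        · exact h2
        · exact hF.1 g' (by omega)
        · exact certP_not (hF.1 g' (by omega))
      rcases hgate with hgate | hgate
      · refine ⟨fun ω => !val g ω, ?_, fun _ => Or.inr rfl⟩
        apply oneP_or (T := {h' | ∃ h ∈ T, h' = fun ω => !h ω})
        · rintro _ ⟨h, hh, rfl⟩
          exact certP_oneP (certP_not (hcert h hh))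
        · intro ω
          rw [Bool.not_eq_true', ← Bool.not_eq_true, hgate ω]
          push Not
          constructor
          · rintro ⟨h, hh, hx⟩
            exact ⟨_, ⟨h, hh, rfl⟩, by simpa using hx⟩
          · rintro ⟨_, ⟨h, hh, rfl⟩, hx⟩
            exact ⟨h, hh, by simpa using hx⟩
      · exact ⟨val g, oneP_or (fun h hh => certP_oneP (hcert h hh)) hgate,
          fun _ => Or.inl rfl⟩
    · exact ⟨fun _ => false, fun ω hω => absurd hω (by simp), fun h => absurd h hg⟩
  choose F hF1 hF2 using h1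
  exact ⟨F, hF1, hF2⟩

/-- with gates of level at most `1` reachability in more than `t'` layers is not decided -/
theorem no_one_level {S K t' : ℕ} (hX : 2 ≤ Fintype.card X) (hK : t' < K)
    {level : Fin S → ℕ} {val : Fin S → (ℕ → Equiv.Perm X) → Bool} (hF : FamP K t' level val)
    (out : Fin S) (hout : level out ≤ 1) (s t : X)
    (h : ∀ ω, val out ω = decide (prd ω K s = t)) : False := by
  have hval : ∀ ω, val out ω = true ↔ prd ω K s = t := by
    intro ω
    rw [h ω]
    simp
  have hno : ∀ f : (ℕ → Equiv.Perm X) → Bool, CertP K t' f → ∀ ω, ∃ ω', f ω' = f ω ∧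
      (prd ω' K s = t ↔ ¬ prd ω K s = t) := by
    intro f hf ω
    obtain ⟨κ, h1, -, h3, h4⟩ := hf ω
    obtain ⟨ω', h5, h6⟩ := flip hX hK s t ω κ h1 h3
    exact ⟨ω', h4 ω' h5, h6⟩
  by_cases h0 : level out = 0
  · obtain ⟨ω', h1, h2⟩ := hno _ (hF.1 out h0) 1
    rw [← hval, ← hval, h1] at h2
    exact iff_not_self h2
  have hboth : ∀ b : Prop, ∃ ω : ℕ → Equiv.Perm X, (prd ω K s = t ↔ b) := by
    intro b
    by_cases hb : (prd (1 : ℕ → Equiv.Perm X) K s = t ↔ b)
    · exact ⟨1, hb⟩
    · obtain ⟨ω', -, h6⟩ := flip hX hK s t 1 ∅ (Nat.zero_le _) (fun e he => absurd he (by simp))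
      exact ⟨ω', by tauto⟩
  obtain ⟨T, hT, hgate⟩ := hF.2 out h0
  have hcert : ∀ h ∈ T, CertP K t' h := by
    intro h hh
    rcases hT hh with h2 | ⟨g', hg', rfl | rfl⟩
    · exact h2
    · exact hF.1 g' (by omega)
    · exact certP_not (hF.1 g' (by omega))
  rcases hgate with hgate | hgate
  · obtain ⟨ω, hω⟩ := hboth False
    have h1 : ¬ ∀ f ∈ T, f ω = true := by
      rw [← hgate, hval]
      exact fun hc => hω.1 hc
    push Not at h1
    obtain ⟨f, hf, hfω⟩ := h1
    obtain ⟨ω', h2, h3⟩ := hno f (hcert f hf) ω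
    have h4 : val out ω' = true := (hval ω').2 (h3.2 hω.1)
    exact hfω (h2 ▸ (hgate ω').1 h4 f hf)
  · obtain ⟨ω, hω⟩ := hboth True
    have hω' : prd ω K s = t := hω.2 trivial
    obtain ⟨f, hf, hfω⟩ := (hgate ω).1 ((hval ω).2 hω')
    obtain ⟨ω', h2, h3⟩ := hno f (hcert f hf) ω
    have h4 : val out ω' = true := (hgate ω').2 ⟨f, hf, h2.trans hfω⟩
    exact h3.1 ((hval ω').1 h4) hω'

/-- reachability after a change of gauge -/
theorem reach_comp {w K K' : ℕ} {Y : Finset X} (hK : K = K' * (w + 1))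
    {γ : ℕ → Equiv.Perm X} (h0 : γ 0 = 1) (s t : {x // x ∈ Y}) (ht : γ K t = t)
    (h : ℕ → Equiv.Perm {x // x ∈ Y}) :
    prd (tht w γ (lif Y h)) K s = t ↔ prd h K' s = t := by
  subst hK
  rw [prd_tht, h0, inv_one, mul_one, prd_lif, Equiv.Perm.mul_apply,
    Equiv.Perm.ofSubtype_apply_coe]
  constructor
  · intro h1
    apply Subtype.ext
    apply (γ (K' * (w + 1))).injective
    rw [h1, ht]
  · intro h1
    rw [h1, ht]

end P28ip
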