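import Mathlib
import Pool.Agent.Lib.P28ip.Cert
import Pool.Agent.Lib.P28ip.Endp

/-!
# Module P28ip.Stage : one stage for a family of functions

PROOF.  `rk` = any injective function `Finset (Arc X) → ℕ` (`Encodable`; the type is countable), `enc κ` = an injection of `κ` into `ℕ` with values `< κ.card` on `κ`
(`Finset.equivFin`).  `bad_count` for each `KKof K t₀ (F i)`.  If every `ω0` with `prd (ext K ω0) K tp = tp` were bad for some `i` then by `end_count`
`Q^K q^e ≤ |X| ∑ i, #Bad_i q^e ≤ |X| S Z Q^K`, so `q^e ≤ S |X| Z`, against `hnum`.  `γ = prd (ext K ω0)`, `γ 0 = 1`, and `cert_of_not_bad`.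
-/

set_option autoImplicit false

namespace P28ip

open Finset

/-- the factor in the union bound -/
def Zf (K' ℓ t₀ s w T : ℕ) : ℕ :=
  (s + t₀) * (K' * ℓ * (ℓ * (ℓ * ((s - 1 + t₀) * ((t₀ + 1) * (w + 1))))) + 1) ^
      (2 * (s - 1 + t₀)) * (2 ^ (2 * (s - 1 + t₀) + 1) * T ^ (4 * (s - 1 + t₀)))

theorem stage {X : Type} [Fintype X] [DecidableEq X] {w K K' t₀ s t T c S : ℕ} {Y : Finset X}
    (hK : K = K' * (w + 1)) (hK1 : 1 ≤ K') (hw : 2 * t₀ ≤ w) (hw0 : 1 ≤ w) (hs1 : 1 ≤ s)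
    (ht : t₀ ≤ t) (hst : 2 * (s - 1) ≤ t) (hT1 : 1 ≤ T) (hT : 2 * (t₀ * (s - 1 + t₀)) ≤ T)
    (hc : t₀ * (s - 1 + t₀) + 2 * (s - 1 + t₀) ≤ c) (hN : 2 * c ≤ Fintype.card X)
    (hN1 : 1 ≤ Fintype.card X)
    (hnum : S * Fintype.card X * Zf K' Y.card t₀ s w T <
      (Fintype.card X - c) ^ ((s + 1) / 2))
    (tp : X) (F : Fin S → (ℕ → Equiv.Perm X) → Bool) (hF : ∀ i, OneP K t₀ (F i)) :
    ∃ γ : ℕ → Equiv.Perm X, γ 0 = 1 ∧ γ K tp = tp ∧ ∀ i,
      CertP K' t (fun h : ℕ → Equiv.Perm {x // x ∈ Y} => F i (tht w γ (lif Y h))) := by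
  classical
  obtain ⟨rk, hrk⟩ := exists_injective_nat (Finset (Arc X))
  obtain ⟨enc, henc⟩ : ∃ enc : Finset (Arc X) → Arc X → ℕ, ∀ κ e,
      enc κ e = if h : e ∈ κ then ((κ.equivFin ⟨e, h⟩ : Fin κ.card) : ℕ) else 0 :=
    ⟨_, fun _ _ => rfl⟩
  have hKpos : 1 ≤ K := by
    rw [hK]
    exact Nat.mul_pos hK1 (Nat.succ_pos w)
  have hbad := fun i : Fin S => bad_count (Y := Y) (KK := KKof K t₀ (F i)) (rk := rk) (enc := enc)
    (T := T) (c := c) hK hw hw0 hs1 (fun κ hκ => ⟨hκ.1, hκ.2.1⟩) hrk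
    (fun κ hκ e he => by
      rw [henc, dif_pos he]
      exact lt_of_lt_of_le (Fin.is_lt _) hκ.1)
    (fun κ hκ e he e' he' hee => by
      rw [henc, henc, dif_pos he, dif_pos he'] at hee
      have h1 := κ.equivFin.injective (Fin.ext hee)
      exact congrArg Subtype.val h1)
    hT1 hT hc hN hN1
  suffices h : ∃ ω0 : Fin K → Equiv.Perm X, prd (ext K ω0) K tp = tp ∧
      ∀ i, ¬ Bad w K' s Y (KKof K t₀ (F i)) (prd (ext K ω0)) by
    obtain ⟨ω0, h1, h2⟩ := h
    exact ⟨prd (ext K ω0), rfl, h1, fun i => cert_of_not_bad hK ht hst (hF i) (h2 i)⟩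
  by_contra hcon
  push Not at hcon
  have hsub : (univ.filter fun ω0 : Fin K → Equiv.Perm X => prd (ext K ω0) K tp = tp) ⊆
      (univ : Finset (Fin S)).biUnion fun i => univ.filter fun ω0 : Fin K → Equiv.Perm X =>
        Bad w K' s Y (KKof K t₀ (F i)) (prd (ext K ω0)) := by
    intro ω0 h0
    obtain ⟨i, hi⟩ := hcon ω0 (mem_filter.1 h0).2
    exact mem_biUnion.2 ⟨i, mem_univ _, mem_filter.2 ⟨mem_univ _, hi⟩⟩
  have h1 := (card_le_card hsub).trans card_biUnion_le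
  have h2 := end_count hKpos tp
  have hend : (univ.filter fun ω0 : Fin K → Equiv.Perm X => prd (ext K ω0) K tp = tp).card =
      (univ.filter fun ω : Fin K → Equiv.Perm X => prd (ext K ω) K tp = tp).card := rfl
  have hQ : 0 < Fintype.card (Equiv.Perm X) ^ K := pow_pos Fintype.card_pos _
  have h3 : (∑ i : Fin S, (univ.filter fun ω0 : Fin K → Equiv.Perm X =>
        Bad w K' s Y (KKof K t₀ (F i)) (prd (ext K ω0))).card) *
      (Fintype.card X - c) ^ ((s + 1) / 2) ≤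
      S * (Zf K' Y.card t₀ s w T * Fintype.card (Equiv.Perm X) ^ K) := by
    rw [sum_mul]
    refine (sum_le_sum fun i _ => hbad i).trans ?_
    rw [sum_const, card_univ, Fintype.card_fin, smul_eq_mul]
    rfl
  have h4 : (Fintype.card X - c) ^ ((s + 1) / 2) * Fintype.card (Equiv.Perm X) ^ K ≤
      S * Fintype.card X * Zf K' Y.card t₀ s w T * Fintype.card (Equiv.Perm X) ^ K := by
    have h5 : Fintype.card (Equiv.Perm X) ^ K ≤ Fintype.card X *
        ∑ i : Fin S, (univ.filter fun ω0 : Fin K → Equiv.Perm X =>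
          Bad w K' s Y (KKof K t₀ (F i)) (prd (ext K ω0))).card :=
      h2.trans (Nat.mul_le_mul_left _ (by convert h1))
    calc (Fintype.card X - c) ^ ((s + 1) / 2) * Fintype.card (Equiv.Perm X) ^ K
        ≤ (Fintype.card X - c) ^ ((s + 1) / 2) * (Fintype.card X *
        ∑ i : Fin S, (univ.filter fun ω0 : Fin K → Equiv.Perm X =>
          Bad w K' s Y (KKof K t₀ (F i)) (prd (ext K ω0))).card) := Nat.mul_le_mul_left _ h5
      _ = Fintype.card X * ((∑ i : Fin S, (univ.filter fun ω0 : Fin K → Equiv.Perm X =>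
          Bad w K' s Y (KKof K t₀ (F i)) (prd (ext K ω0))).card) *
          (Fintype.card X - c) ^ ((s + 1) / 2)) := by ring
      _ ≤ Fintype.card X * (S * (Zf K' Y.card t₀ s w T * Fintype.card (Equiv.Perm X) ^ K)) :=
          Nat.mul_le_mul_left _ h3
      _ = S * Fintype.card X * Zf K' Y.card t₀ s w T * Fintype.card (Equiv.Perm X) ^ K := by ring
  exact absurd (Nat.le_of_mul_le_mul_right h4 hQ) (not_le.2 hnum)

end P28ip
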