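import Mathlib
import Pool.Agent.Lib.P28ip.Stage

/-!
# Module P28ip.Num : the numbers of one stage

`s = t / 2 + 1`, so `2 (s - 1) ≤ t`; `M₁ = s - 1 + t₀ = t / 2 + t₀ ≤ 2 t`; `T = 4 t^2` (`≥ 2 t₀ M₁`), `c = 6 t^2` (`≥ t₀ M₁ + 2 M₁`).

PROOF of `num_stage`.  All of `K', t, w + 1 ≤ η`, `t₀ ≤ t`, `ℓ = η^e`, `N = ℓ^1000`, `e ≥ 1`, `η ≥ 1000`.  With `η ≤ ℓ`:
`K' ℓ (ℓ (ℓ (M₁ (t₀+1) (w+1)))) + 1 ≤ ℓ * ℓ^3 * (2ℓ * 2ℓ * ℓ) + 1 ≤ ℓ^8`, so `Zf ≤ 4 ℓ * ℓ^(8 * 4 t) * (2^(4t+1) * (4 ℓ^2)^(8t)) ≤ ℓ^(2 + 32 t + (4t + 1) + 24 t) ≤ ℓ^(63 t)` (crude; `2 ≤ ℓ`,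
`4 ≤ ℓ`).  `S ≤ η^t ≤ ℓ^t`.  `N - c ≥ N / 2 ≥ ℓ^999` (`2 c = 12 t^2 ≤ ℓ^3 ≤ N`; `N / 2 ≥ N / ℓ`).  `(s + 1) / 2 = (t/2 + 2) / 2 ≥ t / 8 + 1` for `t ≥ 8` (natural division; `t ≥ 8`: `(t/2+2)/2 ≥ t/4 ≥ t/8 + 1`,
check: write `t = 8 a + b`).  So the right side is `≥ ℓ^(999 (t/8 + 1))`, the left side `≤ ℓ^(t + 1000 + 63 t) = ℓ^(64 t + 1000)`; with `t = 8 a + b`, `b < 8`, `a ≥ 1`: `64 t + 1000 ≤ 512 a + 448 + 1000`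
and `999 (a + 1) = 999 a + 999`: `999 a + 999 - 512 a - 1448 = 487 a - 449 > 0`.
-/

set_option autoImplicit false

namespace P28ip

theorem num_stage {η e K' t₀ t w S : ℕ} (he : 1 ≤ e) (hη : 1000 ≤ η) (ht8 : 8 ≤ t)
    (ht0 : t₀ ≤ t) (hK' : K' ≤ η) (htη : t ≤ η) (hw : w + 1 ≤ η) (hS : S ≤ η ^ t) :
    2 * (t₀ * (t / 2 + 1 - 1 + t₀)) ≤ 4 * t ^ 2 ∧
    t₀ * (t / 2 + 1 - 1 + t₀) + 2 * (t / 2 + 1 - 1 + t₀) ≤ 6 * t ^ 2 ∧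
    2 * (6 * t ^ 2) ≤ (η ^ e) ^ 1000 ∧
    S * (η ^ e) ^ 1000 * Zf K' (η ^ e) t₀ (t / 2 + 1) w (4 * t ^ 2) <
      ((η ^ e) ^ 1000 - 6 * t ^ 2) ^ ((t / 2 + 1 + 1) / 2) := by
  have hηl : η ≤ η ^ e := Nat.le_self_pow (by omega) η
  obtain ⟨l, hl⟩ : ∃ l, l = η ^ e := ⟨_, rfl⟩
  have hSl : S ≤ l ^ t := hS.trans (Nat.pow_le_pow_left (by rw [hl]; exact hηl) t)
  rw [← hl] at hηl ⊢
  clear hl hS
  obtain ⟨M, hM⟩ : ∃ M, M = t / 2 + 1 - 1 + t₀ := ⟨_, rfl⟩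
  unfold Zf
  rw [← hM]
  have hM2 : M ≤ 2 * t := by omega
  have hl1 : 1000 ≤ l := hη.trans hηl
  have htl : t ≤ l := htη.trans hηl
  have hwl : w + 1 ≤ l := hw.trans hηl
  have hKl : K' ≤ l := hK'.trans hηl
  have h12 : 12 * t ^ 2 ≤ l ^ 3 := by
    calc 12 * t ^ 2 ≤ l * l ^ 2 := Nat.mul_le_mul (by omega) (Nat.pow_le_pow_left htl 2)
      _ = l ^ 3 := by ring
  have hlp : 0 < l := by omega
  refine ⟨?_, ?_, ?_, ?_⟩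
  · calc 2 * (t₀ * M) ≤ 2 * (t * (2 * t)) := Nat.mul_le_mul le_rfl (Nat.mul_le_mul ht0 hM2)
      _ = 4 * t ^ 2 := by ring
  · calc t₀ * M + 2 * M ≤ t * (2 * t) + t * (2 * t) :=
        Nat.add_le_add (Nat.mul_le_mul ht0 hM2) (Nat.mul_le_mul (by omega) hM2)
      _ = 4 * t ^ 2 := by ring
      _ ≤ 6 * t ^ 2 := Nat.mul_le_mul (by omega) le_rfl
  · calc 2 * (6 * t ^ 2) = 12 * t ^ 2 := by ring
      _ ≤ l ^ 3 := h12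
      _ ≤ l ^ 1000 := Nat.pow_le_pow_right hlp (by omega)
  · have h1 : t / 2 + 1 + t₀ ≤ l ^ 2 := by
      calc t / 2 + 1 + t₀ ≤ 3 * l := by omega
        _ ≤ l * l := Nat.mul_le_mul (by omega) le_rfl
        _ = l ^ 2 := by ring
    have h2 : K' * l * (l * (l * (M * ((t₀ + 1) * (w + 1))))) + 1 ≤ l ^ 8 := by
      calc K' * l * (l * (l * (M * ((t₀ + 1) * (w + 1))))) + 1
          ≤ l * l * (l * (l * ((2 * l) * ((2 * l) * l)))) + l ^ 7 := by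
            apply Nat.add_le_add
            · exact Nat.mul_le_mul (Nat.mul_le_mul hKl le_rfl) (Nat.mul_le_mul le_rfl
                (Nat.mul_le_mul le_rfl (Nat.mul_le_mul (by omega) (Nat.mul_le_mul (by omega) hwl))))
            · exact Nat.one_le_pow _ _ hlp
        _ = 5 * l ^ 7 := by ring
        _ ≤ l * l ^ 7 := Nat.mul_le_mul (by omega) le_rfl
        _ = l ^ 8 := by ring
    have h3 : (K' * l * (l * (l * (M * ((t₀ + 1) * (w + 1))))) + 1) ^ (2 * M) ≤ l ^ (32 * t) := by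
      calc (K' * l * (l * (l * (M * ((t₀ + 1) * (w + 1))))) + 1) ^ (2 * M)
          ≤ (l ^ 8) ^ (2 * M) := Nat.pow_le_pow_left h2 _
        _ = l ^ (8 * (2 * M)) := by rw [← pow_mul]
        _ ≤ l ^ (32 * t) := Nat.pow_le_pow_right hlp (by omega)
    have h4 : 2 ^ (2 * M + 1) ≤ l ^ (4 * t + 1) := by
      calc 2 ^ (2 * M + 1) ≤ l ^ (2 * M + 1) := Nat.pow_le_pow_left (by omega) _
        _ ≤ l ^ (4 * t + 1) := Nat.pow_le_pow_right hlp (by omega)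
    have h5 : (4 * t ^ 2) ^ (4 * M) ≤ l ^ (24 * t) := by
      calc (4 * t ^ 2) ^ (4 * M) ≤ (l ^ 3) ^ (4 * M) := Nat.pow_le_pow_left (by omega) _
        _ = l ^ (3 * (4 * M)) := by rw [← pow_mul]
        _ ≤ l ^ (24 * t) := Nat.pow_le_pow_right hlp (by omega)
    have h6 : l ^ 999 ≤ l ^ 1000 - 6 * t ^ 2 := by
      have h7 : l ^ 1000 = l * l ^ 999 := pow_succ' l 999
      have h8 : 2 * l ^ 999 ≤ l * l ^ 999 := Nat.mul_le_mul (by omega) le_rfl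
      have h9 : 12 * t ^ 2 ≤ l ^ 999 := h12.trans (Nat.pow_le_pow_right hlp (by omega))
      rw [h7]
      generalize l * l ^ 999 = y at *
      generalize l ^ 999 = x at *
      omega
    calc S * l ^ 1000 * ((t / 2 + 1 + t₀) *
          (K' * l * (l * (l * (M * ((t₀ + 1) * (w + 1))))) + 1) ^ (2 * M) *
          (2 ^ (2 * M + 1) * (4 * t ^ 2) ^ (4 * M)))
        ≤ l ^ t * l ^ 1000 * (l ^ 2 * l ^ (32 * t) * (l ^ (4 * t + 1) * l ^ (24 * t))) :=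
          Nat.mul_le_mul (Nat.mul_le_mul hSl le_rfl)
            (Nat.mul_le_mul (Nat.mul_le_mul h1 h3) (Nat.mul_le_mul h4 h5))
      _ = l ^ (t + 1000 + (2 + 32 * t + (4 * t + 1 + 24 * t))) := by
          simp only [← pow_add]
      _ < l ^ (999 * ((t / 2 + 1 + 1) / 2)) := Nat.pow_lt_pow_right (by omega) (by omega)
      _ = (l ^ 999) ^ ((t / 2 + 1 + 1) / 2) := by rw [pow_mul]
      _ ≤ (l ^ 1000 - 6 * t ^ 2) ^ ((t / 2 + 1 + 1) / 2) := Nat.pow_le_pow_left h6 _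

end P28ip
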