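import Mathlib
import Pool.Agent.Lib.P28ip.Fam
import Pool.Agent.Lib.P28ip.Num

/-!
# Module P28ip.Loop : all stages
-/

set_option autoImplicit false

namespace P28ip

open Finset

/-- number of layers -/
def lay (t : ℕ) : ℕ → ℕ
  | 0 => t + 1
  | i + 1 => lay t i * (2 * t + 1)

/-- exponents -/
def ee : ℕ → ℕ
  | 0 => 1
  | i + 1 => ee i * 1000

theorem ee_pos (i : ℕ) : 1 ≤ ee i := by
  induction i with
  | zero => exact le_rfl
  | succ i ih => simp only [ee]; omega

theorem lay_pos (t i : ℕ) : 1 ≤ lay t i := by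
  induction i with
  | zero => simp [lay]
  | succ i ih =>
    simp only [lay]
    exact Nat.one_le_iff_ne_zero.2 (Nat.mul_ne_zero (by omega) (by omega))

theorem lay_mono (t i : ℕ) : lay t i ≤ lay t (i + 1) := by
  simp only [lay]
  exact Nat.le_mul_of_pos_right _ (by omega)

theorem t_lt_lay (t i : ℕ) : t < lay t i := by
  induction i with
  | zero => simp [lay]
  | succ i ih => exact lt_of_lt_of_le ih (lay_mono t i)

/-- one stage for circuits -/
theorem stage_circ {X : Type} [Fintype X] [DecidableEq X] {η e w K' t₀ t S : ℕ}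
    (he : 1 ≤ e) (hη : 1000 ≤ η) (ht8 : 8 ≤ t) (ht0 : t₀ ≤ t) (hw2 : 2 * t₀ ≤ w) (hw1 : 1 ≤ w)
    (hK1 : 1 ≤ K') (hK' : K' ≤ η) (hwη : w + 1 ≤ η) (htη : t ≤ η) (hS : S ≤ η ^ t)
    (hX : Fintype.card X = (η ^ e) ^ 1000) (s₀ t' : X)
    {level : Fin S → ℕ} {val : Fin S → (ℕ → Equiv.Perm X) → Bool}
    (hF : FamP (K' * (w + 1)) t₀ level val) (out : Fin S)
    (hout : ∀ ω, val out ω = decide (prd ω (K' * (w + 1)) s₀ = t')) :
    ∃ (Y : Finset X) (s₁ t₁ : {x // x ∈ Y}) (val' : Fin S → (ℕ → Equiv.Perm {x // x ∈ Y}) → Bool),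
      Fintype.card {x // x ∈ Y} = η ^ e ∧ FamP K' t (fun g => level g - 1) val' ∧
      ∀ ω, val' out ω = decide (prd ω K' s₁ = t₁) := by
  have hη1 : 1 ≤ η ^ e := Nat.one_le_pow _ _ (by omega)
  have h2 : 2 ≤ η ^ e := le_trans (by omega : 2 ≤ η) (Nat.le_self_pow (by omega) η)
  have hle : η ^ e ≤ Fintype.card X := by
    rw [hX]
    exact Nat.le_self_pow (by omega) _
  obtain ⟨Y, hsub, -, hY⟩ := Finset.exists_subsuperset_card_eq (s := {s₀, t'})
    (t := (Finset.univ : Finset X)) (n := η ^ e) (Finset.subset_univ _)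
    (le_trans Finset.card_le_two h2) (by rw [Finset.card_univ]; exact hle)
  have hs₀ : s₀ ∈ Y := hsub (by simp)
  have ht' : t' ∈ Y := hsub (by simp)
  obtain ⟨hT, hc, hN, hnum⟩ := num_stage (w := w) (K' := K') (t₀ := t₀) he hη ht8 ht0 hK' htη hwη hS
  obtain ⟨F, hF1, hF2⟩ := one_part hF
  obtain ⟨γ, hγ0, hγK, hγ⟩ := stage (X := X) (w := w) (K := K' * (w + 1)) (K' := K') (t₀ := t₀)
    (s := t / 2 + 1) (t := t) (T := 4 * t ^ 2) (c := 6 * t ^ 2) (S := S) (Y := Y) rfl hK1 hw2 hw1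
    (by omega) ht0 (by omega) (by nlinarith) hT hc (by rw [hX]; exact hN)
    (by rw [hX]; exact Nat.one_le_pow _ _ hη1)
    (by rw [hX, hY]; exact hnum) t' F hF1
  refine ⟨Y, ⟨s₀, hs₀⟩, ⟨t', ht'⟩, fun g h => val g (tht w γ (lif Y h)), ?_, ?_, ?_⟩
  · rw [Fintype.card_coe]; exact hY
  · refine fam_step rfl ht0 hF γ ?_
    intro g hg
    rcases hF2 g hg with h | h
    · rw [← h]; exact hγ g
    · have := certP_not (hγ g)
      rw [h] at this
      simpa using this
  · intro ω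
    show val out (tht w γ (lif Y ω)) = _
    rw [hout]
    exact decide_eq_decide.2 (reach_comp rfl hγ0 ⟨s₀, hs₀⟩ ⟨t', ht'⟩ hγK ω)

/-- no circuits with `i + 2` levels -/
theorem no_circ (i : ℕ) : ∀ {η t S : ℕ} (_ : 1000 ≤ η) (_ : 8 ≤ t)
    (_ : lay t i ≤ η) (_ : S ≤ η ^ t) {X : Type} [Fintype X] [DecidableEq X]
    (_ : Fintype.card X = η ^ ee i) (s₀ t' : X)
    {level : Fin S → ℕ} {val : Fin S → (ℕ → Equiv.Perm X) → Bool}
    (_ : FamP (lay t i) t level val) (_ : ∀ g, level g ≤ i + 1) (out : Fin S)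
    (_ : ∀ ω, val out ω = decide (prd ω (lay t i) s₀ = t')), False := by
  induction i with
  | zero =>
    intro η t S hη ht8 hlay hS X _ _ hX s₀ t' level val hF hl out hout
    refine no_one_level ?_ (t_lt_lay t 0) hF out (hl out) s₀ t' hout
    rw [hX]
    simp only [ee, pow_one]
    omega
  | succ i ih =>
    intro η t S hη ht8 hlay hS X _ _ hX s₀ t' level val hF hl out hout
    have h1 : 1 ≤ lay t i := lay_pos t i
    have h2 : 2 * t + 1 ≤ lay t (i + 1) := by
      simp only [lay]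
      exact Nat.le_mul_of_pos_left _ (by omega)
    have h3 := lay_mono t i
    obtain ⟨Y, s₁, t₁, val', hY, hF', hout'⟩ := stage_circ (X := X) (η := η) (e := ee i)
      (w := 2 * t) (K' := lay t i) (t₀ := t) (t := t) (S := S) (ee_pos i) hη ht8 le_rfl le_rfl
      (by omega) h1 (by omega) (by omega) (by omega) hS
      (by rw [hX]; simp only [ee]; rw [pow_mul]) s₀ t' hF out hout
    exact ih hη ht8 (by omega) hS hY s₁ t₁ hF' (fun g => by have := hl g; omega) out hout'

/-- no circuits over the literals -/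
theorem no_circ_lit (i : ℕ) {η t S : ℕ} (hη : 1000 ≤ η) (ht8 : 8 ≤ t)
    (hlay : lay t i * 3 ≤ η) (hS : S ≤ η ^ t) {X : Type} [Fintype X] [DecidableEq X]
    (hX : Fintype.card X = η ^ ee (i + 1)) (s₀ t' : X)
    {level : Fin S → ℕ} {val : Fin S → (ℕ → Equiv.Perm X) → Bool}
    (hF : ∀ g, ∃ T ⊆ P28cd.Avail {f | CertP (lay t i * 3) 1 f} level val (level g),
      P28cd.IsGate T (val g)) (hl : ∀ g, level g ≤ i + 1) (out : Fin S)
    (hout : ∀ ω, val out ω = decide (prd ω (lay t i * 3) s₀ = t')) : False := by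
  have hF1 : FamP (lay t i * (2 + 1)) 1 (fun g => level g + 1) val := by
    refine ⟨fun g hg => absurd hg (by simp), fun g _ => ?_⟩
    obtain ⟨T, hT, hG⟩ := hF g
    refine ⟨T, ?_, hG⟩
    intro f hf
    rcases hT hf with h | ⟨g', h1, h2⟩
    · exact Or.inl h
    · exact Or.inr ⟨g', by simpa using h1, h2⟩
  have h1 : 1 ≤ lay t i := lay_pos t i
  have h4 := t_lt_lay t i
  obtain ⟨Y, s₁, t₁, val', hY, hF', hout'⟩ := stage_circ (X := X) (η := η) (e := ee i)
    (w := 2) (K' := lay t i) (t₀ := 1) (t := t) (S := S) (ee_pos i) hη ht8 (by omega) (by omega)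
    (by omega) h1 (by omega) (by omega) (by omega) hS
    (by rw [hX]; simp only [ee]; rw [pow_mul]) s₀ t' hF1 out hout
  exact no_circ i hη ht8 (by omega) hS hY s₁ t₁ hF' (fun g => by have := hl g; simpa using this) out
    hout'

end P28ip
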