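import Mathlib
import Pool.Agent.Lib.P28ip.Loop

/-!
# Module P28ip.FinNum : the final choice of the parameters

PROOF.  `E = ee (D + 1) + 2`.  `η` = the largest natural number with `η ^ E ≤ n`; `(η + 1) ^ E > n`; for `n ≥ n₀` it is `≥ 1000` and `≥ 72 ^ (D + 1)`.  `b = min k η`, `t` = the largest natural
number with `(9 t) ^ (D + 1) ≤ b`; `k₀ = 72 ^ (D + 1)` gives `t ≥ 8`.  `lay t D = (t + 1) (2 t + 1) ^ D`, so `lay t D * 3 ≤ 3 * (2 t) * (3 t) ^ D ≤ (9 t) ^ (D + 1) ≤ b`.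
`(lay t D * 3 + 1) η ^ (ee (D+1)) ≤ (η + 1) η ^ (ee (D+1)) ≤ η ^ E ≤ n`.
`(9 (t + 1)) ^ (D + 1) > b`, so `t + 1 > b ^ (1/(D+1)) / 9` and, as `b ^ (1/(D+1)) ≥ 72`, `t ≥ b ^ (1/(D+1)) / 18`.  `n < (η + 1) ^ E ≤ η ^ (2 E)`, so
`η ^ t ≥ n ^ (t / (2 E)) ≥ n ^ (b ^ (1/(D+1)) / (36 E))` and `b ^ (1/(D+1)) = min (k ^ (1/(D+1))) (η ^ (1/(D+1))) ≥ min (k ^ (1/(D+1))) (n ^ (1/(2 E (D+1))))`.
Take `c = 1 / (40 E (D + 1))`: `c < 1/(36 E)`, `c ≤ 1/(2 E (D+1))` (`n ^ c ≤ n ^ (1/(2E(D+1)))`), and the minimum is positive, `n > 1`, so the inequality is strict.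
-/

set_option autoImplicit false

namespace P28ip

namespace FinNumAux

/-- the largest number with a bounded power -/
theorem exists_root (c e n : ℕ) (hc : 1 ≤ c) (he : 1 ≤ e) :
    ∃ v : ℕ, (c * v) ^ e ≤ n ∧ n < (c * (v + 1)) ^ e := by
  have h0 : (c * 0) ^ e ≤ n := by
    rw [mul_zero, zero_pow (by omega)]; omega
  have hP : ∀ v, (c * v) ^ e ≤ n → v ≤ n := by
    intro v hv
    have h1 : c * v ≤ (c * v) ^ e := Nat.le_self_pow (by omega) _
    have h2 : v ≤ c * v := Nat.le_mul_of_pos_left _ (by omega)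
    omega
  refine ⟨Nat.findGreatest (fun v => (c * v) ^ e ≤ n) n, ?_, ?_⟩
  · exact Nat.findGreatest_spec (P := fun v => (c * v) ^ e ≤ n) (Nat.zero_le n) h0
  · by_contra hcon
    rw [not_lt] at hcon
    have h1 := hP _ hcon
    have h2 := Nat.le_findGreatest (P := fun v => (c * v) ^ e ≤ n) h1 hcon
    omega

theorem lay_eq (t i : ℕ) : lay t i = (t + 1) * (2 * t + 1) ^ i := by
  induction i with
  | zero => simp [lay]
  | succ i ih =>
    simp only [lay]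
    rw [ih, pow_succ]
    ring

theorem lay_le (t D : ℕ) (ht : 1 ≤ t) : lay t D * 3 ≤ (9 * t) ^ (D + 1) := by
  rw [lay_eq]
  have h1 : (t + 1) * 3 ≤ 9 * t := by omega
  have h2 : (2 * t + 1) ^ D ≤ (9 * t) ^ D := Nat.pow_le_pow_left (by omega) D
  calc (t + 1) * (2 * t + 1) ^ D * 3 = ((t + 1) * 3) * (2 * t + 1) ^ D := by ring
    _ ≤ (9 * t) * (9 * t) ^ D := Nat.mul_le_mul h1 h2
    _ = (9 * t) ^ (D + 1) := by ring

end FinNumAux

open FinNumAux in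
theorem final_numbers_ip (D : ℕ) : ∃ c : ℝ, 0 < c ∧ ∃ k₀ n₀ : ℕ, ∀ n ≥ n₀, ∀ k ≥ k₀,
    ∃ η t : ℕ, 1000 ≤ η ∧ 8 ≤ t ∧ lay t D * 3 ≤ η ∧ lay t D * 3 ≤ k ∧
      (lay t D * 3 + 1) * η ^ ee (D + 1) ≤ n ∧
      (n : ℝ) ^ (c * min ((k : ℝ) ^ (1 / ((D : ℝ) + 1))) ((n : ℝ) ^ c)) <
        ((η ^ t : ℕ) : ℝ) := by
  obtain ⟨E, hE⟩ : ∃ E : ℕ, E = ee (D + 1) + 2 := ⟨_, rfl⟩
  have hE2 : 2 ≤ E := by omega
  have hER : (0 : ℝ) < (E : ℝ) := by
    have : 0 < E := by omega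
    exact_mod_cast this
  have hDR : (0 : ℝ) < (D : ℝ) + 1 := by positivity
  have hD1 : (1 : ℝ) ≤ (D : ℝ) + 1 := by
    have : (0 : ℝ) ≤ (D : ℝ) := by positivity
    linarith
  refine ⟨1 / (40 * E * ((D : ℝ) + 1)), by positivity, 72 ^ (D + 1),
    (1000 + 72 ^ (D + 1)) ^ E, ?_⟩
  intro n hn k hk
  obtain ⟨η, hη1, hη2⟩ := exists_root 1 E n le_rfl (by omega)
  rw [one_mul] at hη1 hη2
  have hηb : 1000 + 72 ^ (D + 1) ≤ η := by
    by_contra hcon
    have h1 : η + 1 ≤ 1000 + 72 ^ (D + 1) := by omega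
    have h2 : (η + 1) ^ E ≤ (1000 + 72 ^ (D + 1)) ^ E := Nat.pow_le_pow_left h1 E
    omega
  have hη1000 : 1000 ≤ η := (Nat.le_add_right _ _).trans hηb
  have hη72 : 72 ^ (D + 1) ≤ η := (Nat.le_add_left _ _).trans hηb
  obtain ⟨b, hb⟩ : ∃ b : ℕ, b = min k η := ⟨_, rfl⟩
  have hbk : b ≤ k := by rw [hb]; exact min_le_left _ _
  have hbη : b ≤ η := by rw [hb]; exact min_le_right _ _
  have hb72 : 72 ^ (D + 1) ≤ b := by
    rw [hb]
    exact le_min hk hη72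
  obtain ⟨t, ht1, ht2⟩ := exists_root 9 (D + 1) b (by norm_num) (by omega)
  have ht8 : 8 ≤ t := by
    by_contra hcon
    have h1 : 9 * (t + 1) ≤ 72 := by omega
    have h2 : (9 * (t + 1)) ^ (D + 1) ≤ 72 ^ (D + 1) := Nat.pow_le_pow_left h1 _
    omega
  have hlay : lay t D * 3 ≤ b := (lay_le t D (by omega)).trans ht1
  refine ⟨η, t, hη1000, ht8, hlay.trans hbη, hlay.trans hbk, ?_, ?_⟩
  · calc (lay t D * 3 + 1) * η ^ ee (D + 1) ≤ (η * η) * η ^ ee (D + 1) := by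
          refine Nat.mul_le_mul_right _ ?_
          have h1 : lay t D * 3 + 1 ≤ η + 1 := by omega
          have h2 : η + 1 ≤ η * η := by nlinarith
          omega
      _ = η ^ E := by rw [hE]; ring
      _ ≤ n := hη1
  · -- the exponent
    have hηR : (1 : ℝ) < (η : ℝ) := by
      have : 1 < η := by omega
      exact_mod_cast this
    have hn0 : (0 : ℝ) ≤ (n : ℝ) := by positivity
    have hnη : (n : ℝ) ≤ (η : ℝ) ^ ((2 : ℝ) * E) := by
      have h1 : n ≤ η ^ (2 * E) := by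
        calc n ≤ (η + 1) ^ E := hη2.le
          _ ≤ (η ^ 2) ^ E := Nat.pow_le_pow_left (by nlinarith) E
          _ = η ^ (2 * E) := by rw [← pow_mul]
      have h2 : (n : ℝ) ≤ (η : ℝ) ^ (2 * E) := by exact_mod_cast h1
      rw [← Real.rpow_natCast] at h2
      push_cast at h2
      exact h2
    obtain ⟨c, hc⟩ : ∃ c : ℝ, c = 1 / (40 * E * ((D : ℝ) + 1)) := ⟨_, rfl⟩
    have hc0 : 0 < c := by rw [hc]; positivity
    rw [← hc]
    obtain ⟨m, hm⟩ : ∃ m : ℝ, m = min ((k : ℝ) ^ (1 / ((D : ℝ) + 1))) ((n : ℝ) ^ c) := ⟨_, rfl⟩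
    rw [← hm]
    have hm0 : 0 ≤ m := by
      rw [hm]
      exact le_min (Real.rpow_nonneg (by positivity) _) (Real.rpow_nonneg hn0 _)
    have hEc : 2 * (E : ℝ) * c = 1 / (20 * ((D : ℝ) + 1)) := by
      rw [hc]
      field_simp
      norm_num
    have hmb : m ≤ (b : ℝ) ^ (1 / ((D : ℝ) + 1)) := by
      rcases le_total k η with h | h
      · rw [hb, min_eq_left h, hm]
        exact min_le_left _ _
      · rw [hb, min_eq_right h, hm]
        refine (min_le_right _ _).trans ?_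
        calc (n : ℝ) ^ c ≤ ((η : ℝ) ^ ((2 : ℝ) * E)) ^ c :=
              Real.rpow_le_rpow hn0 hnη hc0.le
          _ = (η : ℝ) ^ ((2 : ℝ) * E * c) := by rw [← Real.rpow_mul (by positivity)]
          _ ≤ (η : ℝ) ^ (1 / ((D : ℝ) + 1)) := by
              refine Real.rpow_le_rpow_of_exponent_le hηR.le ?_
              rw [hEc]
              apply one_div_le_one_div_of_le hDR
              linarith
    have hbt : (b : ℝ) ^ (1 / ((D : ℝ) + 1)) ≤ 18 * (t : ℝ) := by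
      have h1 : (b : ℝ) ≤ (9 * ((t : ℝ) + 1)) ^ (D + 1) := by
        have := ht2.le
        exact_mod_cast this
      have h2 : ((9 * ((t : ℝ) + 1)) ^ (D + 1)) ^ (1 / ((D : ℝ) + 1)) = 9 * ((t : ℝ) + 1) := by
        rw [← Real.rpow_natCast, ← Real.rpow_mul (by positivity)]
        have h3 : ((D + 1 : ℕ) : ℝ) * (1 / ((D : ℝ) + 1)) = 1 := by
          push_cast
          field_simp
        rw [h3, Real.rpow_one]
      have h4 : (b : ℝ) ^ (1 / ((D : ℝ) + 1)) ≤ 9 * ((t : ℝ) + 1) := by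
        rw [← h2]
        exact Real.rpow_le_rpow (by positivity) h1 (by positivity)
      have h5 : (8 : ℝ) ≤ (t : ℝ) := by exact_mod_cast ht8
      linarith
    have htR : (8 : ℝ) ≤ (t : ℝ) := by exact_mod_cast ht8
    have hkey : 2 * (E : ℝ) * (c * m) < (t : ℝ) := by
      have h1 : 2 * (E : ℝ) * (c * m) = (2 * (E : ℝ) * c) * m := by ring
      have h2 : 2 * (E : ℝ) * c ≤ 1 / 20 := by
        rw [hEc]
        apply one_div_le_one_div_of_le (by norm_num)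
        linarith
      have h3 : (2 * (E : ℝ) * c) * m ≤ 1 / 20 * m := mul_le_mul_of_nonneg_right h2 hm0
      rw [h1]
      linarith
    calc (n : ℝ) ^ (c * m) ≤ ((η : ℝ) ^ ((2 : ℝ) * E)) ^ (c * m) :=
          Real.rpow_le_rpow hn0 hnη (by positivity)
      _ = (η : ℝ) ^ ((2 : ℝ) * E * (c * m)) := by rw [← Real.rpow_mul (by positivity)]
      _ < (η : ℝ) ^ ((t : ℝ)) := Real.rpow_lt_rpow_of_exponent_lt hηR hkey
      _ = ((η ^ t : ℕ) : ℝ) := by
          rw [Real.rpow_natCast]; push_cast; rfl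

end P28ip
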