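import Mathlib
import Pool.Agent.Lib.P28ip.Alg

/-!
# Module P28ip.Gra : the graph of a configuration

PROOF.  `φ : Fin (K + 1) × X → Fin n` injective with `φ (0, s₀) = s`, `φ (K, t₀) = t` (an injection exists because `(K + 1) |X| ≤ n`; compose it with two transpositions; `s ≠ t`,
`(0, s₀) ≠ (K, t₀)` as `1 ≤ K`).  `Ed ω v w = true` iff `v = φ (j, x)`, `w = φ (j + 1, ω j x)` for some `j < K`, `x`.  For fixed `v, w` this is constantly false unless
`v = φ (j, x)`, `w = φ (j + 1, y)`, and then it is `decide (ω j x = y)`, certified by the arc `(j, x, ω j x)`.  (A constant function has the empty certificate.)  `Es ω v w = Ed ω v w || Ed ω w v`: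
for fixed `v, w` at most one of the two is not constantly false (the layers differ by one).  `r (φ (j, x)) = j` (and anything outside the image).
The vertex `φ (j, prd ω j s₀)` is the only one reachable from `s` in layer `j` (also in the undirected graph: every vertex `φ (j, x)` reached by a walk in `Es` from `s` satisfies
`x = prd ω j s₀`, induction on the length of the walk, `ω j` is injective).
-/

set_option autoImplicit false

namespace P28ip

/-- `E` is a disjoint union of directed paths -/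
def IsPaths {n : ℕ} (E : Fin n → Fin n → Bool) : Prop :=
  (∀ v w w', E v w = true → E v w' = true → w = w') ∧
  (∀ v v' w, E v w = true → E v' w = true → v = v') ∧
  ∃ r : Fin n → ℕ, ∀ v w, E v w = true → r v < r w

/-- the undirected graph of `E` -/
def Und {n : ℕ} (E : Fin n → Fin n → Bool) : Fin n → Fin n → Bool := fun v w => E v w || E w v

namespace GraAux

theorem exists_emb {n K : ℕ} {X : Type} [Fintype X] (hK : 1 ≤ K)
    (hn : (K + 1) * Fintype.card X ≤ n) (s t : Fin n) (hst : s ≠ t) (s₀ t₀ : X) :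
    ∃ φ : ℕ → X → Fin n, (∀ j ≤ K, ∀ j' ≤ K, ∀ x x', φ j x = φ j' x' → j = j' ∧ x = x') ∧
      φ 0 s₀ = s ∧ φ K t₀ = t := by
  classical
  have hc : Fintype.card (Fin (K + 1) × X) ≤ Fintype.card (Fin n) := by
    rw [Fintype.card_prod, Fintype.card_fin, Fintype.card_fin]
    exact hn
  obtain ⟨ι⟩ := Function.Embedding.nonempty_of_card_le hc
  have hab : ι (0, s₀) ≠ ι (Fin.last K, t₀) := by
    intro h
    have h1 := congrArg Prod.fst (ι.injective h)
    have h2 := congrArg Fin.val h1
    simp only [Fin.val_zero, Fin.val_last] at h2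
    omega
  obtain ⟨σ, hs, ht⟩ : ∃ σ : Equiv.Perm (Fin n), σ (ι (0, s₀)) = s ∧ σ (ι (Fin.last K, t₀)) = t := by
    refine ⟨(Equiv.swap (Equiv.swap (ι (0, s₀)) s (ι (Fin.last K, t₀))) t) *
      Equiv.swap (ι (0, s₀)) s, ?_, ?_⟩
    · rw [Equiv.Perm.mul_apply, Equiv.swap_apply_left]
      refine Equiv.swap_apply_of_ne_of_ne ?_ hst
      intro h
      have h1 : Equiv.swap (ι (0, s₀)) s (ι (0, s₀)) =
          Equiv.swap (ι (0, s₀)) s (ι (Fin.last K, t₀)) := by
        rw [Equiv.swap_apply_left]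
        exact h
      exact hab ((Equiv.swap (ι (0, s₀)) s).injective h1)
    · rw [Equiv.Perm.mul_apply, Equiv.swap_apply_left]
  refine ⟨fun j x => σ (ι (⟨min j K, by omega⟩, x)), ?_, ?_, ?_⟩
  · intro j hj j' hj' x x' h
    have h1 := ι.injective (σ.injective h)
    refine ⟨?_, congrArg Prod.snd h1⟩
    have h2 := congrArg Fin.val (congrArg Prod.fst h1)
    simp only at h2
    omega
  · have h0 : (⟨min 0 K, by omega⟩ : Fin (K + 1)) = 0 := by
      ext
      simp
    simp only [h0]
    exact hs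
  · have h0 : (⟨min K K, by omega⟩ : Fin (K + 1)) = Fin.last K := by
      ext
      simp
    simp only [h0]
    exact ht

end GraAux

theorem path_graph {n K : ℕ} {X : Type} [Fintype X] [DecidableEq X] (hK : 1 ≤ K)
    (hn : (K + 1) * Fintype.card X ≤ n) (s t : Fin n) (hst : s ≠ t) (s₀ t₀ : X) :
    ∃ Ed : (ℕ → Equiv.Perm X) → Fin n → Fin n → Bool,
      (∀ v w, CertP K 1 (fun ω => Ed ω v w)) ∧ (∀ v w, CertP K 1 (fun ω => Und (Ed ω) v w)) ∧
      (∀ ω, IsPaths (Ed ω)) ∧
      (∀ ω, prd ω K s₀ = t₀ → P28cd.Walk (Ed ω) K s t ∧ P28cd.Walk (Und (Ed ω)) K s t) ∧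
      ∀ ω, prd ω K s₀ ≠ t₀ → ∀ j, ¬ P28cd.Walk (Ed ω) j s t ∧ ¬ P28cd.Walk (Und (Ed ω)) j s t := by
  classical
  obtain ⟨φ, hφ, hφs, hφt⟩ := GraAux.exists_emb hK hn s t hst s₀ t₀
  obtain ⟨Ed, hEd⟩ : ∃ Ed : (ℕ → Equiv.Perm X) → Fin n → Fin n → Bool, ∀ ω v w,
      (Ed ω v w = true ↔ ∃ j, j < K ∧ ∃ x, v = φ j x ∧ w = φ (j + 1) (ω j x)) :=
    ⟨fun ω v w => decide (∃ j, j < K ∧ ∃ x, v = φ j x ∧ w = φ (j + 1) (ω j x)),
      fun ω v w => by simp only [decide_eq_true_eq]⟩
  have hfalse : ∀ v w, (¬ ∃ j, j < K ∧ ∃ x y, v = φ j x ∧ w = φ (j + 1) y) →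
      ∀ ω, Ed ω v w = false := by
    intro v w h ω
    rw [Bool.eq_false_iff]
    intro h1
    obtain ⟨j, hj, x, hv, hw⟩ := (hEd ω v w).1 h1
    exact h ⟨j, hj, x, ω j x, hv, hw⟩
  have hval : ∀ ω v w j x, j < K → v = φ j x → (Ed ω v w = true ↔ w = φ (j + 1) (ω j x)) := by
    intro ω v w j x hj hv
    rw [hEd]
    constructor
    · rintro ⟨j', hj', x', hv', hw'⟩
      obtain ⟨h1, h2⟩ := hφ j hj.le j' hj'.le x x' (hv.symm.trans hv')
      subst h1
      subst h2
      exact hw'
    · intro hw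
      exact ⟨j, hj, x, hv, hw⟩
  have hcert : ∀ v w, CertP K 1 (fun ω => Ed ω v w) := by
    intro v w ω
    by_cases h : ∃ j, j < K ∧ ∃ x y, v = φ j x ∧ w = φ (j + 1) y
    · obtain ⟨j, hj, x, y, hv, hw⟩ := h
      refine ⟨{(j, x, ω j x)}, by simp, ?_, ?_, ?_⟩
      · intro e he
        rw [Finset.mem_singleton] at he
        rw [he]
        exact hj
      · intro e he
        rw [Finset.mem_singleton] at he
        rw [he]
        rfl
      · intro ω' h'
        have h1 : ω' j x = ω j x := h' (j, x, ω j x) (Finset.mem_singleton_self _)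
        have h2 := hval ω v w j x hj hv
        have h3 := hval ω' v w j x hj hv
        rw [h1] at h3
        exact Bool.eq_iff_iff.2 (h3.trans h2.symm)
    · refine ⟨∅, by simp, by simp, fun e he => absurd he (Finset.notMem_empty e), ?_⟩
      intro ω' _
      simp only [hfalse v w h]
  refine ⟨Ed, hcert, ?_, ?_, ?_, ?_⟩
  · intro v w
    by_cases h : ∃ j, j < K ∧ ∃ x y, v = φ j x ∧ w = φ (j + 1) y
    · have h1 : ∀ ω, Ed ω w v = false := by
        refine hfalse w v ?_
        rintro ⟨j', hj', x', y', hw', hv'⟩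
        obtain ⟨j, hj, x, y, hv, hw⟩ := h
        have h2 := (hφ _ (by omega) _ (by omega) _ _ (hv.symm.trans hv')).1
        have h3 := (hφ _ (by omega) _ (by omega) _ _ (hw.symm.trans hw')).1
        omega
      have h2 : (fun ω => Und (Ed ω) v w) = fun ω => Ed ω v w := by
        funext ω
        simp only [Und, h1 ω, Bool.or_false]
      rw [h2]
      exact hcert v w
    · have h1 := hfalse v w h
      have h2 : (fun ω => Und (Ed ω) v w) = fun ω => Ed ω w v := by
        funext ω
        simp only [Und, h1 ω, Bool.false_or]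
      rw [h2]
      exact hcert w v
  · intro ω
    refine ⟨?_, ?_, ?_⟩
    · intro v w w' h h'
      obtain ⟨j, hj, x, hv, hw⟩ := (hEd ω v w).1 h
      rw [(hval ω v w' j x hj hv).1 h']
      exact hw
    · intro v v' w h h'
      obtain ⟨j, hj, x, hv, hw⟩ := (hEd ω v w).1 h
      obtain ⟨j', hj', x', hv', hw'⟩ := (hEd ω v' w).1 h'
      obtain ⟨h1, h2⟩ := hφ _ (by omega) _ (by omega) _ _ (hw.symm.trans hw')
      have h3 : j = j' := by omega
      subst h3
      have h4 : x = x' := (ω j).injective h2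
      rw [hv, hv', h4]
    · refine ⟨fun v => if h : ∃ j, j ≤ K ∧ ∃ x, v = φ j x then h.choose else 0, ?_⟩
      have hr : ∀ j ≤ K, ∀ x, (if h : ∃ j', j' ≤ K ∧ ∃ x', φ j x = φ j' x' then h.choose else 0) = j := by
        intro j hj x
        have h : ∃ j', j' ≤ K ∧ ∃ x', φ j x = φ j' x' := ⟨j, hj, x, rfl⟩
        rw [dif_pos h]
        obtain ⟨h1, x', h2⟩ := h.choose_spec
        exact (hφ _ hj _ h1 _ _ h2).1.symm
      intro v w h
      obtain ⟨j, hj, x, hv, hw⟩ := (hEd ω v w).1 h
      simp only [hv, hw]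
      rw [hr j hj.le, hr (j + 1) hj]
      exact Nat.lt_succ_self j
  · intro ω hω
    have hw : ∀ E : Fin n → Fin n → Bool, (∀ v w, Ed ω v w = true → E v w = true) →
        P28cd.Walk E K s t := by
      intro E hE
      refine ⟨K, le_rfl, fun j => φ j (prd ω j s₀), ?_, ?_, ?_⟩
      · exact hφs
      · simp only [hω]
        exact hφt
      · intro i hi
        exact hE _ _ ((hEd ω _ _).2 ⟨i, hi, prd ω i s₀, rfl, rfl⟩)
    refine ⟨hw _ fun v w h => h, hw _ fun v w h => ?_⟩
    simp only [Und, h, Bool.true_or]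
  · intro ω hω j
    have key : ∀ p : ℕ → Fin n, p 0 = s → ∀ j, (∀ i < j, Und (Ed ω) (p i) (p (i + 1)) = true) →
        ∃ l, l ≤ K ∧ p j = φ l (prd ω l s₀) := by
      intro p h0 j
      induction j with
      | zero =>
        intro _
        exact ⟨0, Nat.zero_le K, h0.trans hφs.symm⟩
      | succ j ih =>
        intro hs
        obtain ⟨l, hl, hp⟩ := ih fun i hi => hs i (by omega)
        have h1 := hs j (Nat.lt_succ_self j)
        simp only [Und, Bool.or_eq_true] at h1
        rcases h1 with h1 | h1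
        · obtain ⟨j', hj', x', hv', hw'⟩ := (hEd ω _ _).1 h1
          obtain ⟨h2, h3⟩ := hφ _ hl _ hj'.le _ _ (hp.symm.trans hv')
          subst h2
          refine ⟨l + 1, hj', ?_⟩
          rw [hw', ← h3]
          rfl
        · obtain ⟨j', hj', x', hv', hw'⟩ := (hEd ω _ _).1 h1
          obtain ⟨h2, h3⟩ := hφ _ hl _ (by omega) _ _ (hp.symm.trans hw')
          subst h2
          refine ⟨j', hj'.le, ?_⟩
          have h4 : prd ω j' s₀ = x' := (ω j').injective h3
          rw [hv', h4]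
    have hno : ¬ P28cd.Walk (Und (Ed ω)) j s t := by
      rintro ⟨i, _, p, h0, hi, hs⟩
      obtain ⟨l, hl, hp⟩ := key p h0 i hs
      have h1 : φ K t₀ = φ l (prd ω l s₀) := by
        rw [hφt, ← hi]
        exact hp
      obtain ⟨h2, h3⟩ := hφ _ le_rfl _ hl _ _ h1
      subst h2
      exact hω h3.symm
    refine ⟨?_, hno⟩
    rintro ⟨i, hij, p, h0, hi, hs⟩
    refine hno ⟨i, hij, p, h0, hi, fun i' hi' => ?_⟩
    simp only [Und, hs i' hi', Bool.true_or]

end P28ip
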