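import Mathlib
import Pool.Agent.Lib.P28ip.FinNum
import Pool.Agent.Lib.P28ip.Gra
import Pool.Agent.Lib.P28cd.Comp

/-!
# Module P28ip.Fin : the lower bound for disjoint unions of paths
-/

set_option autoImplicit false

namespace P28ip

/-- a circuit on graphs gives a circuit on configurations -/
theorem comp_conf {X : Type} {n S K : ℕ} [Fintype X] [DecidableEq X] {level : Fin S → ℕ}
    {val : Fin S → (Fin n → Fin n → Bool) → Bool}
    (hgate : ∀ g, ∃ T ⊆ P28cd.Avail (P28cd.Lits n) level val (level g), P28cd.IsGate T (val g))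
    (E : (ℕ → Equiv.Perm X) → Fin n → Fin n → Bool)
    (hE : ∀ v w, CertP K 1 (fun ω => E ω v w)) :
    ∀ g, ∃ T ⊆ P28cd.Avail {f | CertP K 1 f} level (fun g ω => val g (E ω)) (level g),
      P28cd.IsGate T (fun ω => val g (E ω)) := by
  intro g
  obtain ⟨T, hT, hG⟩ := hgate g
  refine ⟨_, ?_, P28cd.isGate_comp hG E⟩
  rintro h' ⟨h, hh, rfl⟩
  rcases hT hh with hp | ⟨g', hg', hv⟩
  · left
    obtain ⟨u, v, hp | hp⟩ := hp
    · show CertP K 1 _
      rw [hp]
      exact hE u v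
    · show CertP K 1 _
      rw [hp]
      exact certP_not (hE u v)
  · right
    refine ⟨g', hg', ?_⟩
    rcases hv with hv | hv
    · left; rw [hv]
    · right; rw [hv]

/-- `f` tells the disjoint unions of paths in which there is an `s`-`t` walk with at most `k` arcs from
those in which `t` is not reachable from `s`, in the directed or in the undirected version -/
def SepPaths {n : ℕ} (k : ℕ) (s t : Fin n) (f : (Fin n → Fin n → Bool) → Bool) : Prop :=
  (∀ E, IsPaths E → (P28cd.Walk E k s t → f E = true) ∧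
      ((∀ j, ¬ P28cd.Walk E j s t) → f E = false)) ∨
    ∀ E, IsPaths E → (P28cd.Walk (Und E) k s t → f (Und E) = true) ∧
      ((∀ j, ¬ P28cd.Walk (Und E) j s t) → f (Und E) = false)

theorem walk_mono {n : ℕ} {E : Fin n → Fin n → Bool} {k k' : ℕ} (h : k ≤ k') {s t : Fin n}
    (hw : P28cd.Walk E k s t) : P28cd.Walk E k' s t := by
  obtain ⟨j, hj, p, hp⟩ := hw
  exact ⟨j, hj.trans h, p, hp⟩

theorem lower_paths (D : ℕ) : ∃ c : ℝ, 0 < c ∧ ∃ k₀ n₀ : ℕ,
    ∀ n ≥ n₀, ∀ k ≥ k₀, ∀ s t : Fin n, s ≠ t →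
    ∀ (S : ℕ) (f : (Fin n → Fin n → Bool) → Bool), P28cd.Circ (P28cd.Lits n) (D + 2) S f →
      SepPaths k s t f →
      (n : ℝ) ^ (c * min ((k : ℝ) ^ (1 / ((D : ℝ) + 1))) ((n : ℝ) ^ c)) ≤ S := by
  obtain ⟨c, hc, k₀, n₀, hnum⟩ := final_numbers_ip D
  refine ⟨c, hc, k₀, n₀, ?_⟩
  intro n hn k hk s t hst S f hf hor
  by_contra hlt
  push Not at hlt
  obtain ⟨η, t', hη, ht, hlayη, hlayk, hcard, hpow⟩ := hnum n hn k hk
  have hS : S ≤ η ^ t' := by
    have : (S : ℝ) < ((η ^ t' : ℕ) : ℝ) := lt_trans hlt hpow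
    exact (Nat.cast_lt.1 this).le
  obtain ⟨level, val, out, hlev, hgate, rfl⟩ := hf
  have hpos : 0 < η ^ ee (D + 1) := Nat.pos_of_ne_zero (by positivity)
  haveI : NeZero (η ^ ee (D + 1)) := ⟨hpos.ne'⟩
  set X := Fin (η ^ ee (D + 1)) with hX
  have hXc : Fintype.card X = η ^ ee (D + 1) := Fintype.card_fin _
  have hl1 : 1 ≤ lay t' D := lay_pos t' D
  obtain ⟨Ed, hE1, hE2, hE3, hE4, hE5⟩ := path_graph (n := n) (K := lay t' D * 3) (X := X)
    (by omega) (by rw [hXc]; exact hcard) s t hst 0 0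
  have hl : ∀ g, level g ≤ D + 1 := fun g => Nat.lt_succ_iff.1 (hlev g)
  rcases hor with h | h
  · refine no_circ_lit D hη ht hlayη hS hXc (0 : X) 0
      (comp_conf hgate Ed hE1) hl out ?_
    intro ω
    show val out (Ed ω) = _
    by_cases hp : prd ω (lay t' D * 3) 0 = 0
    · rw [decide_eq_true hp]
      exact (h _ (hE3 ω)).1 (walk_mono hlayk (hE4 ω hp).1)
    · rw [decide_eq_false hp]
      exact (h _ (hE3 ω)).2 fun j => (hE5 ω hp j).1
  · refine no_circ_lit D hη ht hlayη hS hXc (0 : X) 0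
      (comp_conf hgate (fun ω => Und (Ed ω)) hE2) hl out ?_
    intro ω
    show val out (Und (Ed ω)) = _
    by_cases hp : prd ω (lay t' D * 3) 0 = 0
    · rw [decide_eq_true hp]
      exact (h _ (hE3 ω)).1 (walk_mono hlayk (hE4 ω hp).2)
    · rw [decide_eq_false hp]
      exact (h _ (hE3 ω)).2 fun j => (hE5 ω hp j).2

end P28ip
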