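import Mathlib
import Pool.Agent.Lib.P28ip.FinNum
import Pool.Agent.Lib.P28cd.Comp
import Pool.Agent.Lib.P28cd.GDefs

/-!
# Module P28ip.Ipm : the lower bound for the product of permutations
-/

set_option autoImplicit false

namespace P28ip

/-- the literals of `k` permutations of `m` points: an entry of a permutation matrix or its negation -/
def PLits (k m : ℕ) : Set ((Fin k → Equiv.Perm (Fin m)) → Bool) :=
  {h | ∃ j x y, (h = fun ω => decide (ω j x = y)) ∨ h = fun ω => !decide (ω j x = y)}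

/-- `x` is mapped to `y` by the product of the permutations, `ω 0` first -/
def Maps {k m : ℕ} (ω : Fin k → Equiv.Perm (Fin m)) (x y : Fin m) : Prop :=
  ∃ p : ℕ → Fin m, p 0 = x ∧ p k = y ∧ ∀ i : Fin k, ω i (p i) = p (i + 1)

namespace IpmAux

/-- `L` layers of permutations of `Y` as `k` permutations of `m` points -/
def enc (k m L : ℕ) (Y : Finset (Fin m)) (ω : ℕ → Equiv.Perm {x // x ∈ Y}) :
    Fin k → Equiv.Perm (Fin m) :=
  fun j => if (j : ℕ) < L then Equiv.Perm.ofSubtype (ω j) else 1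

theorem cert_lit {k m L : ℕ} {Y : Finset (Fin m)} (j : Fin k) (x y : Fin m) :
    CertP L 1 (fun ω => decide (enc k m L Y ω j x = y)) := by
  intro ω
  by_cases hj : (j : ℕ) < L
  · by_cases hx : x ∈ Y
    · refine ⟨{((j : ℕ), ⟨x, hx⟩, ω j ⟨x, hx⟩)}, by simp, ?_, ?_, ?_⟩
      · intro e he
        rw [Finset.mem_singleton.1 he]
        exact hj
      · intro e he
        rw [Finset.mem_singleton.1 he]
        rfl
      · intro ω' hω'
        have h1 : ω' j ⟨x, hx⟩ = ω j ⟨x, hx⟩ := hω' _ (Finset.mem_singleton_self _)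
        have h2 : ∀ ω'' : ℕ → Equiv.Perm {x // x ∈ Y},
            enc k m L Y ω'' j x = ((ω'' j ⟨x, hx⟩ : {x // x ∈ Y}) : Fin m) := by
          intro ω''
          unfold enc
          rw [if_pos hj]
          exact Equiv.Perm.ofSubtype_apply_of_mem _ hx
        simp only [h2, h1]
    · refine ⟨∅, by simp, by simp, by simp [Hold], ?_⟩
      intro ω' _
      have h2 : ∀ ω'' : ℕ → Equiv.Perm {x // x ∈ Y}, enc k m L Y ω'' j x = x := by
        intro ω''
        unfold enc
        rw [if_pos hj]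
        exact Equiv.Perm.ofSubtype_apply_of_not_mem _ hx
      simp only [h2]
  · refine ⟨∅, by simp, by simp, by simp [Hold], ?_⟩
    intro ω' _
    simp only [enc, if_neg hj]

theorem maps_iff {k m L : ℕ} (hL : L ≤ k) {Y : Finset (Fin m)} (x y : {x // x ∈ Y})
    (ω : ℕ → Equiv.Perm {x // x ∈ Y}) :
    Maps (enc k m L Y ω) (x : Fin m) (y : Fin m) ↔ prd ω L x = y := by
  have hstep : ∀ (j : Fin k) (z : {x // x ∈ Y}), (j : ℕ) < L →
      enc k m L Y ω j (z : Fin m) = ((ω j z : {x // x ∈ Y}) : Fin m) := by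
    intro j z hj
    unfold enc
    rw [if_pos hj]
    exact Equiv.Perm.ofSubtype_apply_coe _ _
  have hstep' : ∀ (j : Fin k) (z : Fin m), ¬ (j : ℕ) < L → enc k m L Y ω j z = z := by
    intro j z hj
    unfold enc
    rw [if_neg hj]
    rfl
  constructor
  · rintro ⟨p, h0, hk, hp⟩
    have h1 : ∀ i ≤ k, p i = ((prd ω (min i L) x : {x // x ∈ Y}) : Fin m) := by
      intro i
      induction i with
      | zero => intro _; simpa [prd] using h0
      | succ i ih =>
        intro hi
        have h2 := ih (by omega)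
        have h3 := hp ⟨i, by omega⟩
        simp only at h3
        rw [← h3, h2]
        by_cases hiL : i < L
        · rw [hstep ⟨i, by omega⟩ _ hiL]
          rw [show min (i + 1) L = min i L + 1 by omega]
          rw [show min i L = i by omega]
          rfl
        · rw [hstep' ⟨i, by omega⟩ _ hiL]
          rw [show min (i + 1) L = min i L by omega]
    have h2 := h1 k le_rfl
    rw [show min k L = L by omega, hk] at h2
    exact (Subtype.ext h2).symm
  · intro h
    refine ⟨fun i => ((prd ω (min i L) x : {x // x ∈ Y}) : Fin m), ?_, ?_, ?_⟩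
    · simp [prd]
    · simp only
      rw [show min k L = L by omega, h]
    · intro i
      simp only
      by_cases hiL : (i : ℕ) < L
      · rw [hstep i _ hiL]
        rw [show min ((i : ℕ) + 1) L = min (i : ℕ) L + 1 by omega]
        rw [show min (i : ℕ) L = i by omega]
        rfl
      · rw [hstep' i _ hiL]
        rw [show min ((i : ℕ) + 1) L = min (i : ℕ) L by omega]

end IpmAux

open IpmAux in
theorem lower_perm (D : ℕ) : ∃ c : ℝ, 0 < c ∧ ∃ k₀ m₀ : ℕ,
    ∀ m ≥ m₀, ∀ k ≥ k₀, ∀ x y : Fin m,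
    ∀ (S : ℕ) (f : (Fin k → Equiv.Perm (Fin m)) → Bool), P28cd.Circ (PLits k m) (D + 2) S f →
      (∀ ω, f ω = true ↔ Maps ω x y) →
      (m : ℝ) ^ (c * min ((k : ℝ) ^ (1 / ((D : ℝ) + 1))) ((m : ℝ) ^ c)) ≤ S := by
  obtain ⟨c, hc, k₀, n₀, hnum⟩ := final_numbers_ip D
  refine ⟨c, hc, k₀, n₀, ?_⟩
  intro m hm k hk x y S f hf hfx
  by_contra hlt
  push Not at hlt
  obtain ⟨η, t', hη, ht, hlayη, hlayk, hcard, hpow⟩ := hnum m hm k hk
  have hS : S ≤ η ^ t' := by
    have : (S : ℝ) < ((η ^ t' : ℕ) : ℝ) := lt_trans hlt hpow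
    exact (Nat.cast_lt.1 this).le
  obtain ⟨level, val, out, hlev, hgate, rfl⟩ := hf
  have h2 : 2 ≤ η ^ ee (D + 1) :=
    le_trans (by omega : 2 ≤ η) (Nat.le_self_pow (by have := ee_pos (D + 1); omega) η)
  have hle : η ^ ee (D + 1) ≤ m :=
    le_trans (Nat.le_mul_of_pos_left _ (by omega)) hcard
  obtain ⟨Y, hsub, -, hY⟩ := Finset.exists_subsuperset_card_eq (s := {x, y})
    (t := (Finset.univ : Finset (Fin m))) (n := η ^ ee (D + 1)) (Finset.subset_univ _)
    (le_trans Finset.card_le_two h2) (by rw [Finset.card_univ, Fintype.card_fin]; exact hle)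
  have hx : x ∈ Y := hsub (by simp)
  have hy : y ∈ Y := hsub (by simp)
  refine no_circ_lit D hη ht hlayη hS (X := {x // x ∈ Y}) (by rw [Fintype.card_coe]; exact hY)
    ⟨x, hx⟩ ⟨y, hy⟩ (level := level) (val := fun g ω => val g (enc k m (lay t' D * 3) Y ω))
    ?_ (fun g => Nat.lt_succ_iff.1 (hlev g)) out ?_
  · intro g
    obtain ⟨T, hT, hG⟩ := hgate g
    refine ⟨_, ?_, P28cd.isGate_comp hG (enc k m (lay t' D * 3) Y)⟩
    rintro h' ⟨h, hh, rfl⟩
    rcases hT hh with hp | ⟨g', hg', hv⟩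
    · left
      obtain ⟨j, u, v, hp | hp⟩ := hp
      · show CertP _ 1 _
        rw [hp]
        exact cert_lit j u v
      · show CertP _ 1 _
        rw [hp]
        exact certP_not (cert_lit j u v)
    · right
      refine ⟨g', hg', ?_⟩
      rcases hv with hv | hv
      · left; rw [hv]
      · right; rw [hv]
  · intro ω
    show val out _ = _
    have h3 := hfx (enc k m (lay t' D * 3) Y ω)
    have h4 := maps_iff hlayk ⟨x, hx⟩ ⟨y, hy⟩ ω
    by_cases hp : prd ω (lay t' D * 3) ⟨x, hx⟩ = ⟨y, hy⟩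
    · rw [decide_eq_true hp]
      exact h3.2 (h4.2 hp)
    · rw [decide_eq_false hp, Bool.eq_false_iff]
      exact fun h5 => hp (h4.1 (h3.1 h5))

end P28ip
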